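import Pool.Agent.H72.BK.Def
import Pool.Agent.H69.BE.KField

/-!
# THEOREM VK (MP_187c26_nt), chapter S6: the coefficient field after the base change

Owner: helper69. `k0 ⊂ ℂ`: the splitting field over `ℚ` of a polynomial `P0` (only depends on `K`, `W`, the `b_i`) whose roots contain all conjugates of a
basis of `K` and of the `W`-th roots of the `b_i` (`exists_P0`). `k`: the splitting field of `(X ^ (n W) - 1) P0`; it contains the image of `A = K(ξ)` and
`β_i = y_i ^ m_i` (`β_i ^ W = b_i`), and `[k : ℚ] ≤ D [A : ℚ]` with `D = W [k0 : ℚ]` (`exists_kK`), so `[k : ℚ] ∏ m_i ≤ D [F : ℚ]`; then `tower`.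
-/

set_option autoImplicit false

open NumberField Module

namespace Pool.Agent.H72.BK

open Pool.Agent.H72.BE (Gm Box vl bv md mon sm gdt fo fm inw Rep cf ctv)
open Pool.Agent.H69.BE (tower)
open IntermediateField Polynomial

private theorem exists_P0 (K : Type) [Field K] [NumberField K] {r : ℕ} (W : ℕ) (hW : 1 ≤ W)
    (b : Fin r → 𝓞 K) : ∃ P0 : ℚ[X], P0 ≠ 0 ∧ ∀ φ : K →+* ℂ,
      (∀ x : K, φ x ∈ adjoin ℚ (P0.rootSet ℂ)) ∧
      ∀ i (z : ℂ), z ^ W = φ (b i : K) → z ∈ adjoin ℚ (P0.rootSet ℂ) := by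
  classical
  have hP1 : (∏ j, minpoly ℚ (finBasis ℚ K j)) ≠ 0 :=
    Finset.prod_ne_zero_iff.2 fun j _ => minpoly.ne_zero (Algebra.IsIntegral.isIntegral _)
  have hP2 : (∏ i, expand ℚ W (minpoly ℚ (b i : K))) ≠ 0 :=
    Finset.prod_ne_zero_iff.2 fun i _ => (expand_ne_zero (by omega)).2
      (minpoly.ne_zero (Algebra.IsIntegral.isIntegral _))
  have hP0 := mul_ne_zero hP1 hP2
  refine ⟨_, hP0, fun φ => ?_⟩
  have hφQ : ∀ c : ℚ, φ (algebraMap ℚ K c) = algebraMap ℚ ℂ c := fun c => by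
    rw [eq_ratCast, map_ratCast, eq_ratCast]
  let φQ : K →ₐ[ℚ] ℂ := { φ with commutes' := hφQ }
  have hφe : ∀ x, φQ x = φ x := fun _ => rfl
  constructor
  · intro x
    have h1 : ∀ j, φQ (finBasis ℚ K j) ∈ adjoin ℚ
        (((∏ j, minpoly ℚ (finBasis ℚ K j)) * ∏ i, expand ℚ W (minpoly ℚ (b i : K))).rootSet ℂ) := by
      intro j
      apply subset_adjoin ℚ _
      rw [mem_rootSet_of_ne hP0, map_mul, map_prod]
      have h2 : aeval (φQ (finBasis ℚ K j)) (minpoly ℚ (finBasis ℚ K j)) = 0 := by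
        rw [aeval_algHom_apply, minpoly.aeval, map_zero]
      rw [Finset.prod_eq_zero (Finset.mem_univ j) h2, zero_mul]
    rw [← hφe, ← (finBasis ℚ K).sum_repr x, map_sum]
    refine sum_mem fun j _ => ?_
    rw [Algebra.smul_def, map_mul, AlgHom.commutes]
    exact mul_mem (IntermediateField.algebraMap_mem _ _) (h1 j)
  · intro i z hz
    apply subset_adjoin ℚ _
    rw [mem_rootSet_of_ne hP0, map_mul, map_prod (aeval z) (fun i => expand ℚ W (minpoly ℚ (b i : K)))]
    have h2 : aeval z (expand ℚ W (minpoly ℚ (b i : K))) = 0 := by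
      rw [expand_aeval, hz, ← hφe, aeval_algHom_apply, minpoly.aeval, map_zero]
    rw [Finset.prod_eq_zero (Finset.mem_univ i) h2, mul_zero]

private theorem exists_kK (K : Type) [Field K] [NumberField K] {r : ℕ} (W : ℕ) (hW : 1 ≤ W)
    (b : Fin r → 𝓞 K) : ∃ D : ℕ, 1 ≤ D ∧ ∀ n : ℕ, 1 ≤ n →
    ∃ k : IntermediateField ℚ ℂ, FiniteDimensional ℚ k ∧ IsGalois ℚ k ∧
      (∀ z : ℂ, z ^ (n * W) = 1 → z ∈ k) ∧ (∀ (φ : K →+* ℂ) (x : K), φ x ∈ k) ∧
      (∀ (φ : K →+* ℂ) i (z : ℂ), z ^ W = φ (b i : K) → z ∈ k) ∧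
      ∀ E : IntermediateField ℚ ℂ, FiniteDimensional ℚ E → (∀ z : ℂ, z ^ n = 1 → z ∈ E) →
        finrank ℚ k ≤ D * finrank ℚ E := by
  classical
  obtain ⟨P0, hP0, hP⟩ := exists_P0 K W hW b
  obtain ⟨k0, hk0⟩ : ∃ k0, k0 = adjoin ℚ (P0.rootSet ℂ) := ⟨_, rfl⟩
  rw [← hk0] at hP
  have hk0f : FiniteDimensional ℚ k0 := by
    have h1 : (P0.map (algebraMap ℚ ℂ)).Splits := IsAlgClosed.splits _
    have h2 : IsSplittingField ℚ k0 P0 := by
      rw [hk0]
      exact adjoin_rootSet_isSplittingField h1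
    exact IsSplittingField.finiteDimensional k0 P0
  refine ⟨W * finrank ℚ k0, Nat.mul_pos hW finrank_pos, ?_⟩
  intro n hn
  have hnW : n * W ≠ 0 := (Nat.mul_pos hn hW).ne'
  set P : ℚ[X] := (X ^ (n * W) - C 1) * P0 with hPdef
  have hPne : P ≠ 0 := mul_ne_zero (monic_X_pow_sub_C _ hnW).ne_zero hP0
  have hroot : ∀ z : ℂ, z ∈ P.rootSet ℂ ↔ z ^ (n * W) = 1 ∨ z ∈ P0.rootSet ℂ := by
    intro z
    rw [mem_rootSet_of_ne hPne, mem_rootSet_of_ne hP0, hPdef, map_mul, mul_eq_zero]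
    simp only [map_sub, map_pow, aeval_X, sub_eq_zero, map_one]
  set k : IntermediateField ℚ ℂ := adjoin ℚ (P.rootSet ℂ) with hk
  have hsplit : (P.map (algebraMap ℚ ℂ)).Splits := IsAlgClosed.splits _
  have hsf : IsSplittingField ℚ k P := adjoin_rootSet_isSplittingField hsplit
  have hfd : FiniteDimensional ℚ k := IsSplittingField.finiteDimensional k P
  have hnorm : Normal ℚ k := Normal.of_isSplittingField P
  have hgal : IsGalois ℚ k := ⟨⟩
  have hk0k : k0 ≤ k := by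
    rw [hk0, hk]
    refine adjoin.mono _ _ _ fun z hz => (hroot z).2 (Or.inr hz)
  refine ⟨k, hfd, hgal, ?_, ?_, ?_, ?_⟩
  · intro z hz
    exact subset_adjoin ℚ _ ((hroot z).2 (Or.inl hz))
  · intro φ x
    exact hk0k ((hP φ).1 x)
  · intro φ i z hz
    exact hk0k ((hP φ).2 i z hz)
  · intro E hE hEn
    obtain ⟨ζ, hζ⟩ : ∃ ζ : ℂ, IsPrimitiveRoot ζ (n * W) := ⟨_, Complex.isPrimitiveRoot_exp _ hnW⟩
    obtain ⟨L, hEL, hyL, hfL, hle, -⟩ := tower E 1 (fun _ => ζ) (fun _ => W)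
      (fun _ => hW) (by
        intro i
        refine hEn _ ?_
        rw [← pow_mul, mul_comm, hζ.pow_eq_one])
    have hζL : ζ ∈ L := hyL 0
    have hroots : ∀ z : ℂ, z ^ (n * W) = 1 → z ∈ L := by
      intro z hz
      have : NeZero (n * W) := ⟨hnW⟩
      obtain ⟨j, -, hj⟩ := hζ.eq_pow_of_pow_eq_one hz
      rw [← hj]
      exact pow_mem hζL _
    have hkL : k ≤ L ⊔ k0 := by
      rw [hk, adjoin_le_iff]
      intro z hz
      rcases (hroot z).1 hz with h1 | h1
      · exact (le_sup_left : L ≤ L ⊔ k0) (hroots z h1)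
      · refine (le_sup_right : k0 ≤ L ⊔ k0) ?_
        rw [hk0]
        exact subset_adjoin ℚ _ h1
    have hfs : FiniteDimensional ℚ (L ⊔ k0 : IntermediateField ℚ ℂ) := inferInstance
    have h1 : finrank ℚ k ≤ finrank ℚ (L ⊔ k0 : IntermediateField ℚ ℂ) := by
      exact LinearMap.finrank_le_finrank_of_injective (f := (inclusion hkL).toLinearMap)
        (inclusion hkL).injective
    have h2 : finrank ℚ (L ⊔ k0 : IntermediateField ℚ ℂ) ≤ finrank ℚ L * finrank ℚ k0 :=
      finrank_sup_le L k0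
    rw [Finset.prod_const, Finset.card_univ, Fintype.card_fin, pow_one] at hle
    calc finrank ℚ k ≤ finrank ℚ L * finrank ℚ k0 := h1.trans h2
      _ ≤ (finrank ℚ E * W) * finrank ℚ k0 := Nat.mul_le_mul_right _ hle
      _ = W * finrank ℚ k0 * finrank ℚ E := by ring

private theorem deg_root {K : Type} [Field K] [NumberField K] (W : ℕ) (hW : 1 ≤ W) (a : K)
    (φ : K →+* ℂ) (k : IntermediateField ℚ ℂ) (β : k) (h : ((β : k) : ℂ) ^ W = φ a) :
    (minpoly ℚ β).natDegree ≤ W * finrank ℚ K := by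
  have hφQ : ∀ c : ℚ, φ (algebraMap ℚ K c) = algebraMap ℚ ℂ c := fun c => by
    rw [eq_ratCast, map_ratCast, eq_ratCast]
  let φQ : K →ₐ[ℚ] ℂ := { φ with commutes' := hφQ }
  have hφe : ∀ x, φQ x = φ x := fun _ => rfl
  have h0 : expand ℚ W (minpoly ℚ a) ≠ 0 := (expand_ne_zero (by omega)).2
    (minpoly.ne_zero (Algebra.IsIntegral.isIntegral _))
  have h1 : minpoly ℚ β ∣ expand ℚ W (minpoly ℚ a) := by
    apply minpoly.dvd
    have h2 : aeval ((β : k) : ℂ) (expand ℚ W (minpoly ℚ a)) = 0 := by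
      rw [expand_aeval, h, ← hφe, aeval_algHom_apply, minpoly.aeval, map_zero]
    have h3 : aeval ((β : k) : ℂ) (expand ℚ W (minpoly ℚ a)) =
        ((aeval β (expand ℚ W (minpoly ℚ a)) : k) : ℂ) := aeval_algHom_apply k.val β _
    rw [h3] at h2
    exact Subtype.ext h2
  refine (natDegree_le_of_dvd h1 h0).trans ?_
  rw [natDegree_expand, mul_comm]
  exact Nat.mul_le_mul_left _ (minpoly.natDegree_le a)

theorem fieldsK {K : Type} [Field K] [NumberField K] {r : ℕ} (W : ℕ) (hW : 1 ≤ W)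
    (b : Fin r → 𝓞 K) (hb0 : ∀ i, b i ≠ 0) :
    ∃ D : ℕ, 1 ≤ D ∧ ∀ (B : ℕ) (m : Fin r → ℕ) [∀ i, NeZero (m i)] (n : ℕ) [NeZero n] (A F : Type)
      [Field A] [NumberField A] [Field F] [NumberField F] [Algebra K A] [Algebra A F]
      [IsCyclotomicExtension {n} K A] (x : Fin r → F)
      (_ : Rad B (fun i => algebraMap (𝓞 K) A (b i)) m F x) [Algebra F ℂ] (y : Fin r → ℂ)
      (_ : ∀ i, y i ^ W = algebraMap F ℂ (x i)),
      ∃ (k : IntermediateField ℚ ℂ) (ι : A →+* k) (β : Fin r → k), FiniteDimensional ℚ k ∧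
        IsGalois ℚ k ∧ (∀ a, ((ι a : k) : ℂ) = algebraMap F ℂ (algebraMap A F a)) ∧
        (∀ i, ((β i : k) : ℂ) = y i ^ m i) ∧
        (∀ i, (minpoly ℚ (β i)).natDegree ≤ W * finrank ℚ K) ∧
        ∀ P : MvPolynomial (Fin r) k, (∀ i, D * P.degreeOf i < m i) →
          MvPolynomial.aeval y P = 0 → P = 0 := by
  classical
  have _ := hb0
  obtain ⟨D, hD1, hD⟩ := exists_kK K W hW b
  refine ⟨D, hD1, ?_⟩
  intro B m _ n _ A F _ _ _ _ _ _ _ x h _ y hy
  have hn : 1 ≤ n := Nat.pos_of_ne_zero (NeZero.ne n)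
  obtain ⟨k, hkf, hkg, hkn, hkK, hkb, hkE⟩ := hD n hn
  set φ : A →+* ℂ := (algebraMap F ℂ).comp (algebraMap A F) with hφ
  set φK : K →+* ℂ := φ.comp (algebraMap K A) with hφK
  have hkn' : ∀ z : ℂ, z ^ n = 1 → z ∈ k := fun z hz => hkn z (by rw [pow_mul, hz, one_pow])
  have hmem : ∀ a, φ a ∈ k := by
    intro a
    have ha := IsCyclotomicExtension.adjoin_roots (S := {n}) (A := K) (B := A) a
    induction ha using Algebra.adjoin_induction with
    | mem z hz =>
      obtain ⟨n', hn', -, hz⟩ := hz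
      rw [Set.mem_singleton_iff] at hn'
      subst hn'
      refine hkn' _ ?_
      rw [← map_pow, hz, map_one]
    | algebraMap c => exact hkK φK c
    | add x y _ _ hx hy =>
      rw [map_add]
      exact add_mem hx hy
    | mul x y _ _ hx hy =>
      rw [map_mul]
      exact mul_mem hx hy
  set ι : A →+* k := φ.codRestrict k hmem with hι
  have hbK : ∀ i, algebraMap (𝓞 K) A (b i) = algebraMap K A (b i : K) := fun i => rfl
  have hyb : ∀ i, (y i ^ m i) ^ W = φK (b i : K) := fun i => by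
    rw [← pow_mul, mul_comm, pow_mul, hy, ← map_pow, h.pow, hbK]
    rfl
  set β : Fin r → k := fun i => ⟨y i ^ m i, hkb φK i _ (hyb i)⟩ with hβ
  refine ⟨k, ι, β, hkf, hkg, fun a => rfl, fun i => rfl, ?_, ?_⟩
  · intro i
    exact deg_root W hW (b i : K) φK k (β i) (hyb i)
  · obtain ⟨L, hkL, hyL, hfL, -, hDL⟩ := tower k r y m (fun i => Nat.pos_of_ne_zero (NeZero.ne _))
      (fun i => hkb φK i _ (hyb i))
    refine hDL D ?_
    -- the image of `A`
    have hφQ : ∀ c : ℚ, φ (algebraMap ℚ A c) = algebraMap ℚ ℂ c := fun c => by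
      rw [eq_ratCast, map_ratCast, eq_ratCast]
    let φQ : A →ₐ[ℚ] ℂ := { φ with commutes' := hφQ }
    set E : IntermediateField ℚ ℂ := φQ.fieldRange with hE
    have hEA : finrank ℚ E = finrank ℚ A :=
      (LinearEquiv.finrank_eq (AlgEquiv.ofInjectiveField φQ).toLinearEquiv).symm
    have hEf : FiniteDimensional ℚ E :=
      LinearEquiv.finiteDimensional (AlgEquiv.ofInjectiveField φQ).toLinearEquiv
    have hEn : ∀ z : ℂ, z ^ n = 1 → z ∈ E := by
      intro z hz
      obtain ⟨ζ, hζ⟩ := IsCyclotomicExtension.exists_isPrimitiveRoot K A (Set.mem_singleton n)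
        (NeZero.ne n)
      have hζ' : IsPrimitiveRoot (φ ζ) n := hζ.map_of_injective φ.injective
      obtain ⟨i, -, hi⟩ := hζ'.eq_pow_of_pow_eq_one hz
      exact ⟨ζ ^ i, by rw [← hi]; exact map_pow φ ζ i⟩
    have h1 := hkE E hEf hEn
    rw [hEA] at h1
    -- the image of `F`
    have hFL : ∀ w : F, algebraMap F ℂ w ∈ L := by
      intro w
      have hw : w = ∑ l, h.co w l • mon x (vl l) := by
        rw [← h.co_symm, LinearEquiv.symm_apply_apply]
      rw [hw, map_sum]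
      refine sum_mem fun l _ => ?_
      rw [Algebra.smul_def, map_mul]
      refine mul_mem (hkL (hmem _)) ?_
      unfold mon
      rw [map_prod]
      refine prod_mem fun i _ => ?_
      rw [map_pow]
      refine pow_mem ?_ _
      rw [← hy]
      exact pow_mem (hyL i) _
    have h2 : finrank ℚ F ≤ finrank ℚ L := by
      let g : F →+* L := (algebraMap F ℂ).codRestrict L hFL
      have hg : ∀ c : ℚ, g (algebraMap ℚ F c) = algebraMap ℚ L c := fun c => by
        rw [eq_ratCast, map_ratCast, eq_ratCast]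
      let gQ : F →ₐ[ℚ] L := { g with commutes' := hg }
      exact LinearMap.finrank_le_finrank_of_injective (f := gQ.toLinearMap) g.injective
    calc finrank ℚ k * ∏ i, m i ≤ D * finrank ℚ A * ∏ i, m i :=
          Nat.mul_le_mul_right _ h1
      _ = D * (finrank ℚ A * finrank A F) := by rw [h.deg, mul_assoc]
      _ = D * finrank ℚ F := by rw [finrank_mul_finrank]
      _ ≤ D * finrank ℚ L := Nat.mul_le_mul_left _ h2

end Pool.Agent.H72.BK
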