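import Pool.Agent.H72.BK.Co
import Pool.Agent.H72.BE.Sep

/-!
# Windows (MP_187c26_nt, Theorem VK)

Model (r = 1, no wrapping): `Pool/Agent/H72/BD/Sep.lean`. Windows may wrap around here.

`co_win`: `mon x a * aeval x p = ∑ e, coeff_e p • mon x (a + e)` (`MvPolynomial.aeval_def`, `as_sum`), and `mon x (a + e) = β(a + e) mon x (vl (md (a + e)))`; the
elements `md m (a + e)`, `e ∈ Box ℓ`, are different as `ℓ_i ≤ m_i`. So the coordinate at `md m (a + e)` is `β(a + e) coeff_e p` for `e_i < ℓ_i`, and the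
coordinate at `l` is `0` if `l` is not in the window.
`uu_win`: `β(a + e) rw (vl (md m (a + e))) = rw (a + e) = rw a rw e` (`rw_reduce`, `rw_add`).
`sep_unique`: compare the coordinates at `md m (a_j + e)`: only the `j`-th summand contributes (disjoint windows), `β ≠ 0`.
`exists_sep`: `v_j = ∑ e ∈ Box ℓ, (co y (md m (a_j + e)) / β(a_j + e)) X ^ e`; both sides have the same coordinates.
-/

set_option autoImplicit false

open MvPolynomial NumberField

namespace Pool.Agent.H72.BK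

open Pool.Agent.H72.BE (Gm Box vl bv md mon sm gdt fo fm inw Rep cf ctv mon_add mon_zero md_add md_vl)

variable {r : ℕ} {m : Fin r → ℕ}

private theorem md_inj (a e d : Fin r → ℕ) (he : ∀ i, e i < m i) (hd : ∀ i, d i < m i)
    (h : md m (a + e) = md m (a + d)) : e = d := by
  rw [md_add, md_add, add_right_inj] at h
  funext i
  have h1 := congrArg ZMod.val (congrFun h i)
  unfold md at h1
  rwa [ZMod.val_natCast_of_lt (he i), ZMod.val_natCast_of_lt (hd i)] at h1

private theorem coeff_eq_zero_of_not {A : Type} [Field A] (ℓ : Fin r → ℕ)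
    (p : MvPolynomial (Fin r) A) (hp : ∀ i, p.degreeOf i < ℓ i) (d : Fin r →₀ ℕ)
    (hd : ¬ ∀ i, d i < ℓ i) : p.coeff d = 0 := by
  by_contra h1
  exact hd fun i => lt_of_le_of_lt (monomial_le_degreeOf i (mem_support_iff.2 h1)) (hp i)

variable [∀ i, NeZero (m i)] {B : ℕ} {A F : Type} [Field A] [NumberField A] {b : Fin r → A}
  [Field F] [NumberField F]
  [Algebra A F] {x : Fin r → F}

/-- The coordinates of `mon x a * p(x)`, general formula. -/
theorem Rad.co_mon_aeval (h : Rad B b m F x) (a : Fin r → ℕ) (p : MvPolynomial (Fin r) A)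
    (l : Gm m) : h.co (mon x a * aeval x p) l =
      ∑ d ∈ p.support, if l = md m (a + d) then p.coeff d * bet b m (a + d) else 0 := by
  rw [aeval_def, eval₂_eq', Finset.mul_sum, map_sum, Finset.sum_apply]
  refine Finset.sum_congr rfl fun d _ => ?_
  have h1 : mon x a * (algebraMap A F (coeff d p) * ∏ i, x i ^ d i) =
      algebraMap A F (coeff d p) * mon x (a + d) := by
    rw [mon_add]
    show mon x a * (algebraMap A F (coeff d p) * mon x d) = _
    ring
  rw [h1, h.co_smul_mon]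

/-- The coordinates of `mon x a * p(x)`. -/
theorem Rad.co_win (h : Rad B b m F x) (a ℓ : Fin r → ℕ) (hℓ : ∀ i, ℓ i ≤ m i)
    (p : MvPolynomial (Fin r) A) (hp : ∀ i, p.degreeOf i < ℓ i) (e : Fin r → ℕ)
    (he : ∀ i, e i < ℓ i) :
    h.co (mon x a * aeval x p) (md m (a + e)) =
      bet b m (a + e) * p.coeff (Finsupp.equivFunOnFinite.symm e) := by
  rw [h.co_mon_aeval, Finset.sum_eq_single (Finsupp.equivFunOnFinite.symm e)]
  · have h0 : (⇑(Finsupp.equivFunOnFinite.symm e) : Fin r → ℕ) = e := rfl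
    rw [h0, if_pos rfl, mul_comm]
  · intro d hd hde
    rw [if_neg]
    intro h1
    refine hde (Finsupp.ext fun i => ?_)
    have h2 := md_inj a e d (fun i => (he i).trans_le (hℓ i))
      (fun i => (lt_of_le_of_lt (monomial_le_degreeOf i hd) (hp i)).trans_le (hℓ i)) h1
    exact (congrFun h2 i).symm
  · intro h1
    rw [notMem_support_iff] at h1
    rw [h1, zero_mul, ite_self]

theorem Rad.uu_win (h : Rad B b m F x) (t : A →+* ℂ) (a ℓ : Fin r → ℕ) (hℓ : ∀ i, ℓ i ≤ m i)
    (p : MvPolynomial (Fin r) A) (hp : ∀ i, p.degreeOf i < ℓ i) (e : Fin r → ℕ)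
    (he : ∀ i, e i < ℓ i) :
    h.uu t (mon x a * aeval x p) (md m (a + e)) =
      rw b m t a * (t (p.coeff (Finsupp.equivFunOnFinite.symm e)) * rw b m t e) := by
  unfold Rad.uu
  have h1 := rw_reduce (b := b) (m := m) t (a + e)
  rw [rw_add] at h1
  rw [h.co_win a ℓ hℓ p hp e he, map_mul]
  linear_combination (-(t (p.coeff (Finsupp.equivFunOnFinite.symm e)))) * h1

theorem Rad.inw_of_ne_zero (h : Rad B b m F x) (a ℓ : Fin r → ℕ) (hℓ : ∀ i, ℓ i ≤ m i)
    (p : MvPolynomial (Fin r) A) (hp : ∀ i, p.degreeOf i < ℓ i) (l : Gm m)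
    (hl : h.co (mon x a * aeval x p) l ≠ 0) : inw a ℓ l := by
  rw [h.co_mon_aeval] at hl
  obtain ⟨d, hd, hd1⟩ := Finset.exists_ne_zero_of_sum_ne_zero hl
  have h1 : l = md m (a + d) := by
    by_contra h2
    exact hd1 (if_neg h2)
  exact ⟨d, fun i => lt_of_le_of_lt (monomial_le_degreeOf i hd) (hp i), h1⟩

theorem Rad.aeval_eq_zero (h : Rad B b m F x) (p : MvPolynomial (Fin r) A)
    (hp : ∀ i, p.degreeOf i < m i) (h0 : aeval x p = 0) : p = 0 := by
  ext d
  rw [coeff_zero]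
  by_cases hd : ∀ i, d i < m i
  · have h1 := h.co_win 0 m (fun _ => le_rfl) p hp d hd
    rw [mon_zero, one_mul, h0, map_zero, Pi.zero_apply] at h1
    have h2 : bet b m (0 + ⇑d) ≠ 0 := h.bet_ne_zero _
    have h3 := (mul_eq_zero.1 h1.symm).resolve_left h2
    rwa [Finsupp.equivFunOnFinite_symm_coe] at h3
  · exact coeff_eq_zero_of_not m p hp d hd

private theorem Rad.co_sum_win (h : Rad B b m F x) {R : ℕ} (a : Fin (R + 1) → Fin r → ℕ)
    (ℓ : Fin r → ℕ) (hℓ : ∀ i, ℓ i ≤ m i)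
    (hsep : ∀ j j', j ≠ j' → ∀ l : Gm m, inw (a j) ℓ l → ¬ inw (a j') ℓ l)
    (u : Fin (R + 1) → MvPolynomial (Fin r) A) (hu : ∀ j i, (u j).degreeOf i < ℓ i)
    (j0 : Fin (R + 1)) (e : Fin r → ℕ) (he : ∀ i, e i < ℓ i) :
    h.co (∑ j, mon x (a j) * aeval x (u j)) (md m (a j0 + e)) =
      bet b m (a j0 + e) * (u j0).coeff (Finsupp.equivFunOnFinite.symm e) := by
  rw [map_sum, Finset.sum_apply, Finset.sum_eq_single j0]
  · exact h.co_win (a j0) ℓ hℓ (u j0) (hu j0) e he
  · intro j _ hj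
    by_contra h1
    exact hsep j j0 hj _ (h.inw_of_ne_zero (a j) ℓ hℓ (u j) (hu j) _ h1) ⟨e, he, rfl⟩
  · intro h1
    exact absurd (Finset.mem_univ _) h1

/-- Independence of disjoint windows. -/
theorem Rad.sep_unique (h : Rad B b m F x) {R : ℕ} (a : Fin (R + 1) → Fin r → ℕ)
    (ℓ : Fin r → ℕ) (hℓ : ∀ i, ℓ i ≤ m i)
    (hsep : ∀ j j', j ≠ j' → ∀ l : Gm m, inw (a j) ℓ l → ¬ inw (a j') ℓ l)
    (v w : Fin (R + 1) → MvPolynomial (Fin r) A) (hv : ∀ j i, (v j).degreeOf i < ℓ i)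
    (hw : ∀ j i, (w j).degreeOf i < ℓ i)
    (heq : ∑ j, mon x (a j) * aeval x (v j) = ∑ j, mon x (a j) * aeval x (w j)) : v = w := by
  funext j0
  ext d
  by_cases hd : ∀ i, d i < ℓ i
  · have h1 := congrFun (congrArg h.co heq) (md m (a j0 + d))
    have h2 : ∀ u : Fin (R + 1) → MvPolynomial (Fin r) A, (∀ j i, (u j).degreeOf i < ℓ i) →
        h.co (∑ j, mon x (a j) * aeval x (u j)) (md m (a j0 + d)) =
          bet b m (a j0 + d) * (u j0).coeff d := by
      intro u hu
      rw [h.co_sum_win a ℓ hℓ hsep u hu j0 d hd, Finsupp.equivFunOnFinite_symm_coe]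
    rw [h2 v hv, h2 w hw] at h1
    exact mul_left_cancel₀ (h.bet_ne_zero _) h1
  · rw [coeff_eq_zero_of_not ℓ _ (hv j0) d hd, coeff_eq_zero_of_not ℓ _ (hw j0) d hd]

/-- An element with support in disjoint windows. -/
theorem Rad.exists_sep (h : Rad B b m F x) {R : ℕ} (a : Fin (R + 1) → Fin r → ℕ)
    (ℓ : Fin r → ℕ) (hℓ1 : ∀ i, 1 ≤ ℓ i) (hℓ : ∀ i, ℓ i ≤ m i)
    (hsep : ∀ j j', j ≠ j' → ∀ l : Gm m, inw (a j) ℓ l → ¬ inw (a j') ℓ l) (y : F)
    (hw : ∀ l, h.co y l ≠ 0 → ∃ j, inw (a j) ℓ l) :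
    ∃ v : Fin (R + 1) → MvPolynomial (Fin r) A, (∀ j i, (v j).degreeOf i < ℓ i) ∧
      y = ∑ j, mon x (a j) * aeval x (v j) ∧
      ∀ j, (∀ l, h.co y l ≠ 0 → ¬ inw (a j) ℓ l) → v j = 0 := by
  classical
  set v : Fin (R + 1) → MvPolynomial (Fin r) A := fun j => ∑ e : Box ℓ,
    monomial (Finsupp.equivFunOnFinite.symm (bv e))
      (h.co y (md m (a j + bv e)) / bet b m (a j + bv e)) with hvdef
  have hc : ∀ j (e : Fin r → ℕ), (∀ i, e i < ℓ i) →
      (v j).coeff (Finsupp.equivFunOnFinite.symm e) =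
        h.co y (md m (a j + e)) / bet b m (a j + e) := by
    intro j e he
    rw [hvdef]
    simp only [coeff_sum, coeff_monomial]
    rw [Finset.sum_eq_single (fun i => ⟨e i, he i⟩ : Box ℓ)]
    · exact if_pos rfl
    · intro e' _ he'
      rw [if_neg]
      intro h1
      apply he'
      funext i
      have h2 := congrFun (Finsupp.equivFunOnFinite.symm.injective h1) i
      exact Fin.ext h2
    · intro h1
      exact absurd (Finset.mem_univ _) h1
  have hdeg : ∀ j i, (v j).degreeOf i < ℓ i := by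
    intro j i
    rw [degreeOf_lt_iff (hℓ1 i)]
    intro d hd
    rw [mem_support_iff, hvdef] at hd
    simp only [coeff_sum, coeff_monomial] at hd
    obtain ⟨e, _, he⟩ := Finset.exists_ne_zero_of_sum_ne_zero hd
    have h1 : Finsupp.equivFunOnFinite.symm (bv e) = d := by
      by_contra h2
      exact he (if_neg h2)
    rw [← h1]
    exact (e i).2
  refine ⟨v, hdeg, ?_, ?_⟩
  · apply h.co.injective
    funext l
    by_cases hl : ∃ j, inw (a j) ℓ l
    · obtain ⟨j0, e, he, rfl⟩ := hl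
      rw [h.co_sum_win a ℓ hℓ hsep v hdeg j0 e he, hc j0 e he, mul_div_cancel₀]
      exact h.bet_ne_zero _
    · rw [map_sum, Finset.sum_apply, Finset.sum_eq_zero]
      · by_contra h1
        exact hl (hw l h1)
      · intro j _
        by_contra h1
        exact hl ⟨j, h.inw_of_ne_zero (a j) ℓ hℓ (v j) (hdeg j) l h1⟩
  · intro j hj
    rw [hvdef]
    refine Finset.sum_eq_zero fun e _ => ?_
    have h1 : h.co y (md m (a j + bv e)) = 0 := by
      by_contra h2
      exact hj _ h2 ⟨bv e, fun i => (e i).2, rfl⟩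
    rw [h1, zero_div, monomial_zero]

end Pool.Agent.H72.BK
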