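import Pool.Agent.H72.BK.SixK
import Pool.Agent.H72.BK.FieldsK
import Pool.Agent.H72.BK.Sep
import Pool.Agent.H69.BE.CoreR
import Pool.Agent.H11.BK.TauH

/-!
# THEOREM VK (MP_187c26_nt), chapters S6 and S7: few windows near rational positions are enough

Text: a prime `p > K1 ^ [K:ℚ] + ∑ N(b_i) + Q1 + W`, `f` with `(W [K:ℚ])! ∣ f`, `W (p ^ g - 1) ∣ p ^ f - 1` for `g ≤ [K:ℚ]` (`exists_fK`), `Q = p ^ f`,
`D` from `fieldsK`, `T = D Q (d + 1) (W + 2) + 2 Q + 2`,
`c = log 2 / (Q d)`. `E_i = m_i / T`. `W a_ji + E_i = k_ji m_i + p_ji`, `0 ≤ p_ji ≤ 2 E_i`. `y_i ^ W = x_i`, `k ∋ β_i = y_i ^ m_i` from `fieldsK`,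
`V_i = ∑ β ^ k_j X ^ p_j v_ij(X ^ W)` of degrees `≤ 2 E + W ℓ`, `Φ = ∑ V_i Z ^ i`. `V_i(y) = y ^ E g c_i`; `τ = σ ^ f` from `tauH`; `sixK` for all
conjugates of `α` over `F` gives `Φ^τ(y ^ Q, α_i ^ Q) = 0`. `sevenR`: `α ^ n y ^ s = y ^ t`. Take the `W ∏ m_i`-th power.
-/

set_option autoImplicit false

open Polynomial NumberField

namespace Pool.Agent.H72.BK

open Pool.Agent.H72.BE (Rep cf ctv mon tw)
open Pool.Agent.H69.BE

variable {r : ℕ}

/-- A large prime does not divide `b`. -/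
theorem notMem_of_lt {K : Type} [Field K] [NumberField K] (𝔮 : Ideal (𝓞 K)) (p : ℕ) (hp : p.Prime)
    (h𝔮 : 𝔮.IsPrime) (hp𝔮 : (p : 𝓞 K) ∈ 𝔮) (b : 𝓞 K) (hb0 : b ≠ 0)
    (hb : Ideal.absNorm (Ideal.span {b}) < p) : b ∉ 𝔮 := by
  intro h
  have h1 := Ideal.absNorm_dvd_absNorm_of_le ((Ideal.span_singleton_le_iff_mem 𝔮).2 h)
  obtain ⟨g, hg1, -, hg⟩ := norm_prime 𝔮 p hp h𝔮 hp𝔮
  rw [hg] at h1
  have h2 : p ∣ Ideal.absNorm (Ideal.span {b}) := (dvd_pow_self p (by omega)).trans h1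
  have h3 : Ideal.absNorm (Ideal.span {b}) ≠ 0 := by
    rw [Ne, Ideal.absNorm_eq_zero_iff, Ideal.span_singleton_eq_bot]
    exact hb0
  have h4 := Nat.le_of_dvd (Nat.pos_of_ne_zero h3) h2
  omega

theorem rh_pow_comp {A k : Type} [Field A] [Field k] (ι : A →+* k) (s : k →+* k) (σ : A →+* A)
    (h : s.comp ι = ι.comp σ) (f : ℕ) : (s ^ f).comp ι = ι.comp (σ ^ f) := by
  induction f with
  | zero => rfl
  | succ f ih =>
    apply RingHom.ext
    intro a
    have h1 := fun a => congrArg (fun g : A →+* k => g a) h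
    have h2 := fun a => congrArg (fun g : A →+* k => g a) ih
    rw [pow_succ', pow_succ']
    show s ((s ^ f) (ι a)) = ι (σ ((σ ^ f) a))
    have h3 : (s ^ f) (ι a) = ι ((σ ^ f) a) := h2 a
    rw [h3]
    exact h1 _

theorem rh_fix {k : Type} [Field k] (s : k →+* k) (z : k) (g f : ℕ) (h : (s ^ g) z = z)
    (hd : g ∣ f) : (s ^ f) z = z := by
  obtain ⟨c, rfl⟩ := hd
  rw [pow_mul]
  induction c with
  | zero => rfl
  | succ c ih =>
    rw [pow_succ]
    show ((s ^ g) ^ c) ((s ^ g) z) = z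
    rw [h, ih]

theorem coreK {K : Type} [Field K] [NumberField K] [IsGalois ℚ K] (b : Fin r → 𝓞 K)
    (hb0 : ∀ i, b i ≠ 0) (B D0 d W Q1 : ℕ) (hd : 1 ≤ d) (hW : 1 ≤ W) :
    ∃ (p T : ℕ) (c : ℝ), p.Prime ∧ Q1 ≤ p ∧ 0 < c ∧
      ∀ (m : Fin r → ℕ) [∀ i, NeZero (m i)] (n : ℕ) [NeZero n] (A F : Type) [Field A]
        [NumberField A] [Field F] [NumberField F] [Algebra K A] [Algebra A F]
        [IsCyclotomicExtension {n} K A] (x : Fin r → F)
        (_ : Rad B (fun i => algebraMap (𝓞 K) A (b i)) m F x) [Algebra F ℂ] (α : ℂ),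
        ¬ p ∣ n → IsIntegral ℚ α → α ≠ 0 → (minpoly F α).natDegree = d → absLogHeight₁ α ≤ c →
        ∀ (R : ℕ) (ℓ gap : Fin r → ℕ) (a : Fin (R + 1) → Fin r → ℕ)
          (v : Fin (d + 1) → Fin (R + 1) → MvPolynomial (Fin r) A), R ≤ R0 r d D0 →
        Rep m x (cf F α d) ℓ gap a v → (∀ i, T * ℓ i ≤ m i) →
        (∀ j i, ∃ k : ℤ, |(W : ℤ) * a j i - k * m i| * T ≤ m i) →
        (∀ Q : ℕ, 1 ≤ Q → Q ≤ T → ∀ σ : A →+* A,
          (∏ φ : F →+* ℂ, wt x a (tw σ v) Q φ) * ctv v ^ (2 * ∏ i, m i) ≤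
            ((Cs B r d D0 : ℝ) ^ 2) ^ Module.finrank ℚ F) →
        ∃ (k : ℕ) (s t : Fin r → ℕ), 1 ≤ k ∧
          α ^ k * ∏ i, (algebraMap F ℂ (algebraMap A F (algebraMap (𝓞 K) A (b i)))) ^ s i =
            ∏ i, (algebraMap F ℂ (algebraMap A F (algebraMap (𝓞 K) A (b i)))) ^ t i := by
  classical
  obtain ⟨D, hD1, hfields⟩ := fieldsK W hW b hb0
  have hKpos : 1 ≤ Module.finrank ℚ K := Module.finrank_pos
  obtain ⟨p, hpM, hp⟩ := Nat.exists_infinite_primes (K1 B r d D0 ^ Module.finrank ℚ K +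
    ∑ i, Ideal.absNorm (Ideal.span {b i}) + Q1 + W + 1)
  have hpW : ¬ p ∣ W := fun h => by
    have := Nat.le_of_dvd hW h
    omega
  have hbp : ∀ i, Ideal.absNorm (Ideal.span {b i}) < p := fun i => by
    have h2 : Ideal.absNorm (Ideal.span {b i}) ≤ ∑ i, Ideal.absNorm (Ideal.span {b i}) :=
      Finset.single_le_sum (f := fun i => Ideal.absNorm (Ideal.span {b i}))
        (fun _ _ => Nat.zero_le _) (Finset.mem_univ i)
    omega
  obtain ⟨f, hf, hfe, hQ⟩ := exists_fK p W (Module.finrank ℚ K) (W * Module.finrank ℚ K) hp hW hpW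
    hKpos
  set Q := p ^ f with hQdef
  have hQ1 : 1 ≤ Q := Nat.one_le_pow _ _ hp.pos
  have hQ2 : 2 ≤ Q := by
    calc 2 ≤ p := hp.two_le
      _ = p ^ 1 := (pow_one p).symm
      _ ≤ p ^ f := Nat.pow_le_pow_right hp.pos hf
  refine ⟨p, D * (Q * (d + 1) * (W + 2)) + 2 * Q + 2, Real.log 2 / (Q * d), hp, by omega, ?_, ?_⟩
  · have h1 : (0 : ℝ) < Q := by exact_mod_cast hQ1
    have h2 : (0 : ℝ) < d := by exact_mod_cast hd
    have h3 := Real.log_pos (show (1 : ℝ) < 2 by norm_num)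
    positivity
  intro m _ n _ A F _ _ _ _ _ _ _ x h _ α hqn hα hα0 hdeg hh R ℓ gap a v hR hr hℓ hWa hsize
  obtain ⟨T, hT⟩ : ∃ T, T = D * (Q * (d + 1) * (W + 2)) + 2 * Q + 2 := ⟨_, rfl⟩
  rw [← hT] at hℓ hWa hsize
  have hm : ∀ i, 1 ≤ m i := fun i => Nat.pos_of_ne_zero (NeZero.ne _)
  have hT2 : 2 ≤ T := by omega
  obtain ⟨E, hE⟩ : ∃ E : Fin r → ℕ, ∀ i, E i = m i / T := ⟨_, fun _ => rfl⟩
  have hTE : ∀ i, T * E i ≤ m i := fun i => by
    rw [hE]
    exact Nat.mul_div_le (m i) T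
  have hEm : ∀ i, E i < m i := fun i => by
    rw [hE]
    exact Nat.div_lt_self (hm i) (by omega)
  -- the exponents
  have hkp : ∀ j i, ∃ k p : ℕ, W * a j i + E i = k * m i + p ∧ p ≤ 2 * E i := by
    intro j i
    obtain ⟨k, hk⟩ := hWa j i
    have h1 : |(W : ℤ) * a j i - k * m i| ≤ E i := by
      have h2 : |(W : ℤ) * a j i - k * m i| ≤ (m i : ℤ) / (T : ℤ) :=
        (Int.le_ediv_iff_mul_le (by omega)).2 hk
      rw [hE]
      push_cast
      exact h2
    rw [abs_le] at h1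
    have hEm' := hEm i
    have hk0 : 0 ≤ k := by
      by_contra hneg
      push Not at hneg
      have h3 : k * (m i : ℤ) ≤ -1 * m i := mul_le_mul_of_nonneg_right (by omega) (by omega)
      have h4 : (0 : ℤ) ≤ (W : ℤ) * a j i := by positivity
      omega
    obtain ⟨k', rfl⟩ := Int.eq_ofNat_of_zero_le hk0
    refine ⟨k', (W * a j i + E i) - k' * m i, ?_, ?_⟩
    · have h3 : (k' * m i : ℕ) ≤ W * a j i + E i := by
        have h4 : ((k' * m i : ℕ) : ℤ) ≤ ((W * a j i + E i : ℕ) : ℤ) := by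
          push_cast
          linarith
        exact_mod_cast h4
      omega
    · have h4 : ((W * a j i + E i : ℕ) : ℤ) ≤ ((k' * m i + 2 * E i : ℕ) : ℤ) := by
        push_cast
        linarith
      have h5 : W * a j i + E i ≤ k' * m i + 2 * E i := by exact_mod_cast h4
      omega
  choose e p' hka hpE using hkp
  have hy : ∀ i, ∃ y : ℂ, y ^ W = algebraMap F ℂ (x i) := fun i =>
    IsAlgClosed.exists_pow_nat_eq (algebraMap F ℂ (x i)) (n := W) hW
  choose y hy using hy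
  obtain ⟨bC, hbC⟩ : ∃ bC : Fin r → ℂ,
      ∀ i, bC i = algebraMap F ℂ (algebraMap A F (algebraMap (𝓞 K) A (b i))) := ⟨_, fun _ => rfl⟩
  simp only [← hbC]
  have hyb : ∀ i, y i ^ (W * m i) = bC i := fun i => by
    rw [pow_mul, hy, ← map_pow, h.pow, hbC]
  have hbC0 : ∀ i, bC i ≠ 0 := fun i => by
    rw [hbC, Ne, map_eq_zero, map_eq_zero]
    exact h.ne_zero i
  have hy0 : ∀ i, y i ≠ 0 := by
    intro i h0
    have h1 := hyb i
    rw [h0, zero_pow (Nat.mul_pos hW (hm i)).ne'] at h1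
    exact hbC0 i h1.symm
  have hintF : IsIntegral F α := hα.tower_top
  have hmonic := minpoly.monic hintF
  -- the conjugates
  set rt := ((minpoly F α).aroots ℂ).toFinset with hrt
  have hirr := minpoly.irreducible hintF
  have hsep : (minpoly F α).Separable := hirr.separable
  have hcard : rt.card = d := by
    rw [hrt, Multiset.toFinset_card_of_nodup, ← hdeg]
    · rw [aroots_def, ← natDegree_map (algebraMap F ℂ)]
      exact splits_iff_card_roots.1 (IsAlgClosed.splits _)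
    · rw [aroots_def]
      exact nodup_roots (hsep.map)
  have hmem : ∀ z : ℂ, z ∈ rt ↔ aeval z (minpoly F α) = 0 := by
    intro z
    rw [hrt, Multiset.mem_toFinset, mem_aroots]
    exact and_iff_right hmonic.ne_zero
  set ee : Fin d ≃ rt := (Finset.equivFinOfCardEq hcard).symm with hee
  set G : Fin d → ℂ := fun i => (ee i : ℂ) with hG
  have hGinj : Function.Injective G := fun i j hij => ee.injective (Subtype.ext hij)
  have hGroot : ∀ i, aeval (G i) (minpoly F α) = 0 := fun i => (hmem _).1 (ee i).2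
  have hG0 : ∀ i, G i ≠ 0 := by
    intro i h0
    have h1 := hGroot i
    rw [h0] at h1
    have h2 : (minpoly F α).coeff 0 = 0 := by
      apply (algebraMap F ℂ).injective
      rw [map_zero, ← h1, aeval_def, eval₂_at_zero]
    exact minpoly.coeff_zero_ne_zero hintF hα0 h2
  -- the coefficient field
  obtain ⟨k, ι, β, hkf, hkg, hι, hβe, hβd, hyK⟩ := hfields B m n A F x h y hy
  have hknf : NumberField k := {}
  obtain ⟨𝔮, σ, s₀, hFr, hcomm₀, ⟨n₀, hn₀⟩, -, hfix, hiter⟩ := Pool.Agent.H11.BK.tauH (K := K) ι n p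
    hp hqn
  obtain ⟨h𝔮, hp𝔮, -⟩ := hFr
  set τ : A →+* A := σ ^ f with hτdef
  have hτ : ∀ a : 𝓞 A, ∃ c : 𝓞 A, c ∈ 𝔮.map (algebraMap (𝓞 K) (𝓞 A)) ∧
      τ (a : A) = (a : A) ^ (p ^ f) + (c : A) := fun a => hiter f a
  obtain ⟨τk, hτk⟩ : ∃ τk : k →+* k, τk = s₀ ^ f := ⟨_, rfl⟩
  have hcomm : τk.comp ι = ι.comp τ := by
    rw [hτk, hτdef]
    exact rh_pow_comp ι s₀ σ hcomm₀ f
  have hβτ : ∀ i, τk (β i) = β i := fun i => by
    rw [hτk]
    exact rh_fix s₀ (β i) _ f (hfix _ (β i) (hβd i)) hfe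
  have hτn : τk ^ (n₀ + 1) = 1 := by
    rw [hτk, ← pow_mul, mul_comm, pow_mul, hn₀, one_pow]
  have hb𝔮 : ∀ i, b i ∉ 𝔮 := fun i => notMem_of_lt 𝔮 p hp h𝔮 hp𝔮 (b i) (hb0 i) (hbp i)
  have hQ𝔮 : W * (Ideal.absNorm 𝔮 - 1) ∣ p ^ f - 1 := by
    obtain ⟨g, hg1, hg2, hg⟩ := norm_prime 𝔮 p hp h𝔮 hp𝔮
    rw [hg]
    exact hQ g hg1 hg2
  have hι' : ∀ a, algebraMap k ℂ (ι a) = algebraMap F ℂ (algebraMap A F a) := hι
  have hβe' : (fun i => algebraMap k ℂ (β i)) = fun i => y i ^ m i := funext hβe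
  set V : Fin (d + 1) → MvPolynomial (Fin r) k := fun i => VV ι β W e p' (v i) with hV
  obtain ⟨l, hl⟩ : ∃ l : Fin r → ℕ, ∀ i, l i = 2 * E i + W * ℓ i := ⟨_, fun _ => rfl⟩
  have hVdeg : ∀ i i', (V i).degreeOf i' ≤ l i' := by
    intro i i'
    refine VV_deg ι β W e p' (v i) l i' fun j => ?_
    have h1 := hpE j i'
    have h2 := Nat.mul_le_mul_left W (hr.deg i j i').le
    rw [hl]
    omega
  set Φ : (MvPolynomial (Fin r) k)[X] := ∑ i : Fin (d + 1), C (V i) * X ^ (i : ℕ) with hΦ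
  have hcoeff : ∀ n, Φ.coeff n = if hn : n < d + 1 then V ⟨n, hn⟩ else 0 := by
    intro n
    rw [hΦ, finsetSum_coeff]
    simp only [coeff_C_mul, coeff_X_pow]
    split_ifs with hn
    · rw [Finset.sum_eq_single ⟨n, hn⟩]
      · simp
      · intro j _ hj
        rw [if_neg (fun h => hj (Fin.ext h.symm)), mul_zero]
      · intro h
        exact absurd (Finset.mem_univ _) h
    · refine Finset.sum_eq_zero fun j _ => ?_
      rw [if_neg (by have := j.2; omega), mul_zero]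
  have hΦd : Φ.natDegree ≤ d := by
    rw [natDegree_le_iff_coeff_eq_zero]
    intro n hn
    rw [hcoeff, dif_neg (by omega)]
  have hΦl : ∀ n i, (Φ.coeff n).degreeOf i ≤ l i := by
    intro n i
    rw [hcoeff]
    split_ifs
    · exact hVdeg _ _
    · rw [MvPolynomial.degreeOf_zero]
      exact Nat.zero_le _
  have hΦe : ∀ (θ : MvPolynomial (Fin r) k →+* ℂ) (γ : ℂ), eval₂ θ γ Φ =
      ∑ i : Fin (d + 1), θ (V i) * γ ^ (i : ℕ) := by
    intro θ γ
    rw [hΦ, eval₂_finsetSum]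
    refine Finset.sum_congr rfl fun i _ => ?_
    rw [eval₂_mul, eval₂_C, eval₂_pow, eval₂_X]
  have hyx : (fun i => y i ^ W) = fun i => algebraMap F ℂ (x i) := funext hy
  have hVy : ∀ i, MvPolynomial.aeval y (V i) = mon y E *
      (algebraMap F ℂ (MvPolynomial.aeval x (v (Fin.last d) 0)) * algebraMap F ℂ (cf F α d i)) := by
    intro i
    rw [← rep_baseR (algebraMap F ℂ) y hy (cf F α d) a e p' v hr hka i]
    simp only [hV]
    rw [VV_aeval, hβe', hyx]
    refine Finset.sum_congr rfl fun j _ => ?_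
    rw [aeval_ι ι hι']
  have hlt : ∀ i, D * (Q * (d + 1) * l i) < m i := by
    intro i
    have h1 : T * (D * (Q * (d + 1) * l i)) ≤
        D * (Q * (d + 1) * (W + 2)) * m i := by
      have h2 : T * l i ≤ (W + 2) * m i := by
        rw [hl]
        calc T * (2 * E i + W * ℓ i) = 2 * (T * E i) + W * (T * ℓ i) := by ring
          _ ≤ 2 * m i + W * m i := Nat.add_le_add (Nat.mul_le_mul_left _ (hTE i))
            (Nat.mul_le_mul_left _ (hℓ i))
          _ = (W + 2) * m i := by ring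
      calc T * (D * (Q * (d + 1) * l i)) = D * (Q * (d + 1)) * (T * l i) := by
            ring
        _ ≤ D * (Q * (d + 1)) * ((W + 2) * m i) := Nat.mul_le_mul_left _ h2
        _ = D * (Q * (d + 1) * (W + 2)) * m i := by ring
    have h3 : D * (Q * (d + 1) * (W + 2)) * m i < T * m i := by
      refine Nat.mul_lt_mul_of_pos_right ?_ (hm i)
      omega
    exact Nat.lt_of_mul_lt_mul_left (lt_of_le_of_lt h1 h3)
  have hhq : (p : ℝ) ^ f * d * absLogHeight₁ α ≤ Real.log 2 := by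
    have h1 : (0 : ℝ) < (p : ℝ) ^ f * d := by
      have h2 : (0 : ℝ) < p := by exact_mod_cast hp.pos
      have h3 : (0 : ℝ) < d := by exact_mod_cast hd
      positivity
    have h2 : ((Q : ℕ) : ℝ) = (p : ℝ) ^ f := by
      rw [hQdef]
      push_cast
      rfl
    rw [h2, le_div_iff₀ h1] at hh
    linarith
  have hEb : ∀ i, 2 * p ^ f * E i + E i ≤ W * m i := by
    intro i
    rw [← hQdef]
    calc 2 * Q * E i + E i = (2 * Q + 1) * E i := by ring
      _ ≤ T * E i := Nat.mul_le_mul_right _ (by omega)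
      _ ≤ m i := hTE i
      _ ≤ W * m i := Nat.le_mul_of_pos_left _ hW
  have hg0 : algebraMap F ℂ (MvPolynomial.aeval x (v (Fin.last d) 0)) ≠ 0 := by
    rw [Ne, map_eq_zero]
    intro h0
    have hℓm : ∀ i, ℓ i ≤ m i := fun i => by
      calc ℓ i ≤ T * ℓ i := Nat.le_mul_of_pos_left _ (by omega)
        _ ≤ m i := hℓ i
    exact hr.vl0 (h.aeval_eq_zero _ (fun i => lt_of_lt_of_le (hr.deg _ _ _) (hℓm i)) h0)
  have hlast : cf F α d (Fin.last d) = 1 := by
    rw [cf, Fin.val_last, ← hdeg]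
    exact hmonic
  obtain ⟨i0, hi0⟩ : ∃ i, G i = α := by
    refine ⟨ee.symm ⟨α, (hmem α).2 (minpoly.aeval F α)⟩, ?_⟩
    rw [hG]
    simp
  have hyE : mon y E ≠ 0 := by
    unfold mon
    exact Finset.prod_ne_zero_iff.2 fun i _ => pow_ne_zero _ (hy0 i)
  obtain ⟨n', s, t, hn', hfin⟩ := sevenR τk n₀ hτn Φ d Q l hd hQ2 hΦd hΦl y
    (fun P hP hP0 => hyK P (fun i => lt_of_le_of_lt (Nat.mul_le_mul_left _ (hP i)) (hlt i)) hP0)
    (by
      rw [hcoeff, dif_pos (by omega)]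
      have h2 : (⟨d, by omega⟩ : Fin (d + 1)) = Fin.last d := rfl
      rw [h2, hVy, hlast, map_one, mul_one]
      exact mul_ne_zero hyE hg0)
    G hGinj hG0
    (by
      intro i
      rw [hΦe]
      have h1 : ∀ j : Fin (d + 1), (MvPolynomial.aeval y :
          MvPolynomial (Fin r) k →ₐ[k] ℂ).toRingHom (V j) * G i ^ (j : ℕ) =
          (mon y E * algebraMap F ℂ (MvPolynomial.aeval x (v (Fin.last d) 0))) *
            (algebraMap F ℂ (cf F α d j) * G i ^ (j : ℕ)) := by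
        intro j
        show MvPolynomial.aeval y (V j) * G i ^ (j : ℕ) = _
        rw [hVy]
        ring
      rw [Finset.sum_congr rfl fun j _ => h1 j, ← Finset.mul_sum,
        cf_sumR α (G i) d hdeg (hGroot i), mul_zero])
    (by
      intro i
      rw [hΦe]
      obtain ⟨hint, hht⟩ := Pool.Agent.H69.BD.conj_height (F := F) α (G i) hα (hGroot i)
      have h1 := sixK (D0 := D0) h hW y hy (G i) hint (cf F α d)
        (cf_sumR α (G i) d hdeg (hGroot i)) a e p' v hr hR hka hpE hEb hp 𝔮 h𝔮 hp𝔮 hb𝔮 hQ𝔮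
        (by omega) τ hτ (hsize Q hQ1 (by omega) τ) (by rw [hht]; exact hhq)
      rw [← h1]
      refine Finset.sum_congr rfl fun j _ => ?_
      congr 1
      show MvPolynomial.aeval (fun j => y j ^ Q) (MvPolynomial.map τk (V j)) = _
      simp only [hV]
      rw [VV_map ι β W e p' (v j) τk τ hcomm hβτ, VV_aeval, hβe']
      refine Finset.sum_congr rfl fun j' _ => ?_
      congr 1
      · congr 1
        unfold mon
        refine Finset.prod_congr rfl fun i' _ => ?_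
        rw [hQdef, ← pow_mul]
      · have h2 : (fun i => (y i ^ Q) ^ W) = fun i => algebraMap F ℂ (x i ^ p ^ f) := by
          funext i'
          rw [← pow_mul, mul_comm, pow_mul, hy, map_pow, hQdef]
        rw [h2, aeval_ι ι hι'])
    i0
  rw [hi0] at hfin
  obtain ⟨M, hM⟩ : ∃ M, M = ∏ i, m i := ⟨_, rfl⟩
  have hM0 : 1 ≤ M := by
    rw [hM]
    exact Nat.pos_of_ne_zero (Finset.prod_ne_zero_iff.2 fun i _ => NeZero.ne (m i))
  have hMd : ∀ i, m i ∣ M := fun i => by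
    rw [hM]
    exact Finset.dvd_prod_of_mem _ (Finset.mem_univ i)
  have hyM : ∀ (u : Fin r → ℕ), (∏ j, y j ^ u j) ^ (W * M) =
      ∏ j, bC j ^ (u j * (M / m j)) := by
    intro u
    rw [← Finset.prod_pow]
    refine Finset.prod_congr rfl fun j _ => ?_
    have h1 : W * M = W * m j * (M / m j) := by
      rw [mul_assoc, Nat.mul_div_cancel' (hMd j)]
    rw [← pow_mul, mul_comm (u j), h1, mul_assoc (W * m j), pow_mul, hyb, mul_comm (M / m j)]
  refine ⟨n' * (W * M), fun j => t j * (M / m j), fun j => s j * (M / m j),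
    Nat.mul_pos hn' (Nat.mul_pos hW hM0), ?_⟩
  have h1 : (α ^ n' * ∏ j, y j ^ t j) ^ (W * M) = (∏ j, y j ^ s j) ^ (W * M) := by rw [hfin]
  rw [mul_pow, ← pow_mul, hyM, hyM] at h1
  exact h1

end Pool.Agent.H72.BK
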