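import Pool.Agent.H72.BK.Near
import Pool.Agent.H72.BK.CoreK
import Pool.Agent.H11.BK.Core

/-!
# THEOREM VK (MP_187c26_nt): the core for `r ≥ 1` radicals over a Galois number field `K`

Text: constants `Q1`, `W` from `near`; `p ≥ Q1` prime, `T`, `c` from `coreK`; `N`, `c` from `near` for this `T`, `N ≥ p`. `near` gives
`α ^ n` with a representation with few windows near rational positions, `coreK` (S6 and S7) gives the relation.
-/

set_option autoImplicit false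

open NumberField

namespace Pool.Agent.H72.BK

theorem topK {K : Type} [Field K] [NumberField K] [IsGalois ℚ K] {r : ℕ} (hr1 : 1 ≤ r)
    (b : Fin r → 𝓞 K) (hb : Pool.Agent.H11.BK.Ind K b) (B : ℕ) (hB : 2 ≤ B) (D0 : ℕ)
    (hD0 : 1 ≤ D0) (d : ℕ) (hd : 1 ≤ d) (Q0 : ℕ) :
    Pool.Agent.H11.BK.TopStmt K b B D0 d Q0 := by
  obtain ⟨Q1, W, hQ0, hQd, hW, hnear⟩ := near hr1 b hb.1 hb.2 B hB D0 hD0 d hd Q0
  obtain ⟨q, T, c0, hq, hQ1q, hc0, hcore⟩ := coreK b hb.1 B D0 d W Q1 hd hW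
  obtain ⟨N1, c1, hN1, hc1, hN⟩ := hnear T
  have hN1r : (1 : ℝ) ≤ N1 := by exact_mod_cast hN1
  have hN1p : (0 : ℝ) < N1 := by linarith
  refine ⟨Q1, max N1 q, min c1 (c0 / N1), hQ0, le_max_of_le_left hN1,
    lt_min hc1 (div_pos hc0 hN1p), ?_⟩
  intro m _ n _ A F _ _ _ _ _ _ _ x h _ α _ hα hα0 hm hdeg hh hidx hfr
  obtain ⟨n1, R, ℓ, gap, a, v, hn1, hn1N, hR, hr, hℓ, hWa, hsize⟩ := hN m A F x h ℂ α hα
    (fun i => (le_max_left _ _).trans (hm i))
    (fun j hj hjN => hdeg j hj (hjN.trans (le_max_left _ _))) (hh.trans (min_le_left _ _))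
    (hidx.trans (Real.exp_le_exp.2 (mul_le_mul_of_nonneg_right (min_le_left _ _)
      (Nat.cast_nonneg _))))
    (fun p hp h1 h2 => (hfr p hp h1 (h2.trans (le_max_left _ _))).2)
  have hfq := hfr q hq hQ1q (le_max_right _ _)
  have hh' : absLogHeight₁ (α ^ n1) ≤ c0 := by
    rw [Pool.Agent.H4.RR.absLogHeight_pow ℂ α hα n1]
    have h1 : (n1 : ℝ) ≤ N1 := by exact_mod_cast hn1N
    have h2 : absLogHeight₁ α ≤ c0 / N1 := hh.trans (min_le_right _ _)
    calc (n1 : ℝ) * absLogHeight₁ α ≤ n1 * (c0 / N1) :=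
          mul_le_mul_of_nonneg_left h2 (Nat.cast_nonneg _)
      _ ≤ N1 * (c0 / N1) := mul_le_mul_of_nonneg_right h1 (div_pos hc0 hN1p).le
      _ = c0 := by field_simp
  obtain ⟨k, s, t, hk, hst⟩ := hcore m n A F x h (α ^ n1) hfq.1 (hα.pow _)
    (pow_ne_zero _ hα0) (hdeg n1 hn1 (hn1N.trans (le_max_left _ _))) hh' R ℓ gap a v hR hr
    (fun i => (hℓ i).2) hWa hsize
  exact ⟨n1 * k, s, t, Nat.mul_pos hn1 hk, by rw [pow_mul]; exact hst⟩

end Pool.Agent.H72.BK
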