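import Pool.Agent.H72.BE.Def

/-!
# Uniform relative heights over fields of radicals of elements of a number field (MP_187c26_nt, Theorem VK): definitions

Port of `Pool/Agent/H72/BE` (Theorem VR+) to an arbitrary (Galois) number field `K`. `A` a number field (in the end `A = K(ξ)`), `b i ∈ A` integral
(in the end in `𝓞 K`), all conjugates of the `b i` have absolute values in `[1 / B, B]`. `F = A(x_1, …, x_r)`, `x_i ^ m_i = b_i`, `[F : A] = ∏ m_i`.
NEW: `rho` and the weights `rw` are complex and depend on the embedding `t : A → ℂ`; `D0` bounds the denominators of the coordinates of the integers of `F`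
(up to small index).
-/

set_option autoImplicit false

open MvPolynomial NumberField

namespace Pool.Agent.H72.BK

open Pool.Agent.H72.BE (Gm Box vl bv md mon sm gdt fo fm inw Rep cf ctv)

variable {r : ℕ}

/-- `B ^ (1 / m_i)`. -/
noncomputable abbrev rb (B : ℕ) (m : Fin r → ℕ) (i : Fin r) : ℝ := BE.rho (fun _ => B) m i

/-- The root `t (b_i) ^ (1 / m_i)` at the embedding `t`. -/
noncomputable def rho {A : Type} [Field A] (b : Fin r → A) (m : Fin r → ℕ) (t : A →+* ℂ)
    (i : Fin r) : ℂ := (t (b i)) ^ ((m i : ℂ)⁻¹)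

/-- The weight `∏ i, t (b_i) ^ (a_i / m_i)`. -/
noncomputable def rw {A : Type} [Field A] (b : Fin r → A) (m : Fin r → ℕ) (t : A →+* ℂ)
    (a : Fin r → ℕ) : ℂ := mon (rho b m t) a

/-- `F` is generated over `A` by `x_i` with `x_i ^ m_i = b_i`, of degree `∏ i, m_i`; bounds for the `b_i`. -/
structure Rad (B : ℕ) {A : Type} [Field A] [NumberField A] (b : Fin r → A) (m : Fin r → ℕ)
    (F : Type) [Field F] [NumberField F] [Algebra A F] (x : Fin r → F) : Prop where
  hB : 2 ≤ B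
  int : ∀ i, IsIntegral ℤ (b i)
  up : ∀ (t : A →+* ℂ) i, ‖t (b i)‖ ≤ B
  low : ∀ (t : A →+* ℂ) i, 1 ≤ B * ‖t (b i)‖
  pow : ∀ i, x i ^ m i = algebraMap A F (b i)
  deg : Module.finrank A F = ∏ i, m i
  li : LinearIndependent A (fun l : Gm m => mon x (vl l))

section

variable {B : ℕ} {m : Fin r → ℕ} {A F : Type} [Field A] [NumberField A] {b : Fin r → A}
  [Field F] [NumberField F] [Algebra A F] {x : Fin r → F}

/-- The coordinates with respect to the monomials. -/
theorem Rad.exists_co [∀ i, NeZero (m i)] (h : Rad B b m F x) : ∃ e : F ≃ₗ[A] (Gm m → A),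
    ∀ f : Gm m → A, e.symm f = ∑ l, f l • mon x (vl l) := by
  have hcard : Fintype.card (Gm m) = Module.finrank A F := by
    rw [h.deg, Fintype.card_pi]
    exact Finset.prod_congr rfl fun i _ => ZMod.card _
  have : FiniteDimensional A F := by
    apply Module.finite_of_finrank_pos
    rw [h.deg]
    exact Finset.prod_pos fun i _ => Nat.pos_of_ne_zero (NeZero.ne _)
  let B := basisOfLinearIndependentOfCardEqFinrank h.li hcard
  refine ⟨B.equivFun, fun f => ?_⟩
  rw [Module.Basis.equivFun_symm_apply]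
  refine Finset.sum_congr rfl fun l _ => ?_
  rw [coe_basisOfLinearIndependentOfCardEqFinrank]

/-- The coordinates with respect to the monomials. -/
noncomputable def Rad.co [∀ i, NeZero (m i)] (h : Rad B b m F x) : F ≃ₗ[A] (Gm m → A) :=
  Classical.choose h.exists_co

theorem Rad.co_symm [∀ i, NeZero (m i)] (h : Rad B b m F x) (f : Gm m → A) :
    h.co.symm f = ∑ l, f l • mon x (vl l) :=
  Classical.choose_spec h.exists_co f

/-- The coordinates with respect to the normalised monomials, at the embedding `t`. -/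
noncomputable def Rad.uu [∀ i, NeZero (m i)] (h : Rad B b m F x) (t : A →+* ℂ) (y : F)
    (l : Gm m) : ℂ :=
  t (h.co y l) * rw b m t (vl l)

/-- The elements with integral coordinates. -/
def Rad.zx [∀ i, NeZero (m i)] (h : Rad B b m F x) : AddSubgroup F where
  carrier := {y | ∀ l, IsIntegral ℤ (h.co y l)}
  zero_mem' := fun l => by simp [isIntegral_zero]
  add_mem' := fun {y z} hy hz l => by
    rw [map_add, Pi.add_apply]
    exact (hy l).add (hz l)
  neg_mem' := fun {y} hy l => by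
    rw [map_neg, Pi.neg_apply]
    exact (hy l).neg

/-- The elements whose coordinates have denominator `D0`. -/
def Rad.zd [∀ i, NeZero (m i)] (h : Rad B b m F x) (D0 : ℕ) : AddSubgroup F where
  carrier := {y | ∀ l, IsIntegral ℤ ((D0 : A) * h.co y l)}
  zero_mem' := fun l => by simp [isIntegral_zero]
  add_mem' := fun {y z} hy hz l => by
    rw [map_add, Pi.add_apply, mul_add]
    exact (hy l).add (hz l)
  neg_mem' := fun {y} hy l => by
    rw [map_neg, Pi.neg_apply, mul_neg]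
    exact (hy l).neg

/-- The `y` with integral coordinates such that all `y c_i` have coordinates with denominator `D0`. -/
def Rad.den [∀ i, NeZero (m i)] (h : Rad B b m F x) (D0 : ℕ) {ι : Type} (c : ι → F) :
    AddSubgroup F where
  carrier := {y | y ∈ h.zx ∧ ∀ i, y * c i ∈ h.zd D0}
  zero_mem' := ⟨zero_mem _, fun i => by rw [zero_mul]; exact zero_mem _⟩
  add_mem' := fun {y z} hy hz => ⟨add_mem hy.1 hz.1, fun i => by
    rw [add_mul]; exact add_mem (hy.2 i) (hz.2 i)⟩
  neg_mem' := fun {y} hy => ⟨neg_mem hy.1, fun i => by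
    rw [neg_mul]; exact neg_mem (hy.2 i)⟩

/-- `index (den c) ^ 2 * ∏ N_φ ≤ T`, where `∑ i, |φ (c i)| ^ 2 ≤ D N_φ`, `N_φ ≥ 1`. -/
def Rad.Siz [∀ i, NeZero (m i)] (h : Rad B b m F x) (D0 : ℕ) {ι : Type} [Fintype ι] (c : ι → F)
    (D T : ℝ) : Prop :=
  ∃ N : (F →+* ℂ) → ℝ, (∀ φ, 1 ≤ N φ) ∧ (∀ φ, ∑ i, ‖φ (c i)‖ ^ 2 ≤ D * N φ) ∧
    (h.den D0 c).relIndex h.zx ≠ 0 ∧ ((h.den D0 c).relIndex h.zx : ℝ) ^ 2 * ∏ φ, N φ ≤ T

end

/-! ### Heights of subspaces, weights which depend on the embedding -/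

section

variable {A : Type} [Field A] [NumberField A] {κ Ω : Type} [Fintype κ] [Fintype Ω]
  [DecidableEq κ]

/-- The matrix `Y` at the embedding `t`, with weights. -/
noncomputable def wm (ww : (A →+* ℂ) → Ω → ℂ) (t : A →+* ℂ) (Y : Matrix κ Ω A) :
    Matrix κ Ω ℂ :=
  Matrix.of fun k o => t (Y k o) * ww t o

/-- The square of the height of the row space. -/
noncomputable def Hh (ww : (A →+* ℂ) → Ω → ℂ) (Y : Matrix κ Ω A) : ℝ :=
  (∏ t : A →+* ℂ, gdt (wm ww t Y)) * fm Y ^ 2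

end

/-! ### Windows -/

section

variable {B : ℕ} {m : Fin r → ℕ} [∀ i, NeZero (m i)] {A F : Type} [Field A] [NumberField A]
  {b : Fin r → A} [Field F] [NumberField F] [Algebra A F] {x : Fin r → F}

/-- For some `g ≠ 0` in the window `[0, ℓ)` all `g c_i` are in the windows `[a_j, a_j + ℓ)`. -/
def WinAt (h : Rad B b m F x) {d R : ℕ} (c : Fin (d + 1) → F) (a : Fin (R + 1) → Fin r → ℕ)
    (ℓ : Fin r → ℕ) : Prop :=
  ∃ g : F, g ≠ 0 ∧ (∀ l, h.co g l ≠ 0 → inw 0 ℓ l) ∧
    ∀ i l, h.co (g * c i) l ≠ 0 → ∃ j, inw (a j) ℓ l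

/-- `R + 1` windows of size `ℓ` are sufficient. -/
def Win (h : Rad B b m F x) {d : ℕ} (c : Fin (d + 1) → F) (ℓ : Fin r → ℕ) (R : ℕ) : Prop :=
  ∃ a : Fin (R + 1) → Fin r → ℕ, a 0 = 0 ∧ WinAt h c a ℓ

end

/-- The size of a representation at the embedding `φ`, after `x ↦ x ^ Q`. -/
noncomputable def wt {A F : Type} [Field A] [Field F] [Algebra A F] (x : Fin r → F)
    {d R : ℕ} (a : Fin (R + 1) → Fin r → ℕ)
    (v : Fin (d + 1) → Fin (R + 1) → MvPolynomial (Fin r) A) (Q : ℕ) (φ : F →+* ℂ) : ℝ :=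
  ∑ i, ∑ j, ‖φ (mon x (a j) * aeval (fun k => x k ^ Q) (v i j))‖ ^ 2

/-! ### Constants -/

/-- The constant of the window lemma. -/
def Dd (d D0 : ℕ) : ℕ := 2 * (4 ^ d * D0 ^ 2)

/-- The ratio of the multiplier box and the windows. -/
def Lc (r d D0 : ℕ) : ℕ := 24 * r * Dd d D0 ^ 3 + 1

/-- The bound for the number of windows. -/
def R0 (r d D0 : ℕ) : ℕ := 2 * Dd d D0 ^ 3 * Lc r d D0 ^ r

/-- The square root of the constant of the size lemma. -/
def Cs (B r d D0 : ℕ) : ℕ := 2 * (Dd d D0 * (B ^ r) ^ 3) ^ (2 ^ r)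

/-- The constant of the Frobenius step. -/
def K1 (B r d D0 : ℕ) : ℕ := 2 * (B ^ r) ^ 2 * (d + 1) * (R0 r d D0 + 1) * Cs B r d D0

/-! ### Frobenius -/

/-- `σ` is a Frobenius automorphism of `A` at the prime `𝔮` of `K` (over the prime number `p`). -/
def FrobK (K A : Type) [Field K] [NumberField K] [Field A] [NumberField A] [Algebra K A]
    (𝔮 : Ideal (𝓞 K)) (p : ℕ) (σ : A →+* A) : Prop :=
  𝔮.IsPrime ∧ (p : 𝓞 K) ∈ 𝔮 ∧ ∀ a : 𝓞 A, ∃ c : 𝓞 A,
    c ∈ 𝔮.map (algebraMap (𝓞 K) (𝓞 A)) ∧ σ (a : A) = (a : A) ^ p + (c : A)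

end Pool.Agent.H72.BK
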