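import Pool.Agent.H72.BK.Def
import Pool.Agent.H72.BE.Co

/-!
# Coordinates (MP_187c26_nt, Theorem VK)

Port of `Pool/Agent/H72/BE/Co.lean`. `bet b m a = ∏ i, b_i ^ (a_i / m_i)` is now an element of the ring of the `b_i`; `rho`, `rw` depend on `t`.
NEW: bounds of `‖rho‖`, `‖rw‖` by `rb B m` from both sides, `one_le_prod_rw` (norms of integers), `rho_comp` (`rho` only depends on `t (b i)`).
-/

set_option autoImplicit false

open MvPolynomial NumberField

namespace Pool.Agent.H72.BK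

open Pool.Agent.H72.BE (Gm Box vl bv md mon sm gdt fo fm inw Rep cf ctv mon_add mon_zero md_add
  md_vl)

variable {r : ℕ} {m : Fin r → ℕ}

/-- The factor of the reduction of `mon x a` modulo `x_i ^ m_i = b_i`. -/
def bet {M : Type} [CommMonoid M] (b : Fin r → M) (m a : Fin r → ℕ) : M := ∏ i, b i ^ (a i / m i)

theorem bet_map {M N : Type} [CommMonoid M] [CommMonoid N] (f : M →* N) (b : Fin r → M)
    (a : Fin r → ℕ) : f (bet b m a) = bet (fun i => f (b i)) m a := by
  simp [bet, map_prod]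

section rb

variable {B : ℕ}

theorem rb_pos (hB : 2 ≤ B) (i : Fin r) : 0 < rb B m i := BE.rho_pos (fun _ => hB) i

theorem one_le_rb (hB : 2 ≤ B) (i : Fin r) : 1 ≤ rb B m i := BE.one_le_rho (fun _ => hB) i

theorem rb_pow (i : Fin r) (hm : m i ≠ 0) : rb B m i ^ m i = B := BE.rho_pow i hm

/-- `∏ rb_i ^ a_i ≤ B ^ r` if `a ≤ m`. -/
theorem mon_rb_le (hB : 2 ≤ B) (a : Fin r → ℕ) (ha : ∀ i, a i ≤ m i) :
    ∏ i, rb B m i ^ a i ≤ (B : ℝ) ^ r := by
  have h1 := BE.rw_le (b := fun _ : Fin r => B) (m := m) (fun _ => hB) a ha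
  unfold BE.rw BE.Bb mon at h1
  simpa using h1

end rb

private theorem mon_reduce_aux {K : Type} [CommMonoid K] (b y : Fin r → K)
    (hy : ∀ i, y i ^ m i = b i) (a : Fin r → ℕ) :
    mon y a = bet b m a * mon y (vl (md m a)) := by
  unfold mon bet
  rw [← Finset.prod_mul_distrib]
  refine Finset.prod_congr rfl fun i _ => ?_
  have h1 : vl (md m a) i = a i % m i := ZMod.val_natCast _ _
  rw [h1, ← hy i, ← pow_mul, ← pow_add, Nat.div_add_mod]

section rho

variable {A : Type} [Field A] {b : Fin r → A}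

theorem rho_pow (t : A →+* ℂ) (i : Fin r) (hm : m i ≠ 0) : rho b m t i ^ m i = t (b i) := by
  unfold rho
  exact Complex.cpow_nat_inv_pow _ hm

theorem rw_add (t : A →+* ℂ) (a c : Fin r → ℕ) : rw b m t (a + c) = rw b m t a * rw b m t c :=
  mon_add _ _ _

theorem rw_reduce [∀ i, NeZero (m i)] (t : A →+* ℂ) (a : Fin r → ℕ) :
    rw b m t a = t (bet b m a) * rw b m t (vl (md m a)) := by
  have h1 := mon_reduce_aux (m := m) (fun i => t (b i)) (rho b m t)
    (fun i => rho_pow t i (NeZero.ne _)) a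
  have h2 : t (bet b m a) = bet (fun i => t (b i)) m a := bet_map (t : A →* ℂ) b a
  rw [h2]
  exact h1

/-- `rho` depends only on the value of `t` at `b i`. -/
theorem rho_congr {A' : Type} [Field A'] {b' : Fin r → A'} (t : A →+* ℂ) (t' : A' →+* ℂ)
    (h : ∀ i, t (b i) = t' (b' i)) : rho b m t = rho b' m t' := by
  funext i
  unfold rho
  rw [h i]

end rho

variable [∀ i, NeZero (m i)] {B : ℕ} {A F : Type} [Field A] [NumberField A] {b : Fin r → A}
  [Field F] [NumberField F] [Algebra A F] {x : Fin r → F}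

theorem Rad.ne_zero (h : Rad B b m F x) (i : Fin r) : b i ≠ 0 := by
  intro h0
  obtain ⟨t⟩ : Nonempty (A →+* ℂ) := inferInstance
  have h1 := h.low t i
  rw [h0, map_zero, norm_zero, mul_zero] at h1
  linarith

theorem Rad.bet_ne_zero (h : Rad B b m F x) (a : Fin r → ℕ) : bet b m a ≠ 0 :=
  Finset.prod_ne_zero_iff.2 fun i _ => pow_ne_zero _ (h.ne_zero i)

theorem Rad.bet_int (h : Rad B b m F x) (a : Fin r → ℕ) : IsIntegral ℤ (bet b m a) :=
  IsIntegral.prod _ fun i _ => (h.int i).pow _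

theorem Rad.rho_ne_zero (h : Rad B b m F x) (t : A →+* ℂ) (i : Fin r) : rho b m t i ≠ 0 := by
  intro h0
  have h1 := rho_pow (b := b) t i (NeZero.ne (m i))
  rw [h0, zero_pow (NeZero.ne _)] at h1
  exact h.ne_zero i ((map_eq_zero t).1 h1.symm)

theorem Rad.rw_ne_zero (h : Rad B b m F x) (t : A →+* ℂ) (a : Fin r → ℕ) :
    rw b m t a ≠ 0 := by
  unfold rw mon
  exact Finset.prod_ne_zero_iff.2 fun i _ => pow_ne_zero _ (h.rho_ne_zero t i)

theorem Rad.norm_rho_le (h : Rad B b m F x) (t : A →+* ℂ) (i : Fin r) :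
    ‖rho b m t i‖ ≤ rb B m i := by
  refine (pow_le_pow_iff_left₀ (norm_nonneg _) (rb_pos h.hB i).le (NeZero.ne (m i))).1 ?_
  rw [rb_pow i (NeZero.ne _), ← norm_pow, rho_pow t i (NeZero.ne _)]
  exact h.up t i

theorem Rad.one_le_rho (h : Rad B b m F x) (t : A →+* ℂ) (i : Fin r) :
    1 ≤ rb B m i * ‖rho b m t i‖ := by
  refine (pow_le_pow_iff_left₀ zero_le_one (mul_nonneg (rb_pos h.hB i).le (norm_nonneg _))
    (NeZero.ne (m i))).1 ?_
  rw [one_pow, mul_pow, rb_pow i (NeZero.ne _), ← norm_pow, rho_pow t i (NeZero.ne _)]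
  exact h.low t i

theorem Rad.norm_rw_le (h : Rad B b m F x) (t : A →+* ℂ) (a : Fin r → ℕ) :
    ‖rw b m t a‖ ≤ ∏ i, rb B m i ^ a i := by
  unfold rw mon
  rw [norm_prod]
  refine Finset.prod_le_prod (fun i _ => norm_nonneg _) fun i _ => ?_
  rw [norm_pow]
  exact pow_le_pow_left₀ (norm_nonneg _) (h.norm_rho_le t i) _

theorem Rad.one_le_rw (h : Rad B b m F x) (t : A →+* ℂ) (a : Fin r → ℕ) :
    1 ≤ (∏ i, rb B m i ^ a i) * ‖rw b m t a‖ := by
  unfold rw mon
  rw [norm_prod, ← Finset.prod_mul_distrib]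
  refine Finset.prod_induction _ (fun z : ℝ => 1 ≤ z)
    (fun _ _ h1 h2 => one_le_mul_of_one_le_of_one_le h1 h2) le_rfl (fun i _ => ?_)
  rw [norm_pow, ← mul_pow]
  exact one_le_pow₀ (h.one_le_rho t i)

theorem Rad.norm_rw_le' (h : Rad B b m F x) (t : A →+* ℂ) (a : Fin r → ℕ) (ha : ∀ i, a i ≤ m i) :
    ‖rw b m t a‖ ≤ (B : ℝ) ^ r :=
  (h.norm_rw_le t a).trans (mon_rb_le h.hB a ha)

theorem Rad.one_le_rw' (h : Rad B b m F x) (t : A →+* ℂ) (a : Fin r → ℕ) (ha : ∀ i, a i ≤ m i) :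
    1 ≤ (B : ℝ) ^ r * ‖rw b m t a‖ :=
  (h.one_le_rw t a).trans (mul_le_mul_of_nonneg_right (mon_rb_le h.hB a ha) (norm_nonneg _))

/-- The product over all embeddings is the norm of an integer. -/
theorem Rad.one_le_prod_rho (h : Rad B b m F x) (i : Fin r) :
    1 ≤ ∏ t : A →+* ℂ, ‖rho b m t i‖ := by
  refine (pow_le_pow_iff_left₀ zero_le_one (Finset.prod_nonneg fun t _ => norm_nonneg _)
    (NeZero.ne (m i))).1 ?_
  rw [one_pow, ← Finset.prod_pow]
  have h1 : ∏ t : A →+* ℂ, ‖rho b m t i‖ ^ m i = ‖∏ t : A →+* ℂ, t (b i)‖ := by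
    rw [norm_prod]
    refine Finset.prod_congr rfl fun t _ => ?_
    rw [← norm_pow, rho_pow t i (NeZero.ne _)]
  have h2 : ∏ t : A →+* ℂ, t (b i) = algebraMap ℚ ℂ (Algebra.norm ℚ (b i)) := by
    rw [Algebra.norm_eq_prod_embeddings ℚ ℂ (b i)]
    exact Fintype.prod_equiv (RingHom.equivRatAlgHom (R := A) (S := ℂ)) _ _ fun t => rfl
  have h3 : IsIntegral ℤ (Algebra.norm ℚ (b i)) := Algebra.isIntegral_norm ℚ (h.int i)
  obtain ⟨z, hz⟩ := IsIntegrallyClosed.isIntegral_iff.1 h3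
  have h4 : Algebra.norm ℚ (b i) ≠ 0 := Algebra.norm_ne_zero_iff.2 (h.ne_zero i)
  have h5 : z ≠ 0 := by
    intro h0
    rw [h0, map_zero] at hz
    exact h4 hz.symm
  rw [h1, h2, ← hz]
  have h6 : (1 : ℝ) ≤ |(z : ℝ)| := by exact_mod_cast Int.one_le_abs h5
  simpa using h6

theorem Rad.one_le_prod_rw (h : Rad B b m F x) (a : Fin r → ℕ) :
    1 ≤ ∏ t : A →+* ℂ, ‖rw b m t a‖ := by
  have h1 : ∏ t : A →+* ℂ, ‖rw b m t a‖ = ∏ i, (∏ t : A →+* ℂ, ‖rho b m t i‖) ^ a i := by
    simp_rw [← Finset.prod_pow]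
    rw [Finset.prod_comm]
    refine Finset.prod_congr rfl fun t _ => ?_
    unfold rw mon
    rw [norm_prod]
    exact Finset.prod_congr rfl fun i _ => norm_pow _ _
  rw [h1]
  exact Finset.prod_induction _ (fun z : ℝ => 1 ≤ z)
    (fun _ _ h1 h2 => one_le_mul_of_one_le_of_one_le h1 h2) le_rfl
    (fun i _ => one_le_pow₀ (h.one_le_prod_rho i))

theorem Rad.one_le (_h : Rad B b m F x) (i : Fin r) : 1 ≤ m i :=
  Nat.pos_of_ne_zero (NeZero.ne _)

theorem Rad.mon_reduce (h : Rad B b m F x) (a : Fin r → ℕ) :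
    mon x a = algebraMap A F (bet b m a) * mon x (vl (md m a)) := by
  have h1 : algebraMap A F (bet b m a) = bet (fun i => algebraMap A F (b i)) m a :=
    bet_map (algebraMap A F : A →* F) b a
  rw [h1]
  exact mon_reduce_aux _ _ h.pow a

theorem Rad.co_mon_mul (h : Rad B b m F x) (y : F) (a : Fin r → ℕ) (l : Gm m) :
    h.co (mon x a * y) l = bet b m (a + vl (l - md m a)) * h.co y (l - md m a) := by
  have key : mon x a * y = h.co.symm
      (fun l => bet b m (a + vl (l - md m a)) * h.co y (l - md m a)) := by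
    conv_lhs => rw [← h.co.symm_apply_apply y, h.co_symm, Finset.mul_sum]
    rw [h.co_symm, ← Equiv.sum_comp (Equiv.addRight (md m a)) (fun l : Gm m =>
      (bet b m (a + vl (l - md m a)) * h.co y (l - md m a)) • mon x (vl l))]
    refine Finset.sum_congr rfl fun l' _ => ?_
    show mon x a * (h.co y l' • mon x (vl l')) =
      (bet b m (a + vl (l' + md m a - md m a)) * h.co y (l' + md m a - md m a)) •
        mon x (vl (l' + md m a))
    rw [add_sub_cancel_right, mul_smul_comm, ← mon_add, h.mon_reduce (a + vl l'), md_add, md_vl,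
      add_comm (md m a) l', Algebra.smul_def, Algebra.smul_def, map_mul]
    ring
  rw [key, h.co.apply_symm_apply]

theorem Rad.co_mon_mul_ne_zero (h : Rad B b m F x) (y : F) (a : Fin r → ℕ) (l : Gm m) :
    h.co (mon x a * y) l ≠ 0 ↔ h.co y (l - md m a) ≠ 0 := by
  rw [h.co_mon_mul, mul_ne_zero_iff_left]
  exact h.bet_ne_zero _

theorem Rad.uu_mon_mul (h : Rad B b m F x) (t : A →+* ℂ) (y : F) (a : Fin r → ℕ) (l : Gm m) :
    h.uu t (mon x a * y) l = rw b m t a * h.uu t y (l - md m a) := by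
  unfold Rad.uu
  have h1 := rw_reduce (b := b) (m := m) t (a + vl (l - md m a))
  rw [rw_add, md_add, md_vl, add_sub_cancel] at h1
  rw [h.co_mon_mul, map_mul]
  linear_combination (-(t (h.co y (l - md m a)))) * h1

theorem Rad.co_smul_mon (h : Rad B b m F x) (c : A) (a : Fin r → ℕ) (l : Gm m) :
    h.co (algebraMap A F c * mon x a) l = if l = md m a then c * bet b m a else 0 := by
  have key : algebraMap A F c * mon x a =
      h.co.symm (fun l => if l = md m a then c * bet b m a else 0) := by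
    rw [h.co_symm, Finset.sum_eq_single (md m a)]
    · rw [if_pos rfl, h.mon_reduce a, Algebra.smul_def, map_mul]
      ring
    · intro l' _ hl'
      rw [if_neg hl', zero_smul]
    · intro h1
      exact absurd (Finset.mem_univ _) h1
  rw [key, h.co.apply_symm_apply]

theorem Rad.one_mem (h : Rad B b m F x) : (1 : F) ∈ h.zx := by
  intro l
  have h1 := h.co_smul_mon 1 0 l
  rw [map_one, one_mul, mon_zero] at h1
  rw [h1]
  split_ifs
  · rw [one_mul]
    exact h.bet_int _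
  · exact isIntegral_zero

theorem Rad.mon_mul_mem (h : Rad B b m F x) (a : Fin r → ℕ) (y : F) (hy : y ∈ h.zx) :
    mon x a * y ∈ h.zx := by
  intro l
  rw [h.co_mon_mul]
  exact (h.bet_int _).mul (hy _)

theorem Rad.mon_mul_zd (h : Rad B b m F x) (D0 : ℕ) (a : Fin r → ℕ) (y : F) (hy : y ∈ h.zd D0) :
    mon x a * y ∈ h.zd D0 := by
  intro l
  rw [h.co_mon_mul, mul_left_comm]
  exact (h.bet_int _).mul (hy _)

theorem Rad.smul_mem (h : Rad B b m F x) (c : A) (hc : IsIntegral ℤ c) (y : F)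
    (hy : y ∈ h.zx) : algebraMap A F c * y ∈ h.zx := by
  intro l
  rw [← Algebra.smul_def, map_smul, Pi.smul_apply, smul_eq_mul]
  exact hc.mul (hy l)

theorem Rad.smul_zd (h : Rad B b m F x) (D0 : ℕ) (c : A) (hc : IsIntegral ℤ c) (y : F)
    (hy : y ∈ h.zd D0) : algebraMap A F c * y ∈ h.zd D0 := by
  intro l
  rw [← Algebra.smul_def, map_smul, Pi.smul_apply, smul_eq_mul, mul_left_comm]
  exact hc.mul (hy l)

theorem Rad.mul_mem (h : Rad B b m F x) (y z : F) (hy : y ∈ h.zx) (hz : z ∈ h.zx) :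
    y * z ∈ h.zx := by
  have h1 : y = ∑ l, h.co y l • mon x (vl l) := by
    conv_lhs => rw [← h.co.symm_apply_apply y, h.co_symm]
  rw [h1, Finset.sum_mul]
  refine sum_mem fun l _ => ?_
  rw [Algebra.smul_def, mul_assoc]
  exact h.smul_mem _ (hy l) _ (h.mon_mul_mem _ _ hz)

theorem Rad.mul_zd (h : Rad B b m F x) (D0 : ℕ) (y z : F) (hy : y ∈ h.zx) (hz : z ∈ h.zd D0) :
    y * z ∈ h.zd D0 := by
  have h1 : y = ∑ l, h.co y l • mon x (vl l) := by
    conv_lhs => rw [← h.co.symm_apply_apply y, h.co_symm]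
  rw [h1, Finset.sum_mul]
  refine sum_mem fun l _ => ?_
  rw [Algebra.smul_def, mul_assoc]
  exact h.smul_zd D0 _ (hy l) _ (h.mon_mul_zd D0 _ _ hz)

theorem Rad.zx_le_zd (h : Rad B b m F x) (D0 : ℕ) : h.zx ≤ h.zd D0 := fun _ hy l =>
  (isIntegral_natCast _).mul (hy l)

theorem Rad.isIntegral (h : Rad B b m F x) (y : F) (hy : y ∈ h.zx) : IsIntegral ℤ y := by
  have h1 : y = ∑ l, h.co y l • mon x (vl l) := by
    conv_lhs => rw [← h.co.symm_apply_apply y, h.co_symm]
  rw [h1]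
  refine IsIntegral.sum _ fun l _ => ?_
  rw [Algebra.smul_def]
  refine IsIntegral.mul ((hy l).map (algebraMap A F).toIntAlgHom) ?_
  unfold mon
  refine IsIntegral.prod _ fun i _ => ?_
  refine IsIntegral.pow ?_ _
  refine IsIntegral.of_pow (Nat.pos_of_ne_zero (NeZero.ne (m i))) ?_
  rw [h.pow]
  exact (h.int i).map (algebraMap A F).toIntAlgHom

/-- Some positive integer multiple of `y` has integral coordinates. -/
theorem Rad.exists_int (h : Rad B b m F x) {ι : Type} [Fintype ι] (y : ι → F) :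
    ∃ D : ℕ, 0 < D ∧ ∀ i, (D : F) * y i ∈ h.zx := by
  classical
  obtain ⟨z, hz0, hz⟩ := exists_integral_multiples ℤ ℚ (L := A)
    (Finset.univ.image (fun p : ι × Gm m => h.co (y p.1) p.2))
  refine ⟨z.natAbs, Int.natAbs_pos.2 hz0, fun i l => ?_⟩
  have h1 := hz _ (Finset.mem_image_of_mem (fun p : ι × Gm m => h.co (y p.1) p.2)
    (Finset.mem_univ (i, l)))
  have h2 : h.co ((z.natAbs : F) * y i) l = (z.natAbs : A) * h.co (y i) l := by
    rw [← map_natCast (algebraMap A F), ← Algebra.smul_def, map_smul, Pi.smul_apply, smul_eq_mul]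
  rw [h2]
  rw [Algebra.smul_def, algebraMap_int_eq, eq_intCast] at h1
  rcases Int.natAbs_eq z with h3 | h3
  · rw [h3] at h1
    simpa using h1
  · rw [h3] at h1
    have h4 := h1.neg
    simpa using h4

end Pool.Agent.H72.BK
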