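import Pool.Agent.H72.BE.CB

/-!
# Gram determinants with complex weights (MP_187c26_nt, Theorem VK, toolkit)
-/

set_option autoImplicit false

namespace Pool.Agent.H72.BK

open Pool.Agent.H72.BE (gdt gdt_cb)

variable {κ Ω : Type} [Fintype κ] [DecidableEq κ] [Fintype Ω]

private theorem fac_pos : (0 : ℝ) < ((Fintype.card κ).factorial : ℝ) :=
  Nat.cast_pos.2 (Nat.factorial_pos _)

private theorem det_wt (M : Matrix κ Ω ℂ) (w : Ω → ℂ) (J : κ → Ω) :
    ((Matrix.of fun k o => M k o * w o).submatrix id J).det =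
      (∏ k, w (J k)) * (M.submatrix id J).det := by
  have h := Matrix.det_mul_row (fun k => w (J k)) (M.submatrix id J)
  rw [← h]
  congr 1
  ext i k
  exact mul_comm _ _

theorem gdt_weight (M : Matrix κ Ω ℂ) (w w' : Ω → ℂ) (P : ℝ) (h : ∀ o, ‖w o‖ ≤ P * ‖w' o‖) :
    gdt (Matrix.of fun k o => M k o * w o) ≤
      P ^ (2 * Fintype.card κ) * gdt (Matrix.of fun k o => M k o * w' o) := by
  have hf := fac_pos (κ := κ)
  refine le_of_mul_le_mul_left ?_ hf
  rw [mul_left_comm, gdt_cb, gdt_cb, Finset.mul_sum]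
  refine Finset.sum_le_sum fun J _ => ?_
  rw [det_wt, det_wt, norm_mul, norm_mul, mul_pow, mul_pow, ← mul_assoc]
  refine mul_le_mul_of_nonneg_right ?_ (by positivity)
  rw [norm_prod, norm_prod, mul_comm 2, pow_mul, ← mul_pow]
  refine pow_le_pow_left₀ (Finset.prod_nonneg fun k _ => norm_nonneg _) ?_ 2
  calc ∏ k, ‖w (J k)‖ ≤ ∏ k, (P * ‖w' (J k)‖) :=
        Finset.prod_le_prod (fun k _ => norm_nonneg _) fun k _ => h _
    _ = P ^ Fintype.card κ * ∏ k, ‖w' (J k)‖ := by
      rw [Finset.prod_mul_distrib, Finset.prod_const, Finset.card_univ]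

theorem gdt_row (M : Matrix κ Ω ℂ) (s : κ → ℂ) :
    gdt (Matrix.of fun k o => s k * M k o) = ‖∏ k, s k‖ ^ 2 * gdt M := by
  have hf := fac_pos (κ := κ)
  refine mul_left_cancel₀ hf.ne' ?_
  rw [mul_left_comm, gdt_cb, gdt_cb, Finset.mul_sum]
  refine Finset.sum_congr rfl fun J _ => ?_
  have h := Matrix.det_mul_column (fun k => s k) (M.submatrix id J)
  have h1 : ((Matrix.of fun k o => s k * M k o).submatrix id J).det =
      (∏ k, s k) * (M.submatrix id J).det := by
    rw [← h]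
    rfl
  rw [h1, norm_mul, mul_pow]

end Pool.Agent.H72.BK
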