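import Pool.Agent.H72.BK.Cla
import Pool.Agent.H69.BE.ClP

/-!
# THEOREM VK (MP_187c26_nt): Frobenius at a prime ideal and product formula for representations

`clPK`: the lemma `clK` for `u_i = ∑ Y_j v_ij(z)`, `u'_i = ∑ Y'_j v_ij^τ(z^Q)`.
-/

set_option autoImplicit false

open NumberField

namespace Pool.Agent.H72.BK

open Pool.Agent.H72.BE (Box bv mon ctv)
open Pool.Agent.H69.BE

variable {r : ℕ}

theorem clPK {K A F Ω : Type} [Field K] [NumberField K] [Field A] [NumberField A] [Field F]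
    [NumberField F] [Algebra K A] [Algebra A F] [Field Ω] [CharZero Ω] [Algebra F Ω] (α : Ω)
    (hα : IsIntegral ℚ α) (d R p f : ℕ) (𝔮 : Ideal (𝓞 K)) (hp : p.Prime) (h𝔮 : 𝔮.IsPrime)
    (hp𝔮 : (p : 𝓞 K) ∈ 𝔮) (τ : A →+* A)
    (hτ : ∀ a : 𝓞 A, ∃ c : 𝓞 A, c ∈ 𝔮.map (algebraMap (𝓞 K) (𝓞 A)) ∧
      τ (a : A) = (a : A) ^ (p ^ f) + (c : A))
    (v : Fin (d + 1) → Fin (R + 1) → MvPolynomial (Fin r) A) (z : Fin r → 𝓞 F)
    (Y Y' : Fin (R + 1) → 𝓞 F)
    (hY : ∀ j, ∃ c : 𝓞 F, c ∈ (𝔮.map (algebraMap (𝓞 K) (𝓞 A))).map (algebraMap (𝓞 A) (𝓞 F)) ∧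
      Y' j = Y j ^ (p ^ f) + c)
    (h0 : ∑ i : Fin (d + 1), algebraMap F Ω (∑ j, (Y j : F) *
      MvPolynomial.aeval (fun k => (z k : F)) (v i j)) * α ^ (i : ℕ) = 0)
    (hne : ∑ i : Fin (d + 1), algebraMap F Ω (∑ j, (Y' j : F) *
      MvPolynomial.aeval (fun k => (z k : F) ^ (p ^ f)) (MvPolynomial.map τ (v i j))) *
      α ^ (p ^ f * (i : ℕ)) ≠ 0) :
    (Ideal.absNorm 𝔮 : ℝ) ^ (Module.finrank K A * Module.finrank A F) ≤
      Real.exp (Module.finrank ℚ F * (p : ℝ) ^ f * d * absLogHeight₁ α) *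
        (∏ φ : F →+* ℂ, ∑ i : Fin (d + 1), ‖φ (∑ j, (Y' j : F) *
          MvPolynomial.aeval (fun k => (z k : F) ^ (p ^ f)) (MvPolynomial.map τ (v i j)))‖) *
        ctv v ^ Module.finrank A F := by
  classical
  obtain ⟨n, hn⟩ : ∃ n : Fin r → ℕ, ∀ i j k, (v i j).degreeOf k < n k := by
    refine ⟨fun k => (Finset.univ.sup fun p : Fin (d + 1) × Fin (R + 1) =>
      (v p.1 p.2).degreeOf k) + 1, fun i j k => Nat.lt_succ_of_le ?_⟩
    exact Finset.le_sup (f := fun p : Fin (d + 1) × Fin (R + 1) => (v p.1 p.2).degreeOf k)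
      (Finset.mem_univ (i, j))
  have hn' : ∀ i j k, (MvPolynomial.map τ (v i j)).degreeOf k < n k := fun i j k =>
    lt_of_le_of_lt (by
      rw [MvPolynomial.degreeOf_le_iff]
      intro m hm
      exact MvPolynomial.le_degreeOf_of_mem_support k (MvPolynomial.support_map_subset _ _ hm))
      (hn i j k)
  set V : Fin (d + 1) × (Fin (R + 1) × Box n) → A := fun p => (v p.1 p.2.1).coeff (fs p.2.2) with hV
  set X : Fin (R + 1) × Box n → 𝓞 F := fun p => Y p.1 * mon z (bv p.2) with hX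
  set X' : Fin (R + 1) × Box n → 𝓞 F := fun q => Y' q.1 * mon z (bv q.2) ^ (p ^ f) with hX'
  have hmonF : ∀ e : Box n, ((mon z (bv e) : 𝓞 F) : F) = mon (fun k => (z k : F)) (bv e) := fun e =>
    mon_map (algebraMap (𝓞 F) F) z (bv e)
  have hu : ∀ i, ∑ k, algebraMap A F (V (i, k)) * (X k : F) =
      ∑ j, (Y j : F) * MvPolynomial.aeval (fun k => (z k : F)) (v i j) := by
    intro i
    rw [Fintype.sum_prod_type]
    refine Finset.sum_congr rfl fun j _ => ?_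
    rw [aeval_box (v i j) n (hn i j), Finset.mul_sum]
    refine Finset.sum_congr rfl fun e _ => ?_
    simp only [hV, hX]
    have h1 : ((Y j * mon z (bv e) : 𝓞 F) : F) = (Y j : F) * ((mon z (bv e) : 𝓞 F) : F) :=
      map_mul (algebraMap (𝓞 F) F) _ _
    rw [h1, hmonF]
    ring
  have hu' : ∀ i, ∑ k, algebraMap A F (τ (V (i, k))) * (X' k : F) =
      ∑ j, (Y' j : F) * MvPolynomial.aeval (fun k => (z k : F) ^ (p ^ f))
        (MvPolynomial.map τ (v i j)) := by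
    intro i
    rw [Fintype.sum_prod_type]
    refine Finset.sum_congr rfl fun j _ => ?_
    rw [aeval_box (MvPolynomial.map τ (v i j)) n (hn' i j), Finset.mul_sum]
    refine Finset.sum_congr rfl fun e _ => ?_
    simp only [hV, hX', MvPolynomial.coeff_map]
    have h1 : ((Y' j * mon z (bv e) ^ (p ^ f) : 𝓞 F) : F) =
        (Y' j : F) * ((mon z (bv e) : 𝓞 F) : F) ^ (p ^ f) := by
      have h2 := map_mul (algebraMap (𝓞 F) F) (Y' j) (mon z (bv e) ^ (p ^ f))
      rw [map_pow] at h2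
      exact h2
    rw [h1, hmonF, mon_pow]
    ring
  have h := clK (K := K) (F := F) (Ω := Ω) α hα d p f 𝔮 hp h𝔮 hp𝔮 τ hτ V X X' 1 (by
      rintro ⟨j, e⟩
      obtain ⟨c, hcJ, hc⟩ := hY j
      refine ⟨c * mon z (bv e) ^ (p ^ f), Ideal.mul_mem_right _ _ hcJ, ?_⟩
      simp only [hX, hX']
      rw [hc]
      ring)
    (by
      rw [← h0]
      refine Finset.sum_congr rfl fun i _ => ?_
      rw [hu])
    (by
      intro h1
      apply hne
      rw [← h1]
      refine Finset.sum_congr rfl fun i _ => ?_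
      rw [hu'])
  simp only [hu'] at h
  have hct : ctv v = ∏ᶠ w : FinitePlace A, ⨆ p, w (V p) := by
    unfold ctv
    rw [ct_box _ n (fun p j => hn p.1 p.2 j)]
    congr 1
    funext w
    exact Equiv.iSup_congr (Equiv.prodAssoc _ _ _) (fun p => rfl)
  rw [hct]
  exact h

end Pool.Agent.H72.BK
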