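import Pool.Agent.H72.BK.Def
import Pool.Agent.H69.BE.ClA

/-!
# The Frobenius and product formula lemma at a prime ideal of `K`, with content (MP_187c26_nt, Theorem VK)

Model: `Pool/Agent/H69/BE/ClA.lean` (`clA`, modulo a prime number). `I = 𝔮 𝓞 F`: the value of the polynomial
`τ P` at `(X', α ^ (p ^ f))` is `≡ s (P (X, α)) ^ (p ^ f)` modulo `𝔮`; the norm of `𝔮 𝓞 (F(α))` is `N(𝔮) ^ [F(α) : K]`.
-/

set_option autoImplicit false

open NumberField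

namespace Pool.Agent.H72.BK

open Pool.Agent.H4.RR Pool.Agent.H69.BD

theorem cl_fieldI (E : Type) [Field E] [NumberField E] (α : E) (d q f : ℕ) (hq : q.Prime)
    (u u' w : Fin (d + 1) → 𝓞 E) (s : 𝓞 E) (𝔔 𝔠 : Ideal (𝓞 E)) (hq𝔔 : (q : 𝓞 E) ∈ 𝔔)
    (hcop : IsCoprime 𝔔 𝔠) (hc : ∀ i, u' i ∈ 𝔠) (hw : ∀ i, w i ∈ 𝔔)
    (hrel : ∀ i, u' i = s * u i ^ (q ^ f) + w i)
    (h0 : ∑ i, (u i : E) * α ^ (i : ℕ) = 0)
    (hne : ∑ i, (u' i : E) * α ^ (q ^ f * (i : ℕ)) ≠ 0) :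
    (Ideal.absNorm 𝔔 : ℝ) * Ideal.absNorm 𝔠 ≤ Height.mulHeight₁ α ^ (q ^ f * d) *
      ∏ σ : E →+* ℂ, ∑ i, ‖σ (u' i : E)‖ := by
  classical
  obtain ⟨V, U, hU, rfl⟩ := IsFractionRing.div_surjective (A := 𝓞 E) α
  have hU0 : U ≠ 0 := nonZeroDivisors.ne_zero hU
  have hUE : (U : E) ≠ 0 := by exact_mod_cast hU0
  set Q : ℕ := q ^ f with hQ
  set I : Ideal (𝓞 E) := Ideal.span {U, V} with hI
  have hUI : U ∈ I := Ideal.subset_span (by simp)
  have hVI : V ∈ I := Ideal.subset_span (by simp)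
  have hI0 : I ≠ ⊥ := by
    intro h
    rw [h] at hUI
    exact hU0 (by simpa using hUI)
  set y : Fin (d + 1) → 𝓞 E := fun i => u i * (V ^ (i : ℕ) * U ^ (d - (i : ℕ))) with hy
  have hmem : ∀ (n : ℕ) (i : Fin (d + 1)), V ^ (n * (i : ℕ)) * U ^ (n * (d - (i : ℕ))) ∈
      I ^ (n * d) := by
    intro n i
    have h1 : I ^ (n * d) = I ^ (n * (i : ℕ)) * I ^ (n * (d - (i : ℕ))) := by
      rw [← pow_add, ← mul_add]
      congr 2
      have := i.2
      omega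
    rw [h1]
    exact Ideal.mul_mem_mul (Ideal.pow_mem_pow hVI _) (Ideal.pow_mem_pow hUI _)
  have hyI : ∀ i ∈ (Finset.univ : Finset (Fin (d + 1))), y i ∈ I ^ d := by
    intro i _
    have := hmem 1 i
    rw [one_mul, one_mul, one_mul] at this
    exact Ideal.mul_mem_left _ _ this
  have key : ∀ (n : ℕ) (c : Fin (d + 1) → 𝓞 E),
      ((∑ i, c i * (V ^ (n * (i : ℕ)) * U ^ (n * (d - (i : ℕ)))) : 𝓞 E) : E) =
        (U : E) ^ (n * d) * ∑ i, (c i : E) * ((V : E) / (U : E)) ^ (n * (i : ℕ)) := by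
    intro n c
    rw [Finset.mul_sum]
    push_cast
    refine Finset.sum_congr rfl fun i _ => ?_
    have h1 : (U : E) ^ (n * d) = (U : E) ^ (n * (i : ℕ)) * (U : E) ^ (n * (d - (i : ℕ))) := by
      rw [← pow_add, ← mul_add]
      congr 2
      have := i.2
      omega
    rw [h1, div_pow]
    have h2 : (U : E) ^ (n * (i : ℕ)) ≠ 0 := pow_ne_zero _ hUE
    field_simp
  have hsum0 : ∑ i, y i = 0 := by
    have h1 := key 1 u
    simp only [one_mul] at h1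
    have h2 : ((∑ i, y i : 𝓞 E) : E) = 0 := by
      rw [hy, h1]
      rw [show ∑ i, (u i : E) * ((V : E) / (U : E)) ^ (i : ℕ) = 0 from h0, mul_zero]
    exact_mod_cast h2
  set Y : 𝓞 E := ∑ i, u' i * (V ^ (Q * (i : ℕ)) * U ^ (Q * (d - (i : ℕ)))) with hY
  have hYe : (Y : E) = (U : E) ^ (Q * d) *
      ∑ i, (u' i : E) * ((V : E) / (U : E)) ^ (Q * (i : ℕ)) := key Q u'
  have hY0 : Y ≠ 0 := by
    intro h
    have h1 : (Y : E) = 0 := by rw [h]; rfl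
    rw [hYe] at h1
    exact (mul_ne_zero (pow_ne_zero _ hUE) hne) h1
  have hYmem : Y ∈ 𝔔 * I ^ (Q * d) := by
    have e1 : Y = -(s * ((∑ i, y i) ^ Q - ∑ i, y i ^ Q)) +
        ∑ i, w i * (V ^ (Q * (i : ℕ)) * U ^ (Q * (d - (i : ℕ)))) := by
      rw [hsum0, zero_pow (by rw [hQ]; exact (pow_pos hq.pos f).ne'), zero_sub, mul_neg, neg_neg,
        Finset.mul_sum, ← Finset.sum_add_distrib, hY]
      refine Finset.sum_congr rfl fun i _ => ?_
      rw [hrel i, hy]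
      simp only
      rw [mul_pow, mul_pow, ← pow_mul, ← pow_mul, mul_comm (i : ℕ) Q, mul_comm (d - (i : ℕ)) Q]
      ring
    rw [e1]
    have h1 := frob_sum q hq (I ^ d) Finset.univ y hyI f
    rw [← hQ, ← pow_mul, mul_comm d Q] at h1
    have hle : Ideal.span {(q : 𝓞 E)} ≤ 𝔔 := (Ideal.span_singleton_le_iff_mem _).2 hq𝔔
    refine Ideal.add_mem _ (neg_mem (Ideal.mul_mem_left _ _ (Ideal.mul_mono_left hle h1))) ?_
    exact Ideal.sum_mem _ fun i _ => Ideal.mul_mem_mul (hw i) (hmem Q i)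
  have hYmem2 : Y ∈ 𝔠 * I ^ (Q * d) := by
    rw [hY]
    exact Ideal.sum_mem _ fun i _ => Ideal.mul_mem_mul (hc i) (hmem Q i)
  have hYmem3 : Y ∈ 𝔔 * 𝔠 * I ^ (Q * d) := by
    obtain ⟨a, ha, c, hc', hac⟩ := Ideal.isCoprime_iff_exists.1 hcop
    have e1 : Y = a * Y + c * Y := by rw [← add_mul, hac, one_mul]
    rw [e1]
    refine Ideal.add_mem _ ?_ ?_
    · rw [mul_assoc]
      exact Ideal.mul_mem_mul ha hYmem2
    · rw [mul_comm 𝔔 𝔠, mul_assoc]
      exact Ideal.mul_mem_mul hc' hYmem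
  have hlow := absNorm_le_prod E _ Y hYmem3 hY0
  rw [map_mul, map_mul, map_pow] at hlow
  push_cast at hlow
  have hH : Height.mulHeight₁ ((V : E) / (U : E)) * (Ideal.absNorm I : ℝ) =
      ∏ σ : E →+* ℂ, max ‖σ (U : E)‖ ‖σ (V : E)‖ := height_mul_absNorm E U V hU0
  have hup : ∏ σ : E →+* ℂ, ‖σ (Y : E)‖ ≤
      ∏ σ : E →+* ℂ, ((∑ i, ‖σ (u' i : E)‖) * (max ‖σ (U : E)‖ ‖σ (V : E)‖) ^ (Q * d)) := by
    refine Finset.prod_le_prod (fun σ _ => norm_nonneg _) fun σ _ => ?_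
    rw [hY, Finset.sum_mul]
    push_cast
    rw [map_sum]
    refine (norm_sum_le _ _).trans (Finset.sum_le_sum fun i _ => ?_)
    rw [map_mul, map_mul, map_pow, map_pow, norm_mul, norm_mul, norm_pow, norm_pow]
    refine mul_le_mul_of_nonneg_left ?_ (norm_nonneg _)
    have h1 : (max ‖σ (U : E)‖ ‖σ (V : E)‖) ^ (Q * d) =
        (max ‖σ (U : E)‖ ‖σ (V : E)‖) ^ (Q * (i : ℕ)) *
          (max ‖σ (U : E)‖ ‖σ (V : E)‖) ^ (Q * (d - (i : ℕ))) := by
      rw [← pow_add, ← mul_add]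
      congr 2
      have := i.2
      omega
    rw [h1]
    exact mul_le_mul (pow_le_pow_left₀ (norm_nonneg _) (le_max_right _ _) _)
      (pow_le_pow_left₀ (norm_nonneg _) (le_max_left _ _) _) (by positivity) (by positivity)
  rw [Finset.prod_mul_distrib, Finset.prod_pow, ← hH, mul_pow] at hup
  have hNI : (0 : ℝ) < (Ideal.absNorm I : ℝ) ^ (Q * d) := by
    apply pow_pos
    exact_mod_cast Nat.pos_of_ne_zero (fun h => hI0 (Ideal.absNorm_eq_zero_iff.1 h))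
  have hfin := hlow.trans hup
  have e2 : (∏ σ : E →+* ℂ, ∑ i, ‖σ (u' i : E)‖) *
      (Height.mulHeight₁ ((V : E) / (U : E)) ^ (Q * d) * (Ideal.absNorm I : ℝ) ^ (Q * d)) =
      (Height.mulHeight₁ ((V : E) / (U : E)) ^ (Q * d) *
        ∏ σ : E →+* ℂ, ∑ i, ‖σ (u' i : E)‖) * (Ideal.absNorm I : ℝ) ^ (Q * d) := by ring
  rw [e2] at hfin
  exact le_of_mul_le_mul_right hfin hNI

theorem clI {F Ω : Type} [Field F] [NumberField F] [Field Ω] [CharZero Ω] [Algebra F Ω] (α : Ω)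
    (hα : IsIntegral ℚ α) (d q f : ℕ) (hq : q.Prime) (u u' w : Fin (d + 1) → 𝓞 F) (s : 𝓞 F)
    (𝔔 𝔠 : Ideal (𝓞 F)) (hq𝔔 : (q : 𝓞 F) ∈ 𝔔) (hcop : IsCoprime 𝔔 𝔠)
    (hc : ∀ i, u' i ∈ 𝔠) (hw : ∀ i, w i ∈ 𝔔) (hrel : ∀ i, u' i = s * u i ^ (q ^ f) + w i)
    (h0 : ∑ i, algebraMap F Ω (u i : F) * α ^ (i : ℕ) = 0)
    (hne : ∑ i, algebraMap F Ω (u' i : F) * α ^ (q ^ f * (i : ℕ)) ≠ 0) :
    (Ideal.absNorm 𝔔 : ℝ) * Ideal.absNorm 𝔠 ≤
      Real.exp (Module.finrank ℚ F * (q : ℝ) ^ f * d * absLogHeight₁ α) *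
        ∏ φ : F →+* ℂ, ∑ i, ‖φ (u' i : F)‖ := by
  classical
  have hintF : IsIntegral F α := hα.tower_top
  set E := IntermediateField.adjoin F {α} with hE
  have hfd : FiniteDimensional F E := IntermediateField.adjoin.finiteDimensional hintF
  have hfdQ : FiniteDimensional ℚ E := FiniteDimensional.trans ℚ F E
  have hnf : NumberField E := {}
  let α' : E := IntermediateField.AdjoinSimple.gen F α
  have hα' : ((α' : E) : Ω) = α := rfl
  set j : 𝓞 F →+* 𝓞 E := algebraMap (𝓞 F) (𝓞 E) with hj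
  have hl : ∀ z : 𝓞 F, ((j z : 𝓞 E) : E) = algebraMap F E z := fun z => rfl
  have h1 := cl_fieldI E α' d q f hq (fun i => j (u i)) (fun i => j (u' i))
    (fun i => j (w i)) (j s) (𝔔.map j) (𝔠.map j)
    (by
      have h3 := Ideal.mem_map_of_mem j hq𝔔
      rwa [map_natCast] at h3)
    (by
      have h3 := hcop.map (Ideal.mapHom j)
      simpa only [Ideal.mapHom_apply] using h3)
    (fun i => Ideal.mem_map_of_mem j (hc i)) (fun i => Ideal.mem_map_of_mem j (hw i))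
    (fun i => by rw [hrel i, map_add, map_mul, map_pow])
    (by
      apply Subtype.val_injective
      simp only [hl]
      push_cast
      exact h0)
    (by
      intro h
      apply hne
      have h2 := congrArg (fun z : E => (z : Ω)) h
      simp only [hl] at h2
      push_cast at h2
      exact h2)
  set e := Module.finrank F E with he
  have hepos : e ≠ 0 := (Module.finrank_pos (R := F) (M := E)).ne'
  have hdeg : Module.finrank ℚ F * e = Module.finrank ℚ E := Module.finrank_mul_finrank ℚ F E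
  have h2 : ∏ σ : E →+* ℂ, ∑ i, ‖σ ((j (u' i) : 𝓞 E) : E)‖ =
      (∏ φ : F →+* ℂ, ∑ i, ‖φ (u' i : F)‖) ^ e :=
    prod_comp_embeddings F E (fun φ => ∑ i, ‖φ (u' i : F)‖)
  have hH : Height.mulHeight₁ α' = Real.exp (Module.finrank ℚ E * absLogHeight₁ α) := by
    have h3 := absLogHeight_eq E Ω (algebraMap E Ω) α'
    have h4 : (algebraMap E Ω) α' = α := rfl
    rw [h4] at h3
    have hE0 : (Module.finrank ℚ E : ℝ) ≠ 0 := by
      exact_mod_cast (Module.finrank_pos (R := ℚ) (M := E)).ne'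
    rw [h3, mul_div_cancel₀ _ hE0, Height.logHeight₁_eq_log_mulHeight₁,
      Real.exp_log (Height.mulHeight₁_pos _)]
  have hN : ∀ 𝔞 : Ideal (𝓞 F), (Ideal.absNorm (𝔞.map j) : ℝ) =
      (Ideal.absNorm 𝔞 : ℝ) ^ e := by
    intro 𝔞
    rw [hj, Ideal.absNorm_algebraMap]
    push_cast
    rw [he, ← IsFractionRing.finrank_eq (𝓞 F) F (𝓞 E) E]
  rw [h2, hH, hN, hN, ← hdeg, ← Real.exp_nat_mul] at h1
  have h5 : Real.exp (((q ^ f * d : ℕ) : ℝ) *
      (((Module.finrank ℚ F * e : ℕ) : ℝ) * absLogHeight₁ α)) =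
      (Real.exp (Module.finrank ℚ F * (q : ℝ) ^ f * d * absLogHeight₁ α)) ^ e := by
    rw [← Real.exp_nat_mul]
    congr 1
    push_cast
    ring
  rw [h5, ← mul_pow, ← mul_pow] at h1
  refine le_of_pow_le_pow_left₀ hepos ?_ h1
  refine mul_nonneg (Real.exp_pos _).le (Finset.prod_nonneg fun φ _ => Finset.sum_nonneg fun i _ =>
    norm_nonneg _)

theorem relI {R S : Type} [CommRing R] [CommRing S] (ι : R →+* S) (τ : R →+* R) (q f : ℕ)
    (hq : q.Prime) (J : Ideal R) (hqJ : (q : R) ∈ J) {κ : Type} [Fintype κ] (V : κ → R)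
    (X X' : κ → S) (s : S)
    (hV : ∀ k, ∃ c : R, c ∈ J ∧ τ (V k) = V k ^ (q ^ f) + c)
    (hX : ∀ k, ∃ c : S, c ∈ J.map ι ∧ X' k = s * X k ^ (q ^ f) + c) :
    ∃ w : S, w ∈ J.map ι ∧
      ∑ k, ι (τ (V k)) * X' k = s * (∑ k, ι (V k) * X k) ^ (q ^ f) + w := by
  have h1 := frob_sum q hq (⊤ : Ideal S) Finset.univ
    (fun k => ι (V k) * X k) (fun _ _ => Submodule.mem_top) f
  have hqS : (q : S) ∈ J.map ι := by
    have h := Ideal.mem_map_of_mem ι hqJ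
    rwa [map_natCast] at h
  have h2 : (∑ k, ι (V k) * X k) ^ (q ^ f) - ∑ k, (ι (V k) * X k) ^ (q ^ f) ∈
      J.map ι := (Ideal.span_singleton_le_iff_mem _).2 hqS (Ideal.mul_le_left h1)
  have h3 : ∀ k, ∃ c : S, c ∈ J.map ι ∧ ι (τ (V k)) * X' k =
      s * (ι (V k) * X k) ^ (q ^ f) + c := by
    intro k
    obtain ⟨c₁, hc₁J, hc₁⟩ := hX k
    obtain ⟨c₂, hc₂J, hc₂⟩ := hV k
    rw [hc₂, hc₁, map_add, map_pow]
    refine ⟨ι (V k) ^ (q ^ f) * c₁ + (s * X k ^ (q ^ f) + c₁) * ι c₂, ?_, by ring⟩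
    exact add_mem (Ideal.mul_mem_left _ _ hc₁J)
      (Ideal.mul_mem_left _ _ (Ideal.mem_map_of_mem ι hc₂J))
  choose c hcJ hc using h3
  refine ⟨∑ k, c k - s * ((∑ k, ι (V k) * X k) ^ (q ^ f) - ∑ k, (ι (V k) * X k) ^ (q ^ f)),
    sub_mem (sum_mem fun k _ => hcJ k) (Ideal.mul_mem_left _ _ h2), ?_⟩
  rw [Finset.sum_congr rfl fun k _ => hc k, Finset.sum_add_distrib, ← Finset.mul_sum]
  ring

theorem clK {K A F Ω : Type} [Field K] [NumberField K] [Field A] [NumberField A] [Field F]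
    [NumberField F] [Algebra K A] [Algebra A F] [Field Ω] [CharZero Ω] [Algebra F Ω] (α : Ω)
    (hα : IsIntegral ℚ α) (d p f : ℕ) (𝔮 : Ideal (𝓞 K)) (hp : p.Prime) (h𝔮 : 𝔮.IsPrime)
    (hp𝔮 : (p : 𝓞 K) ∈ 𝔮) (τ : A →+* A)
    (hτ : ∀ a : 𝓞 A, ∃ c : 𝓞 A, c ∈ 𝔮.map (algebraMap (𝓞 K) (𝓞 A)) ∧
      τ (a : A) = (a : A) ^ (p ^ f) + (c : A)) {κ : Type}
    [Fintype κ] (V : Fin (d + 1) × κ → A) (X X' : κ → 𝓞 F) (s : 𝓞 F)
    (hX : ∀ k, ∃ c : 𝓞 F, c ∈ (𝔮.map (algebraMap (𝓞 K) (𝓞 A))).map (algebraMap (𝓞 A) (𝓞 F)) ∧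
      X' k = s * X k ^ (p ^ f) + c)
    (h0 : ∑ i : Fin (d + 1), algebraMap F Ω (∑ k, algebraMap A F (V (i, k)) * (X k : F)) *
      α ^ (i : ℕ) = 0)
    (hne : ∑ i : Fin (d + 1), algebraMap F Ω (∑ k, algebraMap A F (τ (V (i, k))) * (X' k : F)) *
      α ^ (p ^ f * (i : ℕ)) ≠ 0) :
    (Ideal.absNorm 𝔮 : ℝ) ^ (Module.finrank K A * Module.finrank A F) ≤
      Real.exp (Module.finrank ℚ F * (p : ℝ) ^ f * d * absLogHeight₁ α) *
        (∏ φ : F →+* ℂ, ∑ i : Fin (d + 1),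
          ‖φ (∑ k, algebraMap A F (τ (V (i, k))) * (X' k : F))‖) *
        (∏ᶠ v : FinitePlace A, ⨆ p, v (V p)) ^ Module.finrank A F := by
  classical
  have _ := h𝔮
  have hV : ∃ p, V p ≠ 0 := by
    by_contra hcon
    push Not at hcon
    apply hne
    refine Finset.sum_eq_zero fun i _ => ?_
    rw [Finset.sum_eq_zero (fun k _ => by rw [hcon, map_zero, map_zero, zero_mul]), map_zero,
      zero_mul]
  obtain ⟨lam, V', hlam, hV', hcop⟩ := Pool.Agent.H69.BE.scaleV V hV p hp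
  have hτs : Function.Surjective τ := by
    have h1 : Function.Injective (τ.toRatAlgHom.toLinearMap : A →ₗ[ℚ] A) := τ.injective
    exact LinearMap.injective_iff_surjective.1 h1
  -- the automorphism of the integers
  let τE : A ≃+* A := RingEquiv.ofBijective τ ⟨τ.injective, hτs⟩
  let τO : 𝓞 A ≃+* 𝓞 A := RingOfIntegers.mapRingEquiv τE
  have hτO : ∀ a : 𝓞 A, ((τO a : 𝓞 A) : A) = τ a := fun a => rfl
  set 𝔠₀ : Ideal (𝓞 A) := Ideal.span (Set.range V') with h𝔠₀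
  set ι : 𝓞 A →+* 𝓞 F := algebraMap (𝓞 A) (𝓞 F) with hι
  set 𝔠 : Ideal (𝓞 F) := (𝔠₀.map (τO : 𝓞 A →+* 𝓞 A)).map ι with h𝔠
  set J : Ideal (𝓞 A) := 𝔮.map (algebraMap (𝓞 K) (𝓞 A)) with hJ
  have hpJ : (p : 𝓞 A) ∈ J := by
    have h := Ideal.mem_map_of_mem (algebraMap (𝓞 K) (𝓞 A)) hp𝔮
    rwa [map_natCast] at h
  have hpJF : (p : 𝓞 F) ∈ J.map ι := by
    have h := Ideal.mem_map_of_mem ι hpJ
    rwa [map_natCast] at h
  have hN1 : Ideal.absNorm (𝔠₀.map (τO : 𝓞 A →+* 𝓞 A)) = Ideal.absNorm 𝔠₀ :=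
    bogCyc_absNorm_map A τO 𝔠₀
  have hN2 : (Ideal.absNorm 𝔠 : ℝ) = (Ideal.absNorm 𝔠₀ : ℝ) ^ Module.finrank A F := by
    rw [h𝔠, hι, Ideal.absNorm_algebraMap, hN1]
    push_cast
    rw [← IsFractionRing.finrank_eq (𝓞 A) A (𝓞 F) F]
  have hN3 : (Ideal.absNorm (J.map ι) : ℝ) =
      (Ideal.absNorm 𝔮 : ℝ) ^ (Module.finrank K A * Module.finrank A F) := by
    rw [hι, Ideal.absNorm_algebraMap, hJ, Ideal.absNorm_algebraMap]
    push_cast
    rw [← IsFractionRing.finrank_eq (𝓞 A) A (𝓞 F) F, ← IsFractionRing.finrank_eq (𝓞 K) K (𝓞 A) A,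
      ← pow_mul]
  have hcop2 : IsCoprime (J.map ι) 𝔠 := by
    have h1 := hcop.map (Ideal.mapHom (τO : 𝓞 A →+* 𝓞 A))
    simp only [Ideal.mapHom_apply] at h1
    rw [Ideal.map_span, Set.image_singleton, map_natCast] at h1
    have h2 := h1.map (Ideal.mapHom ι)
    simp only [Ideal.mapHom_apply] at h2
    rw [Ideal.map_span, Set.image_singleton, map_natCast] at h2
    rw [Ideal.isCoprime_iff_sup_eq] at h2 ⊢
    refine top_le_iff.1 (h2.symm.le.trans (sup_le_sup_right ?_ _))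
    exact (Ideal.span_singleton_le_iff_mem _).2 hpJF
  -- the new elements
  set u : Fin (d + 1) → 𝓞 F := fun i => ∑ k, ι (V' (i, k)) * X k with hu
  set u' : Fin (d + 1) → 𝓞 F := fun i => ∑ k, ι (τO (V' (i, k))) * X' k with hu'
  have hu1 : ∀ i, (u i : F) = algebraMap A F lam *
      ∑ k, algebraMap A F (V (i, k)) * (X k : F) := fun i =>
    Pool.Agent.H69.BE.scale_sum ι (algebraMap (𝓞 A) A) (algebraMap (𝓞 F) F) (algebraMap A F)
      (fun a => rfl) (fun k => V' (i, k)) (fun k => V (i, k)) X lam (fun k => hV' (i, k))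
  have hu2 : ∀ i, (u' i : F) = algebraMap A F (τ lam) *
      ∑ k, algebraMap A F (τ (V (i, k))) * (X' k : F) := fun i =>
    Pool.Agent.H69.BE.scale_sum ι (algebraMap (𝓞 A) A) (algebraMap (𝓞 F) F) (algebraMap A F)
      (fun a => rfl) (fun k => τO (V' (i, k))) (fun k => τ (V (i, k))) X' (τ lam) (fun k => by
        have h1 : algebraMap (𝓞 A) A (τO (V' (i, k))) = τ (V' (i, k) : A) := rfl
        rw [h1, hV' (i, k), map_mul])
  have hrel : ∀ i, ∃ w : 𝓞 F, w ∈ J.map ι ∧ u' i = s * u i ^ (p ^ f) + w := fun i =>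
    relI ι (τO : 𝓞 A →+* 𝓞 A) p f hp J hpJ (fun k => V' (i, k)) X X' s (fun k => by
      obtain ⟨c₂, hc₂J, hc₂⟩ := hτ (V' (i, k))
      refine ⟨c₂, hc₂J, ?_⟩
      apply RingOfIntegers.ext
      have h1 : (((τO : 𝓞 A →+* 𝓞 A) (V' (i, k)) : 𝓞 A) : A) = τ (V' (i, k) : A) := rfl
      rw [h1, hc₂]
      push_cast
      rfl) hX
  choose w hwJ hw using hrel
  have hcl := clI (F := F) (Ω := Ω) α hα d p f hp u u' w s (J.map ι) 𝔠 hpJF hcop2
    (fun i => by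
      rw [hu', h𝔠]
      exact Ideal.sum_mem _ fun k _ => Ideal.mul_mem_right _ _ (Ideal.mem_map_of_mem _
        (Ideal.mem_map_of_mem _ (Ideal.subset_span ⟨(i, k), rfl⟩)))) hwJ hw
    (by
      have h1 : ∀ i : Fin (d + 1), algebraMap F Ω (u i : F) * α ^ (i : ℕ) =
          algebraMap F Ω (algebraMap A F lam) *
            (algebraMap F Ω (∑ k, algebraMap A F (V (i, k)) * (X k : F)) * α ^ (i : ℕ)) := by
        intro i
        rw [hu1, map_mul, mul_assoc]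
      rw [Finset.sum_congr rfl fun i _ => h1 i, ← Finset.mul_sum, h0, mul_zero])
    (by
      have h1 : ∀ i : Fin (d + 1), algebraMap F Ω (u' i : F) * α ^ (p ^ f * (i : ℕ)) =
          algebraMap F Ω (algebraMap A F (τ lam)) *
            (algebraMap F Ω (∑ k, algebraMap A F (τ (V (i, k))) * (X' k : F)) *
              α ^ (p ^ f * (i : ℕ))) := by
        intro i
        rw [hu2, map_mul, mul_assoc]
      rw [Finset.sum_congr rfl fun i _ => h1 i, ← Finset.mul_sum]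
      refine mul_ne_zero ?_ hne
      rw [Ne, map_eq_zero, map_eq_zero, map_eq_zero]
      exact hlam)
  -- the products
  set P : ℝ := ∏ φ : F →+* ℂ, ∑ i : Fin (d + 1),
    ‖φ (∑ k, algebraMap A F (τ (V (i, k))) * (X' k : F))‖ with hP
  set L : ℝ := ∏ t : A →+* ℂ, ‖t lam‖ with hL
  have hprod : ∏ φ : F →+* ℂ, ∑ i : Fin (d + 1), ‖φ (u' i : F)‖ =
      L ^ Module.finrank A F * P := by
    have h1 : ∀ φ : F →+* ℂ, ∑ i : Fin (d + 1), ‖φ (u' i : F)‖ =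
        ‖(φ.comp (algebraMap A F)) (τ lam)‖ *
          ∑ i : Fin (d + 1), ‖φ (∑ k, algebraMap A F (τ (V (i, k))) * (X' k : F))‖ := by
      intro φ
      rw [Finset.mul_sum]
      refine Finset.sum_congr rfl fun i _ => ?_
      rw [hu2, map_mul, norm_mul]
      rfl
    rw [Finset.prod_congr rfl fun φ _ => h1 φ, Finset.prod_mul_distrib,
      prod_comp_embeddings A F (fun t => ‖t (τ lam)‖)]
    congr 2
    rw [hL]
    have hinj : Function.Injective (fun t : A →+* ℂ => t.comp τ) := by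
      intro t t' h
      ext a
      obtain ⟨a', rfl⟩ := hτs a
      exact congrArg (fun g : A →+* ℂ => g a') h
    exact (Fintype.prod_bijective (fun t : A →+* ℂ => t.comp τ)
      (Finite.injective_iff_bijective.1 hinj) _ _ (fun t => rfl))
  rw [hprod, hN2, hN3] at hcl
  -- the content
  have hne0 : V' ≠ 0 := by
    obtain ⟨p, hp⟩ := hV
    intro h
    have h1 := hV' p
    rw [h] at h1
    exact mul_ne_zero hlam hp (by rw [← h1]; simp)
  have hc1 := NumberField.absNorm_mul_finprod_finitePlace_eq_one hne0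
  have hc2 := Pool.Agent.H69.BE.content_scale V hV lam hlam
  have hc3 : (∏ᶠ v : FinitePlace A, ⨆ p, v (lam * V p)) =
      ∏ᶠ v : FinitePlace A, ⨆ p, v (V' p : A) := by
    simp only [hV']
  rw [hc3] at hc2
  set c' : ℝ := ∏ᶠ v : FinitePlace A, ⨆ p, v (V' p : A) with hc'
  set e := Module.finrank A F with he
  rw [← hc2, mul_pow]
  have hNc : (Ideal.absNorm 𝔠₀ : ℝ) * c' = 1 := hc1
  have hNpos : (0 : ℝ) < Ideal.absNorm 𝔠₀ := by
    rcases (Nat.cast_nonneg (α := ℝ) (Ideal.absNorm 𝔠₀)).lt_or_eq with h | h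
    · exact h
    · rw [← h, zero_mul] at hNc
      exact absurd hNc zero_ne_one
  have hNe : (0 : ℝ) < (Ideal.absNorm 𝔠₀ : ℝ) ^ e := pow_pos hNpos e
  have hNce : (Ideal.absNorm 𝔠₀ : ℝ) ^ e * c' ^ e = 1 := by rw [← mul_pow, hNc, one_pow]
  refine le_of_mul_le_mul_right ?_ hNe
  refine hcl.trans (le_of_eq ?_)
  calc _ = Real.exp (Module.finrank ℚ F * (p : ℝ) ^ f * d * absLogHeight₁ α) * P * L ^ e *
        ((Ideal.absNorm 𝔠₀ : ℝ) ^ e * c' ^ e) := by rw [hNce]; ring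
    _ = _ := by ring

end Pool.Agent.H72.BK
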