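import Pool.Agent.H72.BK.Def
import Pool.Agent.H72.BE.Fin
import Pool.Agent.H72.BE.Toe

/-!
# Heights of subspaces (MP_187c26_nt, Theorem VK, S2)

`hh_inv`: `minor_J (P Y) = det P · minor_J (Y)`, `gdt (P Y) = |det P| ^ 2 gdt (Y)`; product formula for `det P`.

(Port: the weights are complex, depend on `t`, and only the product over `t` of their absolute values is `≥ 1`.)

`cova`: `Y` has row index `κ₁ ⊕ κ₂`, `Y₁`, `Y₂` the two parts; the rows of `Y₁` vanish on the columns `S`; some minor `J₂` of `Y₂` with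
columns in `S` is not zero. Then `H(Y₁) ≤ H(Y)`.
PROOF. Infinite places: for each `t`: `gdt (Y) ≥ gdt (Y₁) |minor_J₂ (Y₂)^t| ^ 2` where the minor is that of the weighted matrix `wm`:
Cauchy–Binet `gdt (Y) = ∑ J, |minor_J| ^ 2` over subsets `J` of columns of size `|κ₁| + |κ₂|`, restrict to `J = J₁ ∪ J₂` with the fixed
`J₂ ⊂ S` and `J₁` outside of `J₂` (for `J₁` which meets `S` the minor of `Y₁` is `0`): block triangular, `minor = ± minor_J₁ (Y₁) minor_J₂ (Y₂)`. Or by
the Schur complement: `gdt (Y) = gdt (Y₁) · gdt (projection of Y₂ on the orthogonal complement of the rows of Y₁) ≥ gdt (Y₁) · gdt (Y₂ on the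
columns in J₂)`. (Model: `schur` in `Pool/Agent/H72/BD/Cov.lean`.)
Finite places: `max_J |minor_J (Y)|_v ≥ max_J₁ |minor_J₁ (Y₁)|_v · |minor_J₂ (Y₂)|_v` (block triangular; a `J₁` with a column in `S` has minor `0`).
Product formula for `δ = minor_J₂ (Y₂) ∈ A`, `δ ≠ 0`: `∏_t |t δ| ∏_v |δ|_v = 1`, and the weights: `minor_J₂ of wm = t(δ) ∏ ww (J₂ k)`, `ww ≥ 1`.
-/

set_option autoImplicit false

open NumberField

namespace Pool.Agent.H72.BK

open Pool.Agent.H72.BE (Gm Box vl bv md mon sm gdt fo fm inw Rep cf ctv gdt_nonneg gdt_real fm_support prod_formula)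

variable {A : Type} [Field A] [NumberField A] {Ω : Type} [Fintype Ω]

/-! ### Gram determinants -/

open scoped ComplexOrder in
private theorem one_le_det {κ Ξ : Type} [Fintype κ] [DecidableEq κ] [Fintype Ξ]
    (Z : Matrix κ Ξ ℂ) : 1 ≤ ((1 + Z * Z.conjTranspose).det).re := by
  have hP := Matrix.posSemidef_self_mul_conjTranspose Z
  have hH : (1 + Z * Z.conjTranspose).IsHermitian := Matrix.isHermitian_one.add hP.1
  have h1 : ∀ i, 1 ≤ hH.eigenvalues i := by
    intro i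
    rw [hH.eigenvalues_eq, Matrix.add_mulVec, Matrix.one_mulVec, dotProduct_add, map_add]
    have h2 : RCLike.re (star ⇑(hH.eigenvectorBasis i) ⬝ᵥ ⇑(hH.eigenvectorBasis i)) = (1 : ℝ) := by
      rw [dotProduct_comm, ← EuclideanSpace.inner_eq_star_dotProduct, inner_self_eq_norm_sq_to_K,
        hH.eigenvectorBasis.orthonormal.1 i]
      simp
    have h3 := hP.re_dotProduct_nonneg ⇑(hH.eigenvectorBasis i)
    linarith
  rw [hH.det_eq_prod_eigenvalues]
  have h4 : (∏ i, (hH.eigenvalues i : ℂ)) = ((∏ i, hH.eigenvalues i : ℝ) : ℂ) := by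
    rw [Complex.ofReal_prod]
  have h5 : ((∏ i, (hH.eigenvalues i : ℂ)) : ℂ).re = ∏ i, hH.eigenvalues i := by
    rw [h4, Complex.ofReal_re]
  refine le_trans ?_ (le_of_eq h5.symm)
  calc (1 : ℝ) = ∏ i : κ, (1 : ℝ) := by simp
    _ ≤ ∏ i, hH.eigenvalues i := Finset.prod_le_prod (fun _ _ => zero_le_one) fun i _ => h1 i

private theorem gdt_mul {κ Ξ : Type} [Fintype κ] [DecidableEq κ] [Fintype Ξ]
    (Q : Matrix κ κ ℂ) (M : Matrix κ Ξ ℂ) : gdt (Q * M) = ‖Q.det‖ ^ 2 * gdt M := by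
  have h1 : (Q * M) * (Q * M).conjTranspose = Q * (M * M.conjTranspose) * Q.conjTranspose := by
    rw [Matrix.conjTranspose_mul]
    simp only [Matrix.mul_assoc]
  have h2 : ((Q * M) * (Q * M).conjTranspose).det = ((‖Q.det‖ ^ 2 * gdt M : ℝ) : ℂ) := by
    rw [h1, Matrix.det_mul, Matrix.det_mul, Matrix.det_conjTranspose, gdt_real]
    have h3 : Q.det * star Q.det = ((‖Q.det‖ ^ 2 : ℝ) : ℂ) := by
      rw [Complex.ofReal_pow]
      exact Complex.mul_conj' _
    rw [Complex.ofReal_mul, ← h3]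
    ring
  unfold gdt
  rw [h2, Complex.ofReal_re]
  rfl

private theorem gdt_rows {κ₁ κ₂ Ξ : Type} [Fintype κ₁] [DecidableEq κ₁] [Fintype κ₂]
    [DecidableEq κ₂] [Fintype Ξ] (M₁ : Matrix κ₁ Ξ ℂ) (M₂ : Matrix κ₂ Ξ ℂ) (J : κ₂ → Ξ)
    (hJ : ∀ k l, M₁ k (J l) = 0) :
    gdt M₁ * ‖(M₂.submatrix id J).det‖ ^ 2 ≤ gdt (Matrix.fromRows M₁ M₂) := by
  classical
  by_cases hB : (M₂.submatrix id J).det = 0
  · rw [hB]
    simpa using gdt_nonneg (Matrix.fromRows M₁ M₂)
  by_cases hA : (M₁ * M₁.conjTranspose).det = 0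
  · have h0 : gdt M₁ = 0 := by
      unfold gdt
      rw [hA, Complex.zero_re]
    rw [h0, zero_mul]
    exact gdt_nonneg _
  have hJi : Function.Injective J := by
    intro a b hab
    by_contra hne
    exact hB (Matrix.det_zero_of_column_eq hne fun k => by
      rw [Matrix.submatrix_apply, Matrix.submatrix_apply, hab])
  obtain ⟨A, hAd⟩ : ∃ A, A = M₁ * M₁.conjTranspose := ⟨_, rfl⟩
  obtain ⟨B, hBd⟩ : ∃ B, B = M₂.submatrix id J := ⟨_, rfl⟩
  obtain ⟨N, hNd⟩ : ∃ N : Matrix Ξ κ₂ ℂ, N = (1 : Matrix Ξ Ξ ℂ).submatrix id J := ⟨_, rfl⟩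
  obtain ⟨P, hPd⟩ : ∃ P : Matrix Ξ Ξ ℂ, P = M₁.conjTranspose * A⁻¹ * M₁ := ⟨_, rfl⟩
  have hAu : IsUnit A.det := by
    rw [hAd]
    exact isUnit_iff_ne_zero.2 hA
  have hBu : IsUnit B.det := by
    rw [hBd]
    exact isUnit_iff_ne_zero.2 hB
  have hAt : A.conjTranspose = A := by
    rw [hAd, Matrix.conjTranspose_mul, Matrix.conjTranspose_conjTranspose]
  have hMN : ∀ {κ : Type} (M : Matrix κ Ξ ℂ), M * N = M.submatrix id J := by
    intro κ M
    ext k l
    rw [hNd, Matrix.mul_apply]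
    simp [Matrix.one_apply]
  have hNN : N.conjTranspose * N = 1 := by
    rw [hMN]
    ext k l
    rw [Matrix.submatrix_apply, Matrix.conjTranspose_apply, hNd, Matrix.submatrix_apply,
      Matrix.one_apply, Matrix.one_apply]
    by_cases hkl : k = l
    · rw [if_pos hkl, if_pos (by rw [hkl]; rfl), star_one]
    · rw [if_neg hkl, if_neg (fun h => hkl (hJi (by simpa using h.symm))), star_zero]
  have hM1N : M₁ * N = 0 := by
    rw [hMN]
    ext k l
    exact hJ k l
  have hPN : P * N = 0 := by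
    rw [hPd, Matrix.mul_assoc, hM1N, Matrix.mul_zero]
  obtain ⟨D, hDd⟩ : ∃ D : Matrix Ξ Ξ ℂ, D = N * N.conjTranspose := ⟨_, rfl⟩
  have hPP : P * P = P := by
    rw [hPd]
    calc M₁.conjTranspose * A⁻¹ * M₁ * (M₁.conjTranspose * A⁻¹ * M₁) =
        M₁.conjTranspose * (A⁻¹ * (M₁ * M₁.conjTranspose)) * A⁻¹ * M₁ := by
          simp only [Matrix.mul_assoc]
      _ = M₁.conjTranspose * A⁻¹ * M₁ := by
          rw [← hAd, Matrix.nonsing_inv_mul _ hAu, Matrix.mul_one]
  have hPt : P.conjTranspose = P := by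
    rw [hPd, Matrix.conjTranspose_mul, Matrix.conjTranspose_mul, Matrix.conjTranspose_conjTranspose,
      Matrix.conjTranspose_nonsing_inv, hAt, Matrix.mul_assoc]
  have hDD : D * D = D := by
    rw [hDd]
    calc N * N.conjTranspose * (N * N.conjTranspose) = N * (N.conjTranspose * N) * N.conjTranspose := by
          simp only [Matrix.mul_assoc]
      _ = N * N.conjTranspose := by rw [hNN, Matrix.mul_one]
  have hDt : D.conjTranspose = D := by
    rw [hDd, Matrix.conjTranspose_mul, Matrix.conjTranspose_conjTranspose]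
  have hPD : P * D = 0 := by
    rw [hDd, ← Matrix.mul_assoc, hPN, Matrix.zero_mul]
  have hDP : D * P = 0 := by
    have h1 := congrArg Matrix.conjTranspose hPD
    rwa [Matrix.conjTranspose_mul, hPt, hDt, Matrix.conjTranspose_zero] at h1
  have hTT : (1 - D - P) * (1 - D - P).conjTranspose = 1 - D - P := by
    rw [Matrix.conjTranspose_sub, Matrix.conjTranspose_sub, hPt, hDt, Matrix.conjTranspose_one]
    simp only [sub_mul, mul_sub, one_mul, mul_one, hPP, hPD, hDP, hDD]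
    abel
  obtain ⟨Z, hZd⟩ : ∃ Z : Matrix κ₂ Ξ ℂ, Z = B⁻¹ * (M₂ * (1 - D - P)) := ⟨_, rfl⟩
  have hBZ : B * Z = M₂ * (1 - D - P) := by
    rw [hZd, ← Matrix.mul_assoc, Matrix.mul_nonsing_inv _ hBu, Matrix.one_mul]
  have hM2N : M₂ * N = B := by rw [hMN, hBd]
  have h3 : M₂ * M₂.conjTranspose - M₂ * M₁.conjTranspose * A⁻¹ * (M₁ * M₂.conjTranspose) =
      B * (1 + Z * Z.conjTranspose) * B.conjTranspose := by
    have e1 : B * (1 + Z * Z.conjTranspose) * B.conjTranspose =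
        B * B.conjTranspose + (B * Z) * (B * Z).conjTranspose := by
      rw [Matrix.mul_add, Matrix.add_mul, Matrix.mul_one, Matrix.conjTranspose_mul]
      simp only [Matrix.mul_assoc]
    have e2 : (B * Z) * (B * Z).conjTranspose = M₂ * (1 - D - P) * M₂.conjTranspose := by
      rw [hBZ, Matrix.conjTranspose_mul, Matrix.mul_assoc M₂, ← Matrix.mul_assoc (1 - D - P), hTT,
        ← Matrix.mul_assoc]
    have e3 : B * B.conjTranspose = M₂ * D * M₂.conjTranspose := by
      rw [← hM2N, hDd, Matrix.conjTranspose_mul]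
      simp only [Matrix.mul_assoc]
    have e4 : M₂ * M₁.conjTranspose * A⁻¹ * (M₁ * M₂.conjTranspose) = M₂ * P * M₂.conjTranspose := by
      rw [hPd]
      simp only [Matrix.mul_assoc]
    rw [e1, e2, e3, e4]
    simp only [Matrix.sub_mul, Matrix.mul_sub, Matrix.mul_one]
    abel
  let _ := Matrix.invertibleOfIsUnitDet A hAu
  have h5 : ((Matrix.fromRows M₁ M₂) * (Matrix.fromRows M₁ M₂).conjTranspose).det =
      ((gdt M₁ * ‖B.det‖ ^ 2 : ℝ) : ℂ) * (1 + Z * Z.conjTranspose).det := by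
    rw [Matrix.conjTranspose_fromRows_eq_fromCols_conjTranspose, Matrix.fromRows_mul_fromCols, ← hAd,
      Matrix.det_fromBlocks₁₁, Matrix.invOf_eq_nonsing_inv, h3, Matrix.det_mul, Matrix.det_mul,
      Matrix.det_conjTranspose, hAd, gdt_real]
    have h6 : B.det * star B.det = ((‖B.det‖ ^ 2 : ℝ) : ℂ) := by
      rw [Complex.ofReal_pow]
      exact Complex.mul_conj' _
    rw [Complex.ofReal_mul, ← h6]
    ring
  have h7 : gdt (Matrix.fromRows M₁ M₂) = gdt M₁ * ‖B.det‖ ^ 2 * ((1 + Z * Z.conjTranspose).det).re := by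
    rw [← Complex.re_ofReal_mul, ← h5]
    rfl
  rw [h7, ← hBd]
  have h8 : 0 ≤ gdt M₁ * ‖B.det‖ ^ 2 := mul_nonneg (gdt_nonneg _) (by positivity)
  exact le_mul_of_one_le_right h8 (one_le_det Z)

/-! ### Minors -/

private theorem ex_minor {F κ Ξ : Type} [Field F] [Fintype κ] [DecidableEq κ] [Fintype Ξ]
    (M : Matrix κ Ξ F) (h : LinearIndependent F M.row) :
    ∃ J : κ → Ξ, (M.submatrix id J).det ≠ 0 := by
  classical
  have hr := h.rank_matrix
  rw [Matrix.rank_eq_finrank_span_cols] at hr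
  obtain ⟨ι, a, ha, hsp, hli⟩ := exists_linearIndependent' F M.col
  have hfi : Finite ι := Finite.of_injective a ha
  have _ : Fintype ι := Fintype.ofFinite ι
  have h1 := finrank_span_eq_card hli
  rw [hsp, hr] at h1
  let e : κ ≃ ι := Fintype.equivOfCardEq h1
  refine ⟨a ∘ e, ?_⟩
  have h2 : LinearIndependent F (M.submatrix id (a ∘ e)).col := hli.comp e e.injective
  rw [Matrix.linearIndependent_cols_iff_isUnit, Matrix.isUnit_iff_isUnit_det] at h2
  exact h2.ne_zero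

private theorem li_of_minor {F κ Ξ : Type} [Field F] [Fintype κ] [DecidableEq κ]
    (M : Matrix κ Ξ F) (J : κ → Ξ) (hJ : (M.submatrix id J).det ≠ 0) (g : κ → F)
    (hg : Matrix.vecMul g M = 0) : g = 0 := by
  refine Matrix.eq_zero_of_vecMul_eq_zero hJ ?_
  funext l
  exact congrFun hg (J l)

private theorem li_row {F κ Ξ : Type} [Field F] [Fintype κ] (M : Matrix κ Ξ F)
    (h : ∀ g : κ → F, Matrix.vecMul g M = 0 → g = 0) : LinearIndependent F M.row := by
  rw [Fintype.linearIndependent_iff]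
  intro g hg i
  have h1 : Matrix.vecMul g M = 0 := by
    rw [Matrix.vecMul_eq_sum]
    exact hg
  rw [h g h1]
  rfl

omit [Fintype Ω] in
private theorem wm_mul {κ κ' : Type} [Fintype κ] (ww : (A →+* ℂ) → Ω → ℂ) (t : A →+* ℂ)
    (P : Matrix κ' κ A) (Y : Matrix κ Ω A) : wm ww t (P * Y) = P.map t * wm ww t Y := by
  ext k o
  simp only [wm, Matrix.of_apply, Matrix.mul_apply, Matrix.map_apply, map_sum, map_mul]
  rw [Finset.sum_mul]
  exact Finset.sum_congr rfl fun j _ => by ring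

omit [NumberField A] in
private theorem det_map {κ : Type} [Fintype κ] [DecidableEq κ] (t : A →+* ℂ)
    (P : Matrix κ κ A) : (P.map t).det = t P.det := by
  rw [← RingHom.mapMatrix_apply, ← RingHom.map_det]

private theorem hh_zero {κ : Type} [Fintype κ] [DecidableEq κ] (ww : (A →+* ℂ) → Ω → ℂ) (Y : Matrix κ Ω A)
    (hY : ∀ J : κ → Ω, (Y.submatrix id J).det = 0) : Hh ww Y = 0 := by
  have h1 : ¬ ∀ g : κ → A, Matrix.vecMul g Y = 0 → g = 0 := by
    intro h
    obtain ⟨J, hJ⟩ := ex_minor Y (li_row Y h)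
    exact hJ (hY J)
  push Not at h1
  obtain ⟨g, hg, hg0⟩ := h1
  have h2 : ∀ t : A →+* ℂ, gdt (wm ww t Y) = 0 := by
    intro t
    have h3 : (wm ww t Y * (wm ww t Y).conjTranspose).det = 0 := by
      refine Matrix.exists_vecMul_eq_zero_iff.1 ⟨fun k => t (g k), ?_, ?_⟩
      · intro h0
        apply hg0
        funext k
        exact (map_eq_zero t).1 (congrFun h0 k)
      · rw [← Matrix.vecMul_vecMul]
        have h4 : Matrix.vecMul (fun k => t (g k)) (wm ww t Y) = 0 := by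
          funext o
          have h5 := congrArg t (congrFun hg o)
          simp only [Matrix.vecMul, dotProduct, map_sum, map_mul, Pi.zero_apply, map_zero] at h5
          simp only [Matrix.vecMul, dotProduct, wm, Matrix.of_apply, Pi.zero_apply]
          rw [Finset.sum_congr rfl fun k _ => (mul_assoc (t (g k)) (t (Y k o)) (ww t o)).symm,
            ← Finset.sum_mul, h5, zero_mul]
        rw [h4, Matrix.zero_vecMul]
    unfold gdt
    rw [h3, Complex.zero_re]
  have hne : Nonempty (A →+* ℂ) := inferInstance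
  obtain ⟨t⟩ := hne
  unfold Hh
  rw [Finset.prod_eq_zero (Finset.mem_univ t) (h2 t), zero_mul]

theorem hh_inv {κ : Type} [Fintype κ] [DecidableEq κ] (ww : (A →+* ℂ) → Ω → ℂ) (Y : Matrix κ Ω A)
    (P : Matrix κ κ A) (hP : P.det ≠ 0) : Hh ww (P * Y) = Hh ww Y := by
  have hmin : ∀ J : κ → Ω, ((P * Y).submatrix id J).det = P.det * (Y.submatrix id J).det := by
    intro J
    rw [← Matrix.det_mul]
    rfl
  by_cases hJ : ∃ J : κ → Ω, (Y.submatrix id J).det ≠ 0
  · obtain ⟨J, hJ⟩ := hJ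
    have e2 : fm (P * Y) = (∏ᶠ v : FinitePlace A, v P.det) * fm Y := by
      unfold fm
      rw [← finprod_mul_distrib (FinitePlace.hasFiniteMulSupport hP) (fm_support Y J hJ)]
      refine finprod_congr fun v => ?_
      rw [Real.mul_iSup_of_nonneg (apply_nonneg v _)]
      simp only [hmin, map_mul]
    have e1 : ∏ t : A →+* ℂ, gdt (wm ww t (P * Y)) =
        (∏ t : A →+* ℂ, ‖t P.det‖) ^ 2 * ∏ t : A →+* ℂ, gdt (wm ww t Y) := by
      rw [← Finset.prod_pow, ← Finset.prod_mul_distrib]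
      refine Finset.prod_congr rfl fun t _ => ?_
      rw [wm_mul, gdt_mul, det_map]
    have h3 := prod_formula P.det hP
    unfold Hh
    rw [e1, e2]
    generalize (∏ t : A →+* ℂ, ‖t P.det‖) = x at h3 ⊢
    generalize (∏ᶠ v : FinitePlace A, v P.det) = y at h3 ⊢
    have h4 : (x * y) ^ 2 = 1 := by rw [h3, one_pow]
    linear_combination ((∏ t : A →+* ℂ, gdt (wm ww t Y)) * fm Y ^ 2) * h4
  · push Not at hJ
    rw [hh_zero ww Y hJ, hh_zero ww (P * Y) fun J => by rw [hmin, hJ, mul_zero]]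

theorem hh_reindex {κ κ' : Type} [Fintype κ] [DecidableEq κ] [Fintype κ'] [DecidableEq κ']
    (e : κ' ≃ κ) (ww : (A →+* ℂ) → Ω → ℂ) (Y : Matrix κ Ω A) : Hh ww (Y.submatrix e id) = Hh ww Y := by
  have h1 : ∀ t : A →+* ℂ, gdt (wm ww t (Y.submatrix e id)) = gdt (wm ww t Y) := by
    intro t
    unfold gdt
    have h2 : wm ww t (Y.submatrix e id) * (wm ww t (Y.submatrix e id)).conjTranspose =
        (wm ww t Y * (wm ww t Y).conjTranspose).submatrix e e := rfl
    rw [h2, Matrix.det_submatrix_equiv_self]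
  have h3 : fm (Y.submatrix e id) = fm Y := by
    unfold fm
    refine finprod_congr fun v => ?_
    refine Equiv.iSup_congr (e.arrowCongr (Equiv.refl Ω)) fun J => ?_
    have h4 : (Y.submatrix e id).submatrix id J =
        (Y.submatrix id (e.arrowCongr (Equiv.refl Ω) J)).submatrix e e := by
      ext k l
      simp [Equiv.arrowCongr]
    rw [h4, Matrix.det_submatrix_equiv_self]
  unfold Hh
  rw [h3, Finset.prod_congr rfl fun t _ => h1 t]

private theorem finprod_le {ι : Type*} (f g : ι → ℝ) (h0 : ∀ i, 0 ≤ f i) (h1 : ∀ i, f i ≤ g i)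
    (hf : (Function.mulSupport f).Finite) (hg : (Function.mulSupport g).Finite) :
    ∏ᶠ i, f i ≤ ∏ᶠ i, g i := by
  classical
  rw [finprod_eq_prod_of_mulSupport_subset f (s := hf.toFinset ∪ hg.toFinset) (fun i hi => by
      rw [Finset.coe_union, Set.mem_union]
      exact Or.inl (by simpa using hi)),
    finprod_eq_prod_of_mulSupport_subset g (s := hf.toFinset ∪ hg.toFinset) (fun i hi => by
      rw [Finset.coe_union, Set.mem_union]
      exact Or.inr (by simpa using hi))]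
  exact Finset.prod_le_prod (fun i _ => h0 i) fun i _ => h1 i

theorem cova {κ₁ κ₂ : Type} [Fintype κ₁] [DecidableEq κ₁] [Fintype κ₂] [DecidableEq κ₂]
    (ww : (A →+* ℂ) → Ω → ℂ) (hww : ∀ o, 1 ≤ ∏ t : A →+* ℂ, ‖ww t o‖) (Y : Matrix (κ₁ ⊕ κ₂) Ω A) (S : Set Ω)
    (hS : ∀ k, ∀ o ∈ S, Y (Sum.inl k) o = 0) (J₁ : κ₁ → Ω)
    (hJ₁ : (Y.submatrix Sum.inl J₁).det ≠ 0) (J₂ : κ₂ → Ω) (hJS : ∀ k, J₂ k ∈ S)
    (hJ₂ : (Y.submatrix Sum.inr J₂).det ≠ 0) :
    Hh ww (Y.submatrix Sum.inl id) ≤ Hh ww Y := by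
  obtain ⟨δ, hδ⟩ : ∃ δ, δ = (Y.submatrix Sum.inr J₂).det := ⟨_, rfl⟩
  have hδ0 : δ ≠ 0 := by
    rw [hδ]
    exact hJ₂
  obtain ⟨Y₁, hY₁⟩ : ∃ Y₁ : Matrix κ₁ Ω A, Y₁ = Y.submatrix Sum.inl id := ⟨_, rfl⟩
  have hmin : ∀ J : κ₁ → Ω, (Y.submatrix id (Sum.elim J J₂)).det = (Y₁.submatrix id J).det * δ := by
    intro J
    have h1 : Y.submatrix id (Sum.elim J J₂) = Matrix.fromBlocks (Y₁.submatrix id J) 0
        (Y.submatrix Sum.inr J) (Y.submatrix Sum.inr J₂) := by
      ext k l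
      rcases k with k | k <;> rcases l with l | l
      · rw [hY₁]
        rfl
      · exact hS k _ (hJS l)
      · rfl
      · rfl
    rw [h1, Matrix.det_fromBlocks_zero₁₂, hδ]
  have hJ1' : (Y₁.submatrix id J₁).det ≠ 0 := by
    rw [hY₁]
    exact hJ₁
  -- the finite places
  have hfin : fm Y₁ * ∏ᶠ v : FinitePlace A, v δ ≤ fm Y := by
    have hs1 := fm_support Y₁ J₁ hJ1'
    have hs2 : (Function.mulSupport fun v : FinitePlace A => v δ).Finite :=
      FinitePlace.hasFiniteMulSupport hδ0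
    have hs3 := fm_support Y (Sum.elim J₁ J₂) (by rw [hmin]; exact mul_ne_zero hJ1' hδ0)
    unfold fm
    rw [← finprod_mul_distrib hs1 hs2]
    refine finprod_le _ _ (fun v => mul_nonneg (Real.iSup_nonneg fun J => apply_nonneg v _)
      (apply_nonneg v _)) (fun v => ?_) ((hs1.union hs2).subset (Function.mulSupport_mul _ _)) hs3
    have hne : Nonempty (κ₁ → Ω) := ⟨J₁⟩
    obtain ⟨J, hJ⟩ := exists_eq_ciSup_of_finite (f := fun J : κ₁ → Ω => v ((Y₁.submatrix id J).det))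
    rw [← hJ, ← map_mul, ← hmin]
    exact le_ciSup (f := fun J : κ₁ ⊕ κ₂ → Ω => v ((Y.submatrix id J).det))
      (Set.finite_range _).bddAbove (Sum.elim J J₂)
  -- the infinite places
  have hinf : ∀ t : A →+* ℂ, gdt (wm ww t Y₁) * ((∏ l, ‖ww t (J₂ l)‖) * ‖t δ‖) ^ 2 ≤
      gdt (wm ww t Y) := by
    intro t
    have h1 : wm ww t Y = Matrix.fromRows (wm ww t Y₁) (wm ww t (Y.submatrix Sum.inr id)) := by
      ext k o
      rcases k with k | k
      · rw [hY₁]
        rfl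
      · rfl
    rw [h1]
    refine le_trans ?_ (gdt_rows _ _ J₂ fun k l => ?_)
    · refine mul_le_mul_of_nonneg_left (le_of_eq ?_) (gdt_nonneg _)
      have h2 : (wm ww t (Y.submatrix Sum.inr id)).submatrix id J₂ =
          Matrix.of fun k l => ww t (J₂ l) * ((Y.submatrix Sum.inr J₂).map t) k l := by
        ext k l
        simp only [wm, Matrix.submatrix_apply, Matrix.of_apply, Matrix.map_apply, id]
        ring
      rw [h2, Matrix.det_mul_row, det_map, ← hδ, norm_mul, norm_prod]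
    · have h4 : Y₁ k (J₂ l) = 0 := by
        rw [hY₁]
        exact hS k _ (hJS l)
      simp [wm, h4]
  have hpf := prod_formula δ hδ0
  have hG0 : 0 ≤ ∏ t : A →+* ℂ, gdt (wm ww t Y₁) := Finset.prod_nonneg fun t _ => gdt_nonneg _
  have hw1 : 1 ≤ ∏ t : A →+* ℂ, ∏ l, ‖ww t (J₂ l)‖ := by
    rw [Finset.prod_comm]
    exact Finset.prod_induction _ (fun z : ℝ => 1 ≤ z)
      (fun _ _ h1 h2 => one_le_mul_of_one_le_of_one_le h1 h2) le_rfl (fun l _ => hww _)
  have hG : (∏ t : A →+* ℂ, gdt (wm ww t Y₁)) * (∏ t : A →+* ℂ, ‖t δ‖) ^ 2 ≤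
      ∏ t : A →+* ℂ, gdt (wm ww t Y) := by
    calc (∏ t : A →+* ℂ, gdt (wm ww t Y₁)) * (∏ t : A →+* ℂ, ‖t δ‖) ^ 2 ≤
        (∏ t : A →+* ℂ, gdt (wm ww t Y₁)) *
          ((∏ t : A →+* ℂ, ∏ l, ‖ww t (J₂ l)‖) * ∏ t : A →+* ℂ, ‖t δ‖) ^ 2 := by
          have h5 : 0 ≤ ∏ t : A →+* ℂ, ‖t δ‖ := Finset.prod_nonneg fun t _ => norm_nonneg _
          exact mul_le_mul_of_nonneg_left
            (pow_le_pow_left₀ h5 (le_mul_of_one_le_left h5 hw1) 2) hG0
      _ = ∏ t : A →+* ℂ, gdt (wm ww t Y₁) * ((∏ l, ‖ww t (J₂ l)‖) * ‖t δ‖) ^ 2 := by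
          rw [← Finset.prod_mul_distrib, ← Finset.prod_pow, ← Finset.prod_mul_distrib]
      _ ≤ _ := Finset.prod_le_prod (fun t _ => mul_nonneg (gdt_nonneg _) (by positivity))
          fun t _ => hinf t
  have hf0 : 0 ≤ fm Y₁ := by
    unfold fm
    exact finprod_nonneg fun v => Real.iSup_nonneg fun J => apply_nonneg v _
  have hb0 : 0 ≤ ∏ᶠ v : FinitePlace A, v δ := finprod_nonneg fun v => apply_nonneg v _
  rw [← hY₁]
  unfold Hh
  generalize (∏ t : A →+* ℂ, ‖t δ‖) = x at hpf hG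
  generalize (∏ᶠ v : FinitePlace A, v δ) = y at hpf hfin hb0
  calc (∏ t : A →+* ℂ, gdt (wm ww t Y₁)) * fm Y₁ ^ 2 =
      ((∏ t : A →+* ℂ, gdt (wm ww t Y₁)) * x ^ 2) * (fm Y₁ * y) ^ 2 := by
        have h4 : (x * y) ^ 2 = 1 := by rw [hpf, one_pow]
        linear_combination -((∏ t : A →+* ℂ, gdt (wm ww t Y₁)) * fm Y₁ ^ 2) * h4
    _ ≤ (∏ t : A →+* ℂ, gdt (wm ww t Y)) * fm Y ^ 2 := by
        refine mul_le_mul hG (pow_le_pow_left₀ (mul_nonneg hf0 hb0) hfin 2) (by positivity) ?_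
        exact (mul_nonneg hG0 (by positivity)).trans hG

/-- Form used below: the row space of `Y₁` is the set of all `g Y` which vanish on `S`. -/
theorem cova' {κ κ₁ : Type} [Fintype κ] [DecidableEq κ] [Fintype κ₁] [DecidableEq κ₁]
    (ww : (A →+* ℂ) → Ω → ℂ) (hww : ∀ o, 1 ≤ ∏ t : A →+* ℂ, ‖ww t o‖) (Y : Matrix κ Ω A) (S : Set Ω)
    (hY : ∃ J : κ → Ω, (Y.submatrix id J).det ≠ 0) (E : Matrix κ₁ κ A)
    (hE : LinearIndependent A E.row) (hS : ∀ k, ∀ o ∈ S, (E * Y) k o = 0)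
    (hB : ∀ g : κ → A, (∀ o ∈ S, Matrix.vecMul g Y o = 0) →
      g ∈ Submodule.span A (Set.range E.row)) :
    Hh ww (E * Y) ≤ Hh ww Y := by
  classical
  obtain ⟨J, hJ⟩ := hY
  obtain ⟨W, hW⟩ : ∃ W, W = Submodule.span A (Set.range E.row) := ⟨_, rfl⟩
  obtain ⟨W', hWW⟩ := Submodule.exists_isCompl W
  obtain ⟨n, hn⟩ : ∃ n, n = Module.finrank A W' := ⟨_, rfl⟩
  let b := Module.finBasisOfFinrankEq A W' hn.symm
  have hbl : LinearIndependent A (fun j : Fin n => ((b j : W') : κ → A)) :=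
    b.linearIndependent.map' W'.subtype W'.ker_subtype
  have hbs : Submodule.span A (Set.range fun j : Fin n => ((b j : W') : κ → A)) ≤ W' := by
    rw [Submodule.span_le]
    rintro _ ⟨j, rfl⟩
    exact (b j).2
  have hli : LinearIndependent A (Sum.elim E.row fun j : Fin n => ((b j : W') : κ → A)) := by
    refine hE.sum_type hbl ?_
    rw [← hW]
    exact hWW.disjoint.mono_right hbs
  have hcard : Fintype.card (κ₁ ⊕ Fin n) = Fintype.card κ := by
    have h1 := Submodule.finrank_add_eq_of_isCompl hWW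
    rw [hW, finrank_span_eq_card hE, ← hn, Module.finrank_fintype_fun_eq_card] at h1
    rw [Fintype.card_sum, Fintype.card_fin, h1]
  let e : κ₁ ⊕ Fin n ≃ κ := Fintype.equivOfCardEq hcard
  obtain ⟨P, hP⟩ : ∃ P : Matrix (κ₁ ⊕ Fin n) κ A, P = Matrix.of (Sum.elim E.row fun j : Fin n =>
    ((b j : W') : κ → A)) := ⟨_, rfl⟩
  have hPli : LinearIndependent A P.row := by
    rw [hP]
    exact hli
  have hPd : (P.submatrix e.symm id).det ≠ 0 := by
    have h2 : LinearIndependent A (P.submatrix e.symm id).row := hPli.comp e.symm e.symm.injective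
    rw [Matrix.linearIndependent_rows_iff_isUnit, Matrix.isUnit_iff_isUnit_det] at h2
    exact h2.ne_zero
  have hH : Hh ww (P * Y) = Hh ww Y := by
    rw [← hh_inv ww Y _ hPd, ← hh_reindex e ww (P.submatrix e.symm id * Y)]
    congr 1
    ext k o
    simp only [Matrix.submatrix_apply, Matrix.mul_apply, id, Equiv.symm_apply_apply]
  have hPY1 : ∀ k o, (P * Y) (Sum.inl k) o = (E * Y) k o := by
    intro k o
    rw [hP]
    rfl
  have hE1 : (P * Y).submatrix Sum.inl id = E * Y := by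
    ext k o
    exact hPY1 k o
  have hinj : ∀ g : κ → A, Matrix.vecMul g Y = 0 → g = 0 := li_of_minor Y J hJ
  -- a minor of the first rows
  obtain ⟨J₁, hJ₁⟩ := ex_minor (E * Y) (li_row _ fun g hg => by
    rw [← Matrix.vecMul_vecMul] at hg
    have h1 := hinj _ hg
    rw [Matrix.vecMul_eq_sum] at h1
    funext k
    exact Fintype.linearIndependent_iff.1 hE g h1 k)
  -- a minor of the last rows with columns in `S`
  obtain ⟨J₂, hJ₂⟩ := ex_minor ((P * Y).submatrix (Sum.inr : Fin n → κ₁ ⊕ Fin n) (Subtype.val : S → Ω))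
    (li_row _ fun g hg => by
      obtain ⟨c, hc⟩ : ∃ c : κ → A, c = ∑ j, g j • ((b j : W') : κ → A) := ⟨_, rfl⟩
      have hcW' : c ∈ W' := by
        rw [hc]
        exact W'.sum_mem fun j _ => W'.smul_mem _ (b j).2
      have hcW : c ∈ W := by
        rw [hW]
        refine hB c fun o ho => ?_
        have h1 := congrFun hg ⟨o, ho⟩
        rw [hc, Matrix.sum_vecMul, Finset.sum_apply]
        simp only [Matrix.vecMul, dotProduct, Matrix.submatrix_apply, Pi.zero_apply] at h1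
        rw [← h1]
        refine Finset.sum_congr rfl fun j _ => ?_
        rw [Matrix.smul_vecMul, Pi.smul_apply, smul_eq_mul, hP]
        rfl
      have hc0 : c = 0 := by
        have h2 := hWW.disjoint.le_bot ⟨hcW, hcW'⟩
        exact (Submodule.mem_bot A).1 h2
      funext j
      exact Fintype.linearIndependent_iff.1 hbl g (hc ▸ hc0) j)
  rw [← hH, ← hE1]
  refine cova ww hww (P * Y) S (fun k o ho => by rw [hPY1]; exact hS k o ho) J₁ ?_
    (fun k => (J₂ k : Ω)) (fun k => (J₂ k).2) hJ₂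
  rw [← hE1] at hJ₁
  exact hJ₁

end Pool.Agent.H72.BK
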