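import Mathlib

/-!
# Pigeonhole in the ring of integers (MP_187c26_nt, Theorem VK, S3 and S4)

Model (over `ℤ`): `Pool/Agent/H72/BD/Ph.lean`. `D = [K : ℚ]`, `N = N(𝔮)`, `Λ = {s ∈ 𝓞 K ^ (R + 1) | s_j ≡ s_0 β_j mod 𝔮 for all j}`, `β_0 = 1`.

CONSTANT. `ω = NumberField.RingOfIntegers.basis K` (or `integralBasis`), indexed by a finite type of cardinality `D`; `W ≥ 1` a natural number with `∑ i, ‖τ (ω_i)‖ ≤ W` for all `τ : K →+* ℂ`.
BOX. `S' = S / W` (natural division), so `W S' ≤ S`, `S + 1 ≤ W (S' + 1)`. `pt x = ∑ i, x_i ω_i` for `x : ι → Fin (S' + 1)`: the difference of two such elements has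
all conjugates `≤ S' W ≤ S`, and `pt` is injective. `X = C ^ R W ^ (R + 1)`.
PIGEONHOLE. The map `(Fin (R + 1) → ι → Fin (S' + 1)) → (Fin R → 𝓞 K ⧸ 𝔮)`, `x ↦ (pt x_j - pt x_0 β_j mod 𝔮)_(j ≥ 1)`; `#(𝓞 K ⧸ 𝔮) = N` (`Ideal.absNorm_apply`, `Submodule.cardQuot_apply`;
finite because `N ≠ 0`: `(S C) ^ D < N`). For every `g` with `g X < S + 1`: `N ^ R g ^ D < ((S' + 1) ^ D) ^ (R + 1)`, because `N ^ R ≤ ((S + 1) C) ^ (D R)` and
`(((S + 1) C) ^ R g) W ^ (R + 1) < (S + 1) ^ (R + 1) ≤ (S' + 1) ^ (R + 1) W ^ (R + 1)`.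
`s_0 ≠ 0` for `0 ≠ s ∈ Λ` with conjugates `≤ S`: otherwise `s_j ∈ 𝔮` for all `j`; `s_j ≠ 0` gives `N ≤ |Norm (s_j)| = ∏_τ ‖τ (s_j)‖ ≤ S ^ D ≤ (S C) ^ D < N`
(`Ideal.absNorm_dvd_norm_of_mem`, `Algebra.norm` as the product over the embeddings: `Algebra.norm_eq_prod_embeddings`; see `Pool/Agent/H72/BK/Co.lean`).
PROOF of `ph1K`: `g = 1`, the difference of two points with the same image.
PROOF of `ph2K`: `g = S / X ≥ 1`, `S < (g + 1) X ≤ 2 g X`. Some fibre has more than `g ^ D` points (`Fintype.exists_lt_card_fiber_of_mul_lt_card`); fix `x0` in it and `x1 ≠ x0`, `t = x1 - x0 ∈ Λ`,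
`t_0 ≠ 0`. For every infinite place `w` choose `j(w)` with `w (t_j)` maximal for `j = j(w)`. For `x` in the fibre let `y_w = w.embedding (x_(j(w)) - x0_(j(w)))`, `|y_w| ≤ S`; cells:
`⌊(re y_w + S) g / (2 S + 1)⌋ < g` for all `w`, and the same with `im` for the complex `w`: `g ^ (r1 + 2 r2) = g ^ D` cells (`NumberField.InfinitePlace.card_add_two_mul_card_eq_rank`; for real `w`
`im y_w = 0`). Two different `x, x'` of the fibre are in the same cell: `u = x - x' ∈ Λ`, `u ≠ 0`, conjugates `≤ S`, `|re|, |im|` of `w.embedding (u_(j(w)))` are `< (2 S + 1) / g ≤ 3 S / g < 6 X`, so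
`w (u_(j(w))) ≤ 9 X`. `hprop` for `u`, `t`: `u_j t_0 = u_0 t_j`, so `w (u_j) ≤ w (u_(j(w))) ≤ 9 X` for all `j` and `w`; every `τ` has `‖τ y‖ = w y` for `w = InfinitePlace.mk τ`.
-/

set_option autoImplicit false

open NumberField

namespace Pool.Agent.H72.BK


private theorem nrm_le {K : Type} [Field K] [NumberField K] (y : 𝓞 K) (B : ℝ)
    (h : ∀ τ : K →+* ℂ, ‖τ y‖ ≤ B) :
    |((Algebra.norm ℤ y : ℤ) : ℝ)| ≤ B ^ Module.finrank ℚ K := by
  have h1 : ((Algebra.norm ℤ y : ℤ) : ℂ) = ∏ σ : K →ₐ[ℚ] ℂ, σ (y : K) := by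
    rw [← Algebra.norm_eq_prod_embeddings ℚ ℂ (y : K), ← Algebra.coe_norm_int]
    simp
  have h2 : |((Algebra.norm ℤ y : ℤ) : ℝ)| = ∏ σ : K →ₐ[ℚ] ℂ, ‖σ (y : K)‖ := by
    rw [← norm_prod, ← h1, Complex.norm_intCast]
  rw [h2]
  have h3 : ∏ σ : K →ₐ[ℚ] ℂ, ‖σ (y : K)‖ ≤ ∏ _σ : K →ₐ[ℚ] ℂ, B :=
    Finset.prod_le_prod (fun _ _ => norm_nonneg _) fun σ _ => h σ.toRingHom
  rwa [Finset.prod_const, Finset.card_univ, AlgHom.card] at h3

private theorem small0 {K : Type} [Field K] [NumberField K] (𝔮 : Ideal (𝓞 K)) (S : ℕ)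
    (h : S ^ Module.finrank ℚ K < Ideal.absNorm 𝔮) (s : 𝓞 K) (hs : s ∈ 𝔮)
    (hS : ∀ τ : K →+* ℂ, ‖τ s‖ ≤ S) : s = 0 := by
  by_contra hne
  have h1 : ((Ideal.absNorm 𝔮 : ℕ) : ℤ) ∣ Algebra.norm ℤ s := Ideal.absNorm_dvd_norm_of_mem hs
  have h2 : Algebra.norm ℤ s ≠ 0 := Algebra.norm_ne_zero_iff.2 hne
  have h3 : ((Ideal.absNorm 𝔮 : ℕ) : ℤ) ≤ |Algebra.norm ℤ s| :=
    Int.le_of_dvd (abs_pos.2 h2) ((dvd_abs _ _).2 h1)
  have h4 := nrm_le s S hS
  have h5 : ((Ideal.absNorm 𝔮 : ℕ) : ℝ) ≤ |((Algebra.norm ℤ s : ℤ) : ℝ)| := by exact_mod_cast h3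
  have h6 : ((S ^ Module.finrank ℚ K : ℕ) : ℝ) < ((Ideal.absNorm 𝔮 : ℕ) : ℝ) := by exact_mod_cast h
  push_cast at h6
  linarith

/-- the cells -/
private noncomputable def cel (S g : ℕ) (y : ℝ) : ℕ := ⌊(y + S) * g / (2 * S + 1)⌋₊

private theorem cel_lt {S g : ℕ} (hg : 0 < g) {y : ℝ} (hy : |y| ≤ S) : cel S g y < g := by
  have h1 := abs_le.1 hy
  have hg' : (0 : ℝ) < g := Nat.cast_pos.2 hg
  have hS : (0 : ℝ) ≤ S := Nat.cast_nonneg S
  unfold cel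
  rw [Nat.floor_lt (by
    have h2 : (0 : ℝ) ≤ y + S := by linarith
    positivity), div_lt_iff₀ (by linarith)]
  have h3 : (y + S) < 2 * S + 1 := by linarith
  nlinarith

private theorem cel_eq {S g : ℕ} {y y' : ℝ} (hy : |y| ≤ S) (hy' : |y'| ≤ S)
    (h : cel S g y = cel S g y') : |y - y'| * g < 2 * S + 1 := by
  have h1 := abs_le.1 hy
  have h1' := abs_le.1 hy'
  have hS : (0 : ℝ) ≤ S := Nat.cast_nonneg S
  have hp : (0 : ℝ) < 2 * S + 1 := by linarith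
  have hg : (0 : ℝ) ≤ g := Nat.cast_nonneg g
  have a1 : (0 : ℝ) ≤ (y + S) * g / (2 * S + 1) := by
    have h2 : (0 : ℝ) ≤ y + S := by linarith
    positivity
  have a2 : (0 : ℝ) ≤ (y' + S) * g / (2 * S + 1) := by
    have h2 : (0 : ℝ) ≤ y' + S := by linarith
    positivity
  have b1 := Nat.floor_le a1
  have b2 := Nat.floor_le a2
  have c1 := Nat.lt_floor_add_one ((y + S) * g / (2 * S + 1))
  have c2 := Nat.lt_floor_add_one ((y' + S) * g / (2 * S + 1))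
  have h' : ((⌊(y + S) * g / (2 * S + 1)⌋₊ : ℕ) : ℝ) = ((⌊(y' + S) * g / (2 * S + 1)⌋₊ : ℕ) : ℝ) :=
    congrArg Nat.cast h
  rw [h'] at b1 c1
  have e1 : (y + S) * g / (2 * S + 1) - (y' + S) * g / (2 * S + 1) = (y - y') * g / (2 * S + 1) := by
    ring
  have e2 : |(y - y') * g / (2 * S + 1)| < 1 := by
    rw [← e1, abs_lt]
    constructor <;> linarith
  rw [abs_div, abs_mul, abs_of_nonneg hg, abs_of_pos hp, div_lt_one hp] at e2
  exact e2

private theorem count {C W R D S g N : ℕ} (hW : 1 ≤ W) (hD : 1 ≤ D)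
    (hN : N ≤ ((S + 1) * C) ^ D) (hg : g * (C ^ R * W ^ (R + 1)) < S + 1) :
    N ^ R * g ^ D < ((S / W + 1) ^ D) ^ (R + 1) := by
  have h1 : N ^ R ≤ (((S + 1) * C) ^ D) ^ R := Nat.pow_le_pow_left hN R
  have h0 : S + 1 ≤ W * (S / W + 1) := Nat.lt_mul_div_succ S (by omega)
  have h2 : ((S + 1) * C) ^ R * g < (S / W + 1) ^ (R + 1) := by
    refine Nat.lt_of_mul_lt_mul_left (a := W ^ (R + 1)) ?_
    calc W ^ (R + 1) * (((S + 1) * C) ^ R * g) = (S + 1) ^ R * (g * (C ^ R * W ^ (R + 1))) := by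
          rw [mul_pow]
          ring
      _ < (S + 1) ^ R * (S + 1) := Nat.mul_lt_mul_of_pos_left hg (by positivity)
      _ = (S + 1) ^ (R + 1) := (pow_succ _ _).symm
      _ ≤ (W * (S / W + 1)) ^ (R + 1) := Nat.pow_le_pow_left h0 _
      _ = W ^ (R + 1) * (S / W + 1) ^ (R + 1) := mul_pow _ _ _
  calc N ^ R * g ^ D ≤ (((S + 1) * C) ^ D) ^ R * g ^ D := Nat.mul_le_mul_right _ h1
    _ = (((S + 1) * C) ^ R * g) ^ D := by
      rw [← pow_mul, mul_comm D R, pow_mul, ← mul_pow]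
    _ < ((S / W + 1) ^ (R + 1)) ^ D := Nat.pow_lt_pow_left h2 (by omega)
    _ = ((S / W + 1) ^ D) ^ (R + 1) := by rw [← pow_mul, mul_comm, pow_mul]

private theorem norm9 {S g X : ℕ} (hS : 1 ≤ S) (hg : 0 < g) (hSg : S < 2 * g * X) {z : ℂ}
    (h1 : |z.re| * g < 2 * S + 1) (h2 : |z.im| * g < 2 * S + 1) : ‖z‖ ≤ 9 * X := by
  have hg' : (0 : ℝ) < g := Nat.cast_pos.2 hg
  have hX : (0 : ℝ) ≤ X := Nat.cast_nonneg X
  have hS' : (1 : ℝ) ≤ S := by exact_mod_cast hS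
  have h3 : (S : ℝ) < 2 * g * X := by exact_mod_cast hSg
  have r1 : |z.re| ≤ 6 * X := by
    refine le_of_lt (lt_of_mul_lt_mul_right (a := (g : ℝ)) ?_ hg'.le)
    nlinarith
  have r2 : |z.im| ≤ 6 * X := by
    refine le_of_lt (lt_of_mul_lt_mul_right (a := (g : ℝ)) ?_ hg'.le)
    nlinarith
  refine le_of_sq_le_sq ?_ (by positivity)
  rw [Complex.sq_norm, Complex.normSq_apply, ← sq, ← sq, ← sq_abs z.re, ← sq_abs z.im]
  have q1 : |z.re| ^ 2 ≤ (6 * X) ^ 2 := pow_le_pow_left₀ (abs_nonneg _) r1 2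
  have q2 : |z.im| ^ 2 ≤ (6 * X) ^ 2 := pow_le_pow_left₀ (abs_nonneg _) r2 2
  nlinarith


/-- the box -/
private theorem box (K : Type) [Field K] [NumberField K] : ∃ W : ℕ, 1 ≤ W ∧
    ∀ T : ℕ, ∃ pt : (Module.Free.ChooseBasisIndex ℤ (𝓞 K) → Fin (T + 1)) → 𝓞 K,
      Function.Injective pt ∧
      ∀ x y (τ : K →+* ℂ), ‖τ ((pt x - pt y : 𝓞 K) : K)‖ ≤ (T * W : ℕ) := by
  classical
  refine ⟨⌈∑ τ : K →+* ℂ, ∑ i, ‖τ (RingOfIntegers.basis K i : K)‖⌉₊ + 1, by omega, fun T => ?_⟩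
  refine ⟨fun x => ∑ i, (((x i : ℕ) : ℤ)) • RingOfIntegers.basis K i, ?_, ?_⟩
  · intro x y h
    have h1 := Fintype.linearIndependent_iff.1 (RingOfIntegers.basis K).linearIndependent
      (fun i => ((x i : ℕ) : ℤ) - ((y i : ℕ) : ℤ)) (by
        simp only [sub_smul, Finset.sum_sub_distrib]
        exact sub_eq_zero.2 h)
    funext i
    have h2 := h1 i
    exact Fin.ext (by omega)
  · intro x y τ
    have e : ((∑ i, (((x i : ℕ) : ℤ)) • RingOfIntegers.basis K i -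
        ∑ i, (((y i : ℕ) : ℤ)) • RingOfIntegers.basis K i : 𝓞 K) : K) =
        ∑ i, ((((x i : ℕ) : ℤ) - ((y i : ℕ) : ℤ) : ℤ) : K) * (RingOfIntegers.basis K i : K) := by
      rw [← Finset.sum_sub_distrib]
      refine (map_sum (algebraMap (𝓞 K) K) _ _).trans ?_
      refine Finset.sum_congr rfl fun i _ => ?_
      rw [← sub_smul, zsmul_eq_mul, map_mul, map_intCast]
    rw [e, map_sum]
    refine (norm_sum_le _ _).trans ?_
    have h1 : ∀ i, ‖τ (((((x i : ℕ) : ℤ) - ((y i : ℕ) : ℤ) : ℤ) : K) *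
        (RingOfIntegers.basis K i : K))‖ ≤ T * ‖τ (RingOfIntegers.basis K i : K)‖ := by
      intro i
      rw [map_mul, norm_mul, map_intCast, Complex.norm_intCast]
      refine mul_le_mul_of_nonneg_right ?_ (norm_nonneg _)
      have a1 := (x i).2
      have a2 := (y i).2
      have a3 : |((x i : ℕ) : ℤ) - ((y i : ℕ) : ℤ)| ≤ (T : ℤ) := by
        rw [abs_le]
        omega
      exact_mod_cast a3
    refine (Finset.sum_le_sum fun i _ => h1 i).trans ?_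
    rw [← Finset.mul_sum]
    push_cast
    refine mul_le_mul_of_nonneg_left ?_ (Nat.cast_nonneg T)
    have h2 : ∑ i, ‖τ (RingOfIntegers.basis K i : K)‖ ≤
        ∑ τ : K →+* ℂ, ∑ i, ‖τ (RingOfIntegers.basis K i : K)‖ :=
      Finset.single_le_sum (f := fun τ : K →+* ℂ => ∑ i, ‖τ (RingOfIntegers.basis K i : K)‖)
        (fun _ _ => Finset.sum_nonneg fun _ _ => norm_nonneg _) (Finset.mem_univ τ)
    have h3 := Nat.le_ceil (∑ τ : K →+* ℂ, ∑ i, ‖τ (RingOfIntegers.basis K i : K)‖)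
    linarith

theorem phK (K : Type) [Field K] [NumberField K] : ∃ W : ℕ, 1 ≤ W ∧
    ∀ (R : ℕ) (𝔮 : Ideal (𝓞 K)) (C S : ℕ), 1 ≤ C →
    (S * C) ^ Module.finrank ℚ K < Ideal.absNorm 𝔮 →
    Ideal.absNorm 𝔮 ≤ ((S + 1) * C) ^ Module.finrank ℚ K →
    2 * (C ^ R * W ^ (R + 1)) ≤ S →
    ∀ β : Fin (R + 1) → 𝓞 K, β 0 = 1 →
    (∃ s : Fin (R + 1) → 𝓞 K, s ≠ 0 ∧ (∀ j, s j - s 0 * β j ∈ 𝔮) ∧
      ∀ j (τ : K →+* ℂ), ‖τ (s j)‖ ≤ S) ∧
    ((∀ s s' : Fin (R + 1) → 𝓞 K, (∀ j, s j - s 0 * β j ∈ 𝔮) →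
      (∀ j (τ : K →+* ℂ), ‖τ (s j)‖ ≤ S) → (∀ j, s' j - s' 0 * β j ∈ 𝔮) →
      (∀ j (τ : K →+* ℂ), ‖τ (s' j)‖ ≤ S) → ∀ j, s' 0 * s j = s 0 * s' j) →
      ∃ s : Fin (R + 1) → 𝓞 K, s ≠ 0 ∧ (∀ j, s j - s 0 * β j ∈ 𝔮) ∧
        ∀ j (τ : K →+* ℂ), ‖τ (s j)‖ ≤ (9 * (C ^ R * W ^ (R + 1)) : ℕ)) := by
  classical
  obtain ⟨W, hW, hbox⟩ := box K
  refine ⟨W, hW, fun R 𝔮 C S hC h1 h2 h3 β hβ => ?_⟩
  have hD1 : 1 ≤ Module.finrank ℚ K := Module.finrank_pos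
  have hcard : Fintype.card (Module.Free.ChooseBasisIndex ℤ (𝓞 K)) = Module.finrank ℚ K := by
    rw [← Module.finrank_eq_card_chooseBasisIndex, RingOfIntegers.rank]
  obtain ⟨pt, hinj, hpt⟩ := hbox (S / W)
  have hTW : S / W * W ≤ S := Nat.div_mul_le_self S W
  have hpt' : ∀ x y (τ : K →+* ℂ), ‖τ ((pt x - pt y : 𝓞 K) : K)‖ ≤ S := fun x y τ =>
    (hpt x y τ).trans (by exact_mod_cast hTW)
  have hcount := count (C := C) (W := W) (R := R) (D := Module.finrank ℚ K) (S := S)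
    (N := Ideal.absNorm 𝔮) (g := S / (C ^ R * W ^ (R + 1))) hW hD1 h2
    (Nat.lt_succ_of_le (Nat.div_mul_le_self _ _))
  have hX1 : 0 < C ^ R * W ^ (R + 1) := by positivity
  generalize hX : C ^ R * W ^ (R + 1) = X at *
  have hS1 : 1 ≤ S := by omega
  have hg1 : 1 ≤ S / X := (Nat.one_le_div_iff hX1).2 (by omega)
  have hSg : S < 2 * (S / X) * X := by
    have h4 := Nat.lt_mul_div_succ S hX1
    nlinarith
  generalize hg : S / X = g at *
  have hsm : S ^ Module.finrank ℚ K < Ideal.absNorm 𝔮 :=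
    lt_of_le_of_lt (Nat.pow_le_pow_left (Nat.le_mul_of_pos_right S (by omega)) _) h1
  have hq0 : Nat.card (𝓞 K ⧸ 𝔮) = Ideal.absNorm 𝔮 := by
    rw [Ideal.absNorm_apply, Submodule.cardQuot_apply]
  have hfin : Finite (𝓞 K ⧸ 𝔮) := Nat.finite_of_card_ne_zero (by omega)
  let _ : Fintype (𝓞 K ⧸ 𝔮) := Fintype.ofFinite _
  have hq : Fintype.card (𝓞 K ⧸ 𝔮) = Ideal.absNorm 𝔮 := by
    rw [← Nat.card_eq_fintype_card, hq0]
  obtain ⟨y, hy⟩ := Fintype.exists_lt_card_fiber_of_mul_lt_card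
    (f := fun (x : Fin (R + 1) → Module.Free.ChooseBasisIndex ℤ (𝓞 K) → Fin (S / W + 1))
      (j : Fin R) => Ideal.Quotient.mk 𝔮 (pt (x j.succ) - pt (x 0) * β j.succ))
    (n := g ^ Module.finrank ℚ K) (by
      rw [Fintype.card_fun, Fintype.card_fun, Fintype.card_fun, Fintype.card_fin,
        Fintype.card_fin, Fintype.card_fin, hcard, hq]
      exact hcount)
  generalize hs : (Finset.univ.filter fun
    (x : Fin (R + 1) → Module.Free.ChooseBasisIndex ℤ (𝓞 K) → Fin (S / W + 1)) =>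
    (fun (j : Fin R) => Ideal.Quotient.mk 𝔮 (pt (x j.succ) - pt (x 0) * β j.succ)) = y) = s at hy
  have hdiff : ∀ x ∈ s, ∀ x' ∈ s, ∀ j, (pt (x j) - pt (x' j)) - (pt (x 0) - pt (x' 0)) * β j ∈ 𝔮 := by
    intro x hx x' hx' j
    rw [← hs, Finset.mem_filter] at hx hx'
    refine Fin.cases ?_ (fun i => ?_) j
    · rw [hβ, mul_one, sub_self]
      exact 𝔮.zero_mem
    · have h5 := congrFun (hx.2.trans hx'.2.symm) i
      have h6 := Ideal.Quotient.eq.1 h5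
      have h7 : (pt (x i.succ) - pt (x' i.succ)) - (pt (x 0) - pt (x' 0)) * β i.succ =
        (pt (x i.succ) - pt (x 0) * β i.succ) - (pt (x' i.succ) - pt (x' 0) * β i.succ) := by ring
      rw [h7]
      exact h6
  have hne : ∀ x x' : Fin (R + 1) → Module.Free.ChooseBasisIndex ℤ (𝓞 K) → Fin (S / W + 1),
      x ≠ x' → (fun j => pt (x j) - pt (x' j)) ≠ 0 := by
    intro x x' hxx h0
    exact hxx (funext fun j => hinj (sub_eq_zero.1 (congrFun h0 j)))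
  have hs1 : 1 < s.card := lt_of_le_of_lt (Nat.one_le_pow _ _ hg1) hy
  obtain ⟨x0, hx0, x1, hx1, h01⟩ := Finset.one_lt_card.1 hs1
  refine ⟨⟨fun j => pt (x0 j) - pt (x1 j), hne x0 x1 h01, hdiff x0 hx0 x1 hx1, fun j τ => hpt' _ _ τ⟩,
    fun hprop => ?_⟩
  obtain ⟨t, ht⟩ : ∃ t : Fin (R + 1) → 𝓞 K, t = fun j => pt (x1 j) - pt (x0 j) := ⟨_, rfl⟩
  have htd : ∀ j, t j - t 0 * β j ∈ 𝔮 := by
    rw [ht]
    exact hdiff x1 hx1 x0 hx0
  have htS : ∀ j (τ : K →+* ℂ), ‖τ (t j)‖ ≤ S := by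
    rw [ht]
    exact fun j τ => hpt' _ _ τ
  have ht0 : t 0 ≠ 0 := by
    intro h0
    refine hne x1 x0 h01.symm ?_
    rw [← ht]
    funext j
    refine small0 𝔮 S hsm (t j) ?_ (htS j)
    have h5 := htd j
    rwa [h0, zero_mul, sub_zero] at h5
  have hj : ∀ w : InfinitePlace K, ∃ j, ∀ i, w (t i : K) ≤ w (t j : K) := fun w =>
    Finite.exists_max (fun i => w (t i : K))
  choose jj hjj using hj
  obtain ⟨A, hA⟩ : ∃ A : InfinitePlace K →
      (Fin (R + 1) → Module.Free.ChooseBasisIndex ℤ (𝓞 K) → Fin (S / W + 1)) → ℂ,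
      A = fun w x => w.embedding ((pt (x (jj w)) - pt (x0 (jj w)) : 𝓞 K) : K) := ⟨_, rfl⟩
  have hAS : ∀ w x, ‖A w x‖ ≤ S := by
    rw [hA]
    exact fun w x => hpt' _ _ _
  have hc : Fintype.card ((InfinitePlace K → Fin g) × ({w : InfinitePlace K // w.IsComplex} → Fin g)) =
      g ^ Module.finrank ℚ K := by
    rw [Fintype.card_prod, Fintype.card_fun, Fintype.card_fun, Fintype.card_fin,
      ← pow_add]
    congr 1
    have e1 := InfinitePlace.card_eq_nrRealPlaces_add_nrComplexPlaces K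
    have e2 := InfinitePlace.card_add_two_mul_card_eq_rank K
    have e3 : InfinitePlace.nrComplexPlaces K =
      Fintype.card {w : InfinitePlace K // w.IsComplex} := rfl
    omega
  obtain ⟨x, hx, x', hx', hxx, he⟩ := Finset.exists_ne_map_eq_of_card_lt_of_maps_to (s := s)
    (t := (Finset.univ : Finset ((InfinitePlace K → Fin g) ×
      ({w : InfinitePlace K // w.IsComplex} → Fin g))))
    (f := fun x => (fun w => ⟨cel S g (A w x).re,
        cel_lt hg1 ((Complex.abs_re_le_norm _).trans (hAS w x))⟩,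
      fun w => ⟨cel S g (A w.1 x).im,
        cel_lt hg1 ((Complex.abs_im_le_norm _).trans (hAS w.1 x))⟩))
    (by rw [Finset.card_univ, hc]; exact hy) (fun _ _ => Finset.mem_univ _)
  obtain ⟨u, hu⟩ : ∃ u : Fin (R + 1) → 𝓞 K, u = fun j => pt (x j) - pt (x' j) := ⟨_, rfl⟩
  have hud : ∀ j, u j - u 0 * β j ∈ 𝔮 := by
    rw [hu]
    exact hdiff x hx x' hx'
  have huS : ∀ j (τ : K →+* ℂ), ‖τ (u j)‖ ≤ S := by
    rw [hu]
    exact fun j τ => hpt' _ _ τ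
  have hu0 : u ≠ 0 := by
    rw [hu]
    exact hne x x' hxx
  refine ⟨u, hu0, hud, fun j τ => ?_⟩
  have hw : ∀ w : InfinitePlace K, w (u (jj w) : K) ≤ 9 * X := by
    intro w
    have hAd : w.embedding (u (jj w) : K) = A w x - A w x' := by
      rw [hu, hA]
      simp only [← map_sub]
      congr 2
      ring
    rw [← InfinitePlace.norm_embedding_eq, hAd]
    have e1 := congrFun (congrArg Prod.fst he) w
    have e1' : cel S g (A w x).re = cel S g (A w x').re := congrArg Fin.val e1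
    refine norm9 hS1 hg1 hSg ?_ ?_
    · rw [Complex.sub_re]
      exact cel_eq ((Complex.abs_re_le_norm _).trans (hAS w x))
        ((Complex.abs_re_le_norm _).trans (hAS w x')) e1'
    · rcases w.isReal_or_isComplex with hr | hc'
      · have e2 : (A w x - A w x').im = 0 := by
          rw [← hAd]
          have e3 := InfinitePlace.isReal_iff.1 hr
          exact Complex.conj_eq_iff_im.1 (RingHom.congr_fun e3 (u (jj w) : K))
        rw [e2, abs_zero, zero_mul]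
        positivity
      · have e2 := congrFun (congrArg Prod.snd he) ⟨w, hc'⟩
        have e2' : cel S g (A w x).im = cel S g (A w x').im := congrArg Fin.val e2
        rw [Complex.sub_im]
        exact cel_eq ((Complex.abs_im_le_norm _).trans (hAS w x))
          ((Complex.abs_im_le_norm _).trans (hAS w x')) e2'
  have h8 : ‖τ (u j : K)‖ = InfinitePlace.mk τ (u j : K) := rfl
  have h9 := hprop u t hud huS htd htS j
  have h10 : ∀ (w : InfinitePlace K), w (t 0 : K) * w (u j : K) = w (u 0 : K) * w (t j : K) := by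
    intro w
    rw [← map_mul, ← map_mul, ← map_mul, ← map_mul, h9]
  have h11 := hprop u t hud huS htd htS
  have h12 : ∀ (w : InfinitePlace K) i, w (t 0 : K) * w (u i : K) = w (u 0 : K) * w (t i : K) := by
    intro w i
    rw [← map_mul, ← map_mul, ← map_mul, ← map_mul, h11 i]
  rw [h8]
  refine le_trans ?_ ((hw (InfinitePlace.mk τ)).trans (by push_cast; exact le_rfl))
  have h13 : 0 < InfinitePlace.mk τ (t 0 : K) :=
    (InfinitePlace.pos_iff).2 (by simpa using ht0)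
  refine le_of_mul_le_mul_left ?_ h13
  rw [h12, h12]
  exact mul_le_mul_of_nonneg_left (hjj _ j) (apply_nonneg _ _)

/-- A nonzero element of `𝔮` has a large conjugate. -/
theorem zero_of_small {K : Type} [Field K] [NumberField K] (𝔮 : Ideal (𝓞 K)) (S : ℕ)
    (h : S ^ Module.finrank ℚ K < Ideal.absNorm 𝔮) (s : 𝓞 K) (hs : s ∈ 𝔮)
    (hS : ∀ τ : K →+* ℂ, ‖τ s‖ ≤ S) : s = 0 :=
  small0 𝔮 S h s hs hS

end Pool.Agent.H72.BK
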