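import Pool.Agent.H72.BE.KronB
import Pool.Agent.H72.BK.Ph

/-!
# Kronecker type lemma in several dimensions over a number field (MP_187c26_nt, Theorem VK, S5)

Port of `Pool/Agent/H72/BE/KronA.lean`, `KronB.lean`: `walk_r`, `dirichlet_r` are those of `BE`; the integers modulo `q` are replaced by `𝓞 K` modulo a prime
ideal `𝔮`, the pairwise coprime `b_i ≥ 2` by multiplicatively independent `b_i ∈ 𝓞 K`.
-/

set_option autoImplicit false

open NumberField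

namespace Pool.Agent.H72.BK

open Pool.Agent.H72.BE (dirichlet_r walk_r)

variable {K : Type} [Field K] [NumberField K]

/-- Quotients modulo `𝔮` of integers with conjugates of absolute value `≤ H`. -/
def BQK (H : ℕ) (𝔮 : Ideal (𝓞 K)) (z : 𝓞 K) : Prop :=
  ∃ s s' : 𝓞 K, (∀ τ : K →+* ℂ, ‖τ s‖ ≤ H) ∧ (∀ τ : K →+* ℂ, ‖τ s'‖ ≤ H) ∧ s' ∉ 𝔮 ∧
    s - s' * z ∈ 𝔮

/-- The number of integers with conjugates of absolute value `≤ H`. -/
noncomputable def nint (K : Type) [Field K] [NumberField K] (H : ℕ) : ℕ :=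
  Set.ncard {x : 𝓞 K | ∀ τ : K →+* ℂ, ‖τ x‖ ≤ H}

theorem nint_finite (H : ℕ) : {x : 𝓞 K | ∀ τ : K →+* ℂ, ‖τ x‖ ≤ H}.Finite := by
  have h1 := NumberField.Embeddings.finite_of_norm_le K ℂ (H : ℝ)
  refine Set.Finite.of_finite_image (f := fun x : 𝓞 K => (x : K)) (h1.subset ?_)
    (fun x _ y _ h => RingOfIntegers.ext h)
  rintro _ ⟨x, hx, rfl⟩
  exact ⟨RingOfIntegers.isIntegral_coe x, hx⟩

theorem le_absNorm (𝔮 : Ideal (𝓞 K)) (h𝔮 : 𝔮.IsPrime) (p : ℕ) (hp : p.Prime)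
    (hp𝔮 : (p : 𝓞 K) ∈ 𝔮) : p ≤ Ideal.absNorm 𝔮 := by
  have h1 := Ideal.absNorm_dvd_norm_of_mem hp𝔮
  have h2 : (Algebra.norm ℤ (p : 𝓞 K)) = (p : ℤ) ^ Module.finrank ℤ (𝓞 K) := by
    have := Algebra.norm_algebraMap (S := 𝓞 K) (p : ℤ)
    rw [← this]
    simp
  rw [h2] at h1
  have h3 : Ideal.absNorm 𝔮 ∣ p ^ Module.finrank ℤ (𝓞 K) := by exact_mod_cast h1
  obtain ⟨k, -, hk⟩ := (Nat.dvd_prime_pow hp).1 h3
  have h4 : k ≠ 0 := by
    rintro rfl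
    rw [pow_zero, Ideal.absNorm_eq_one_iff] at hk
    exact h𝔮.ne_top hk
  rw [hk]
  exact Nat.le_self_pow h4 p

theorem prod_pow_ne {r : ℕ} (b : Fin r → 𝓞 K) (hb0 : ∀ i, b i ≠ 0)
    (hind : ∀ j : Fin r → ℤ, ∏ i, (b i : K) ^ j i = 1 → j = 0) (X : ℕ) (hX1 : 1 ≤ X)
    (hX : ∀ i (τ : K →+* ℂ), ‖τ (b i)‖ ≤ X) (𝔮 : Ideal (𝓞 K)) (h𝔮 : 𝔮.IsPrime) (U : ℕ)
    (hU : (2 * X ^ (r * U)) ^ Module.finrank ℚ K < Ideal.absNorm 𝔮) (e e' : Fin r → ℕ)
    (he : ∀ i, e i ≤ e' i + U ∧ e' i ≤ e i + U) (hne : e ≠ e') :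
    (∏ i, b i ^ e i) - ∏ i, b i ^ e' i ∉ 𝔮 := by
  obtain ⟨i0, hi0⟩ := Function.ne_iff.1 hne
  have hU1 : 1 ≤ U := by
    have := he i0
    omega
  have hr1 : 1 ≤ r := by
    have := i0.2
    omega
  have hbq : ∀ i, b i ∉ 𝔮 := by
    intro i hd
    refine hb0 i (zero_of_small 𝔮 X (lt_of_le_of_lt (Nat.pow_le_pow_left ?_ _) hU) (b i) hd (hX i))
    calc X = X ^ 1 := (pow_one _).symm
      _ ≤ X ^ (r * U) := Nat.pow_le_pow_right hX1 (Nat.mul_pos hr1 hU1)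
      _ ≤ 2 * X ^ (r * U) := Nat.le_mul_of_pos_left _ (by norm_num)
  obtain ⟨G, hG⟩ : ∃ G, G = ∏ i, b i ^ min (e i) (e' i) := ⟨_, rfl⟩
  obtain ⟨A, hA⟩ : ∃ A, A = ∏ i, b i ^ (e i - e' i) := ⟨_, rfl⟩
  obtain ⟨A', hA'⟩ : ∃ A', A' = ∏ i, b i ^ (e' i - e i) := ⟨_, rfl⟩
  have e1 : ∏ i, b i ^ e i = G * A := by
    rw [hG, hA, ← Finset.prod_mul_distrib]
    refine Finset.prod_congr rfl fun i _ => ?_
    rw [← pow_add]
    congr 1
    omega
  have e2 : ∏ i, b i ^ e' i = G * A' := by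
    rw [hG, hA', ← Finset.prod_mul_distrib]
    refine Finset.prod_congr rfl fun i _ => ?_
    rw [← pow_add]
    congr 1
    omega
  have hGq : G ∉ 𝔮 := by
    rw [hG]
    intro hd
    obtain ⟨j, -, hj⟩ := (h𝔮.prod_mem_iff).1 hd
    exact hbq j (h𝔮.mem_of_pow_mem _ hj)
  have hbd : ∀ (x : Fin r → ℕ), (∀ i, x i ≤ U) → ∀ τ : K →+* ℂ,
      ‖τ (((∏ i, b i ^ x i : 𝓞 K)) : K)‖ ≤ (X : ℝ) ^ (r * U) := by
    intro x hx τ
    have c1 : (((∏ i, b i ^ x i : 𝓞 K)) : K) = ∏ i, (b i : K) ^ x i := by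
      rw [RingOfIntegers.coe_eq_algebraMap, map_prod]
      exact Finset.prod_congr rfl fun i _ => map_pow _ _ _
    rw [c1, map_prod, norm_prod]
    have c2 : (X : ℝ) ^ (r * U) = ∏ _i : Fin r, (X : ℝ) ^ U := by
      rw [Finset.prod_const, Finset.card_univ, Fintype.card_fin, ← pow_mul, mul_comm]
    rw [c2]
    refine Finset.prod_le_prod (fun i _ => norm_nonneg _) fun i _ => ?_
    rw [map_pow, norm_pow]
    have hX1' : (1 : ℝ) ≤ X := by exact_mod_cast hX1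
    calc ‖τ (b i)‖ ^ x i ≤ (X : ℝ) ^ x i := pow_le_pow_left₀ (norm_nonneg _) (hX i τ) _
      _ ≤ (X : ℝ) ^ U := pow_le_pow_right₀ hX1' (hx i)
  intro hd
  rw [e1, e2, ← mul_sub] at hd
  rcases h𝔮.mem_or_mem hd with h | h
  · exact hGq h
  · have h0 : A - A' = 0 := by
      refine zero_of_small 𝔮 _ hU _ h fun τ => ?_
      have c3 : (((A - A' : 𝓞 K)) : K) = (A : K) - (A' : K) := by
        rw [RingOfIntegers.coe_eq_algebraMap, map_sub]
      rw [c3, map_sub]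
      push_cast
      refine (norm_sub_le _ _).trans ?_
      have c4 := hbd (fun i => e i - e' i) (fun i => by have := he i; omega) τ
      have c5 := hbd (fun i => e' i - e i) (fun i => by have := he i; omega) τ
      rw [← hA] at c4
      rw [← hA'] at c5
      linarith
    have hAA : A = A' := sub_eq_zero.1 h0
    apply hne
    have hj := hind (fun i => (e i : ℤ) - e' i) (by
      have c6 : ∀ x : Fin r → ℕ, (((∏ i, b i ^ x i : 𝓞 K)) : K) = ∏ i, (b i : K) ^ x i := by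
        intro x
        rw [RingOfIntegers.coe_eq_algebraMap, map_prod]
        exact Finset.prod_congr rfl fun i _ => map_pow _ _ _
      have c7 : (((∏ i, b i ^ e i : 𝓞 K)) : K) = (((∏ i, b i ^ e' i : 𝓞 K)) : K) := by
        rw [e1, e2, hAA]
      rw [c6, c6] at c7
      have hbK : ∀ i, (b i : K) ≠ 0 := fun i => by
        have := hb0 i
        exact fun h1 => this (RingOfIntegers.ext h1)
      have c8 : ∏ i, (b i : K) ^ ((e i : ℤ) - e' i) =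
          (∏ i, (b i : K) ^ e i) / ∏ i, (b i : K) ^ e' i := by
        rw [← Finset.prod_div_distrib]
        refine Finset.prod_congr rfl fun i _ => ?_
        rw [zpow_sub₀ (hbK i), zpow_natCast, zpow_natCast]
      rw [c8, c7, div_self]
      exact Finset.prod_ne_zero_iff.2 fun i _ => pow_ne_zero _ (hbK i))
    funext i
    have h1 := congrFun hj i
    simp only [Pi.zero_apply] at h1
    omega

theorem bq_card (H : ℕ) (𝔮 : Ideal (𝓞 K)) (h𝔮 : 𝔮.IsPrime) {P : ℕ} (z : Fin (P + 1) → 𝓞 K)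
    (hz : ∀ j, BQK H 𝔮 (z j)) (hne : ∀ j j', j ≠ j' → z j - z j' ∉ 𝔮) :
    P + 1 ≤ nint K H ^ 2 := by
  classical
  choose s s' h1 h2 h3 h4 using hz
  obtain ⟨E, hE⟩ : ∃ E : Finset (𝓞 K), E = (nint_finite (K := K) H).toFinset := ⟨_, rfl⟩
  have hEc : E.card = nint K H := by
    rw [hE, nint, Set.ncard_eq_toFinset_card _ (nint_finite (K := K) H)]
  have hmem : ∀ j ∈ (Finset.univ : Finset (Fin (P + 1))), (s j, s' j) ∈ E ×ˢ E := by
    intro j _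
    rw [Finset.mem_product, hE]
    exact ⟨(Set.Finite.mem_toFinset _).2 (h1 j), (Set.Finite.mem_toFinset _).2 (h2 j)⟩
  have hinj : Set.InjOn (fun j => (s j, s' j)) (Finset.univ : Finset (Fin (P + 1))) := by
    intro j _ k _ hjk
    have e1 : s j = s k := congrArg Prod.fst hjk
    have e2 : s' j = s' k := congrArg Prod.snd hjk
    by_contra hne'
    have h5 : s' j * (z j - z k) ∈ 𝔮 := by
      have h6 := 𝔮.sub_mem (h4 k) (h4 j)
      rw [← e1, ← e2] at h6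
      have h7 : s j - s' j * z k - (s j - s' j * z j) = s' j * (z j - z k) := by ring
      rwa [h7] at h6
    rcases h𝔮.mem_or_mem h5 with h | h
    · exact h3 j h
    · exact hne j k hne' h
  have hc := Finset.card_le_card_of_injOn _ hmem hinj
  rw [Finset.card_univ, Fintype.card_fin, Finset.card_product, hEc] at hc
  rw [pow_two]
  exact hc

theorem kronr {r : ℕ} (b : Fin r → 𝓞 K) (hb0 : ∀ i, b i ≠ 0)
    (hind : ∀ j : Fin r → ℤ, ∏ i, (b i : K) ^ j i = 1 → j = 0) (H Q1 : ℕ) :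
    ∃ q0 : ℕ, q0.Prime ∧ Q1 ≤ q0 ∧ ∀ M T : ℕ, 1 ≤ M → ∃ N : ℕ, 1 ≤ N ∧
      ∀ 𝔮 : Ideal (𝓞 K), 𝔮.IsPrime → (q0 : 𝓞 K) ∈ 𝔮 →
      ∀ m a : Fin r → ℕ, (∀ i, 1 ≤ m i) →
        (∀ t : ℕ, 1 + M * t ≤ N →
          BQK H 𝔮 (∏ i, b i ^ (q0 * ((1 + M * t) * a i % m i) / m i))) →
        ∃ h : ℕ, 1 ≤ h ∧ h ≤ (q0 + 1) ^ r ∧
          ∀ i, ∃ k : ℤ, |(h : ℤ) * M * a i - k * m i| * T ≤ m i := by
  obtain ⟨P, hP⟩ : ∃ P, P = nint K H ^ 2 := ⟨_, rfl⟩
  obtain ⟨U, hU⟩ : ∃ U, U = (P + 2) * (r + 1) + 2 := ⟨_, rfl⟩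
  obtain ⟨X, hX1, hX⟩ : ∃ X : ℕ, 1 ≤ X ∧ ∀ i (τ : K →+* ℂ), ‖τ (b i)‖ ≤ X := by
    obtain ⟨X, hX⟩ := exists_nat_ge (∑ i, ∑ τ : K →+* ℂ, ‖τ (b i)‖)
    refine ⟨X + 1, by omega, fun i τ => ?_⟩
    have e1 : ‖τ (b i)‖ ≤ ∑ i, ∑ τ : K →+* ℂ, ‖τ (b i)‖ :=
      (Finset.single_le_sum (f := fun τ : K →+* ℂ => ‖τ (b i)‖) (fun _ _ => norm_nonneg _)
        (Finset.mem_univ τ)).trans (Finset.single_le_sum
          (f := fun i => ∑ τ : K →+* ℂ, ‖τ (b i)‖)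
          (fun _ _ => Finset.sum_nonneg fun _ _ => norm_nonneg _) (Finset.mem_univ i))
    push_cast
    linarith
  obtain ⟨q0, hq0, hp⟩ := Nat.exists_infinite_primes
    (Q1 + (2 * X ^ (r * U)) ^ Module.finrank ℚ K + U + 1)
  refine ⟨q0, hp, by omega, fun M T hM => ?_⟩
  refine ⟨1 + M * ((q0 + 1) ^ r * ((P + 2) * (r + 1) * T + 1)), by omega,
    fun 𝔮 h𝔮 hq𝔮 m a hm hbq => ?_⟩
  have hqN : q0 ≤ Ideal.absNorm 𝔮 := le_absNorm 𝔮 h𝔮 q0 hp hq𝔮
  obtain ⟨h, hh1, hh2, hh3⟩ := dirichlet_r m a hm M (q0 + 1) (by omega)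
  refine ⟨h, hh1, hh2, ?_⟩
  choose k hk using hh3
  by_contra hcon
  push Not at hcon
  obtain ⟨i1, hi1⟩ := hcon
  have hmi : ∀ i, (0 : ℤ) < m i := fun i => by exact_mod_cast hm i
  obtain ⟨d, hd⟩ : ∃ d : Fin r → ℤ, d = fun i => (h : ℤ) * M * a i - k i * m i := ⟨_, rfl⟩
  have hd1 : ∀ i, |d i| * ((q0 + 1 : ℕ) : ℤ) < m i := by
    intro i
    rw [hd]
    exact hk i
  have hd2 : ∀ i, |d i| * q0 < m i := by
    intro i
    have h1 := hd1 i
    push_cast at h1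
    have h2 := abs_nonneg (d i)
    linarith
  have hi1' : (m i1 : ℤ) < |d i1| * T := by
    rw [hd]
    exact hi1 (k i1)
  -- the largest quotient
  obtain ⟨i0, -, hi0⟩ := Finset.exists_max_image Finset.univ
    (fun i => ((|d i| : ℤ) : ℚ) / (m i : ℚ)) ⟨i1, Finset.mem_univ _⟩
  have hmax : ∀ i, |d i| * m i0 ≤ |d i0| * m i := by
    intro i
    have h1 := hi0 i (Finset.mem_univ _)
    have h2 : (0 : ℚ) < m i := by exact_mod_cast hm i
    have h3 : (0 : ℚ) < m i0 := by exact_mod_cast hm i0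
    rw [div_le_div_iff₀ h2 h3] at h1
    exact_mod_cast h1
  have h0 : (m i0 : ℤ) < |d i0| * T := by
    have h1 := hmax i1
    have h2 : (m i1 : ℤ) * m i0 < |d i1| * T * m i0 := mul_lt_mul_of_pos_right hi1' (hmi i0)
    have h3 : |d i1| * m i0 * T ≤ |d i0| * m i1 * T :=
      mul_le_mul_of_nonneg_right h1 (by positivity)
    have h4 : (m i0 : ℤ) * m i1 < |d i0| * T * m i1 := by
      calc (m i0 : ℤ) * m i1 = m i1 * m i0 := by ring
        _ < |d i1| * T * m i0 := h2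
        _ = |d i1| * m i0 * T := by ring
        _ ≤ |d i0| * m i1 * T := h3
        _ = |d i0| * T * m i1 := by ring
    exact lt_of_mul_lt_mul_right h4 (hmi i1).le
  obtain ⟨t, ht1, ht2, ht3⟩ := walk_r m hm q0 P T (fun i => (a i : ℤ)) d hd2 i0 h0 hmax (by omega)
  obtain ⟨e, he⟩ : ∃ e : Fin (P + 1) → Fin r → ℕ,
      e = fun j i => q0 * ((1 + M * (h * t j)) * a i % m i) / m i := ⟨_, rfl⟩
  have he' : ∀ j i, ((e j i : ℕ) : ℤ) = (q0 : ℤ) * (((a i : ℤ) + t j * d i) % m i) / m i := by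
    intro j i
    have h6 : ((1 + M * (h * t j)) * a i : ℤ) = ((a i : ℤ) + t j * d i) + m i * (t j * k i) := by
      rw [hd]
      ring
    rw [he]
    push_cast
    rw [h6, Int.add_mul_emod_self_left]
  have hz : ∀ j, BQK H 𝔮 (∏ i, b i ^ e j i) := by
    intro j
    rw [he]
    refine hbq (h * t j) ?_
    have h7 : h * t j ≤ (q0 + 1) ^ r * ((P + 2) * (r + 1) * T + 1) := Nat.mul_le_mul hh2 (ht1 j)
    have h8 := Nat.mul_le_mul_left M h7
    omega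
  have hne : ∀ j j', j ≠ j' → (∏ i, b i ^ e j i) - ∏ i, b i ^ e j' i ∉ 𝔮 := by
    intro j j' hjj
    refine prod_pow_ne b hb0 hind X hX1 hX 𝔮 h𝔮 U (by omega) (e j) (e j') (fun i => ?_)
      fun heq => ?_
    · have h1 := ht3 j j' i
      rw [← he', ← he', ← hU, abs_le] at h1
      omega
    · refine ht2 j j' hjj ?_
      rw [← he', ← he', heq]
  have hfin := bq_card H 𝔮 h𝔮 _ hz hne
  rw [← hP] at hfin
  omega

end Pool.Agent.H72.BK
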