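import Pool.Agent.H72.BK.Def
import Pool.Agent.H72.BE.Tri

/-!
# Column factors (MP_187c26_nt, Theorem VK)

Port of `fm_scale` of `Pool/Agent/H72/BE/Tri.lean`: column factors `β o ∈ A` which divide a fixed `β0` (with integral quotients).
`fm Y ≤ (∏_t |t β0|) ^ |κ| fm Y'`.
-/

set_option autoImplicit false

open MvPolynomial NumberField

namespace Pool.Agent.H72.BK

open Pool.Agent.H72.BE (fm fm_support prod_formula)

variable {A : Type} [Field A] [NumberField A]

theorem fm_scale {κ Ω : Type} [Fintype κ] [Fintype Ω] [DecidableEq κ] (Y Y' : Matrix κ Ω A)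
    (β : Ω → A) (β0 : A) (hB0 : β0 ≠ 0) (hβ : ∀ o, ∃ c : 𝓞 A, β0 = β o * (c : A))
    (hY : ∀ k o, Y' k o = Y k o * β o) (hne : ∃ J : κ → Ω, (Y.submatrix id J).det ≠ 0) :
    fm Y ≤ (∏ t : A →+* ℂ, ‖t β0‖) ^ Fintype.card κ * fm Y' := by
  classical
  obtain ⟨J₀, hJ₀⟩ := hne
  have hβ0 : ∀ o, β o ≠ 0 := by
    intro o h
    obtain ⟨c, hc⟩ := hβ o
    rw [h, zero_mul] at hc
    exact hB0 hc
  have hmin : ∀ J : κ → Ω, (Y'.submatrix id J).det = (Y.submatrix id J).det * ∏ k, β (J k) := by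
    intro J
    have h1 : Y'.submatrix id J = Y.submatrix id J * Matrix.diagonal fun k => β (J k) := by
      ext a k
      rw [Matrix.mul_diagonal, Matrix.submatrix_apply, Matrix.submatrix_apply, hY]
    rw [h1, Matrix.det_mul, Matrix.det_diagonal]
  have hJ₀' : (Y'.submatrix id J₀).det ≠ 0 := by
    rw [hmin]
    exact mul_ne_zero hJ₀ (Finset.prod_ne_zero_iff.2 fun k _ => hβ0 _)
  have hint : ∀ (v : FinitePlace A) (c : 𝓞 A), v (c : A) ≤ 1 := by
    intro v c
    rw [← FinitePlace.norm_embedding_eq]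
    exact FinitePlace.norm_le_one _ _ _
  have hloc : ∀ (v : FinitePlace A) (o : Ω), v β0 ≤ v (β o) := by
    intro v o
    obtain ⟨c, hc⟩ := hβ o
    rw [hc, map_mul]
    exact mul_le_of_le_one_right (apply_nonneg v _) (hint v c)
  have hsup : ∀ v : FinitePlace A, v β0 ^ Fintype.card κ * (⨆ J : κ → Ω, v ((Y.submatrix id J).det)) ≤
      ⨆ J : κ → Ω, v ((Y'.submatrix id J).det) := by
    intro v
    have hne' : Nonempty (κ → Ω) := ⟨J₀⟩
    rw [Real.mul_iSup_of_nonneg (pow_nonneg (apply_nonneg v _) _)]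
    refine ciSup_le fun J => ?_
    refine le_trans ?_ (le_ciSup (Set.finite_range _).bddAbove J)
    rw [hmin, map_mul, mul_comm, map_prod]
    refine mul_le_mul_of_nonneg_left ?_ (apply_nonneg v _)
    rw [← Finset.card_univ, ← Finset.prod_const]
    exact Finset.prod_le_prod (fun k _ => apply_nonneg v _) fun k _ => hloc v _
  have hfB : Function.HasFiniteMulSupport fun v : FinitePlace A => v β0 := FinitePlace.hasFiniteMulSupport hB0
  have hfY : Function.HasFiniteMulSupport fun v : FinitePlace A => ⨆ J : κ → Ω, v ((Y.submatrix id J).det) :=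
    fm_support Y J₀ hJ₀
  have hfY' : Function.HasFiniteMulSupport fun v : FinitePlace A => ⨆ J : κ → Ω, v ((Y'.submatrix id J).det) :=
    fm_support Y' J₀ hJ₀'
  have hmul : (∏ᶠ v : FinitePlace A, v β0) ^ Fintype.card κ * fm Y ≤ fm Y' := by
    unfold fm
    have hfBp : Function.HasFiniteMulSupport fun v : FinitePlace A => v β0 ^ Fintype.card κ := hfB.pow _
    rw [finprod_pow hfB, ← finprod_mul_distrib hfBp hfY]
    refine finprod_le_finprod (hfBp.mul hfY) (fun v => ?_) hfY' hsup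
    exact mul_nonneg (pow_nonneg (apply_nonneg v _) _) (Real.iSup_nonneg fun J => apply_nonneg v _)
  have hpf := prod_formula β0 hB0
  have h2 : (∏ t : A →+* ℂ, ‖t β0‖) ^ Fintype.card κ * (∏ᶠ v : FinitePlace A, v β0) ^ Fintype.card κ = 1 := by
    rw [← mul_pow, hpf, one_pow]
  calc fm Y = (∏ t : A →+* ℂ, ‖t β0‖) ^ Fintype.card κ *
      ((∏ᶠ v : FinitePlace A, v β0) ^ Fintype.card κ * fm Y) := by rw [← mul_assoc, h2, one_mul]
    _ ≤ _ := mul_le_mul_of_nonneg_left hmul
        (pow_nonneg (Finset.prod_nonneg fun t _ => norm_nonneg _) _)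

/-- A common integer factor. -/
theorem fm_smul {κ Ω : Type} [Fintype κ] [Fintype Ω] [DecidableEq κ] (Y : Matrix κ Ω A)
    (D0 : ℕ) (hD : 1 ≤ D0) :
    fm Y ≤ (D0 : ℝ) ^ (Module.finrank ℚ A * Fintype.card κ) * fm ((D0 : A) • Y) := by
  have hD0 : (D0 : A) ≠ 0 := by
    have : D0 ≠ 0 := by omega
    exact_mod_cast this
  have hemb : ∏ t : A →+* ℂ, ‖t (D0 : A)‖ = (D0 : ℝ) ^ Module.finrank ℚ A := by
    have h1 : ∀ t : A →+* ℂ, ‖t (D0 : A)‖ = (D0 : ℝ) := by
      intro t
      rw [map_natCast, Complex.norm_natCast]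
    rw [Finset.prod_congr rfl fun t _ => h1 t, Finset.prod_const, Finset.card_univ, NumberField.Embeddings.card]
  by_cases hne : ∃ J : κ → Ω, (Y.submatrix id J).det ≠ 0
  · have h1 := fm_scale Y ((D0 : A) • Y) (fun _ => (D0 : A)) (D0 : A) hD0 (fun _ => ⟨1, by simp⟩)
      (fun k o => by rw [Matrix.smul_apply, smul_eq_mul, mul_comm]) hne
    rw [hemb, ← pow_mul] at h1
    exact h1
  · push Not at hne
    have h1 : fm ((D0 : A) • Y) = fm Y := by
      unfold fm
      refine finprod_congr fun v => ?_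
      congr 1
      funext J
      have h2 : ((D0 : A) • Y).submatrix id J = (D0 : A) • Y.submatrix id J := rfl
      rw [h2, Matrix.det_smul, hne J, mul_zero]
    rw [h1]
    have h3 : 0 ≤ fm Y := by
      unfold fm
      exact finprod_nonneg fun v => Real.iSup_nonneg fun J => apply_nonneg v _
    have h4 : (1 : ℝ) ≤ D0 := by exact_mod_cast hD
    exact le_mul_of_one_le_left h3 (one_le_pow₀ h4)

end Pool.Agent.H72.BK
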