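import Pool.Agent.H72.BK.Sep
import Pool.Agent.H72.BK.Cova
import Pool.Agent.H72.BK.Scale
import Pool.Agent.H72.BE.Lat

/-!
# The module of the multipliers (MP_187c26_nt, Theorem VK)

Model (r = 1, A = Q): `Pool/Agent/H72/BD/Lat.lean`.

`Lat h D0 c n` = the `g ∈ (𝓞 A)^(Box n)` with `∑ a, g a x ^ a ∈ den c`; `Psi h c n` = the matrix over `A` with rows `co (x ^ a c_i)`.

`lat_index`: `Lat` = comap of `den c` under `pe`, `range pe ≤ zx` (`mon x a ∈ zx`, `smul_mem`): `AddSubgroup.index_comap`,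
`relIndex_le_of_le_right` (see BD/Lat.lean).
`psi_vecMul`: linearity of `co`. `psi_int`: `pe g * c_i ∈ zx` by definition of `den`.
`fm_psi`: `fin_minor` for `L = Lat h D0 c n`, `Y = Psi h c n`.
`wm_psi`: `uu_mon_mul`. `prod_rw`: pair `a` with the reflected exponent `n - 1 - a` (`Fin.rev` in each coordinate):
`rw a * rw (n - 1 - a) = rw (n - 1) ≤ ∏ i, ρ_i ^ n_i`.
`gdt_psi`: rows multiplied by `rw (bv a) > 0`. `minor_psi`: `wm` at `J` = `diag (rw (bv a)) * sm_J`, columns of `wm` carry `rw (vl (J k).2)`.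
`md_inj`: `a i < n i ≤ m i`.
-/

set_option autoImplicit false

open MvPolynomial NumberField

namespace Pool.Agent.H72.BK

open Pool.Agent.H72.BE (Gm Box vl bv md mon sm gdt fo fm inw Rep cf ctv mon_add mon_zero md_add md_vl pe mb mb_inj fin_minor)

variable {r : ℕ} {m : Fin r → ℕ} [∀ i, NeZero (m i)] {B : ℕ} {A F : Type} [Field A]
  [NumberField A] {b : Fin r → A} [Field F] [NumberField F] [Algebra A F] {x : Fin r → F} {ι : Type}

/-- The `g` with `∑ a, g a x ^ a ∈ den c`. -/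
def Lat (h : Rad B b m F x) (D0 : ℕ) (c : ι → F) (n : Fin r → ℕ) : Submodule (𝓞 A) (Box n → 𝓞 A) where
  carrier := {g | pe A x n g ∈ h.den D0 c}
  zero_mem' := by
    show pe A x n 0 ∈ h.den D0 c
    rw [map_zero]
    exact zero_mem _
  add_mem' := fun {g g'} hg hg' => by
    show pe A x n (g + g') ∈ h.den D0 c
    rw [map_add]
    exact add_mem hg hg'
  smul_mem' := fun s g hg => by
    have h1 : pe A x n (s • g) = algebraMap A F (s : A) * pe A x n g := by
      show ∑ a, algebraMap A F (((s • g) a : 𝓞 A) : A) * mon x (bv a) =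
        algebraMap A F (s : A) * ∑ a, algebraMap A F ((g a : 𝓞 A) : A) * mon x (bv a)
      rw [Finset.mul_sum]
      refine Finset.sum_congr rfl fun a _ => ?_
      show algebraMap A F ((s : A) * ((g a : 𝓞 A) : A)) * mon x (bv a) = _
      rw [map_mul, mul_assoc]
    show pe A x n (s • g) ∈ h.den D0 c
    rw [h1]
    exact ⟨h.smul_mem _ (RingOfIntegers.isIntegral_coe s) _ hg.1, fun i => by
      rw [mul_assoc]
      exact h.smul_zd D0 _ (RingOfIntegers.isIntegral_coe s) _ (hg.2 i)⟩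

/-- The matrix with the rows `co (x ^ a c_i)`. -/
noncomputable def Psi (h : Rad B b m F x) (c : ι → F) (n : Fin r → ℕ) :
    Matrix (Box n) (ι × Gm m) A :=
  Matrix.of fun a w => h.co (mon x (bv a) * c w.1) w.2

/-- The weights of the columns. -/
noncomputable def wc {A : Type} [Field A] (b : Fin r → A) (m : Fin r → ℕ) {ι : Type}
    (t : A →+* ℂ) (w : ι × Gm m) : ℂ := rw b m t (vl w.2)

theorem one_le_wc (h : Rad B b m F x) (w : ι × Gm m) : 1 ≤ ∏ t : A →+* ℂ, ‖wc b m t w‖ :=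
  h.one_le_prod_rw _

theorem wc_ne_zero (h : Rad B b m F x) (t : A →+* ℂ) (w : ι × Gm m) : wc b m t w ≠ 0 :=
  h.rw_ne_zero t _

theorem lat_index (h : Rad B b m F x) (D0 : ℕ) (c : ι → F) (n : Fin r → ℕ)
    (h0 : (h.den D0 c).relIndex h.zx ≠ 0) :
    (Lat h D0 c n).toAddSubgroup.index ≠ 0 ∧
      (Lat h D0 c n).toAddSubgroup.index ≤ (h.den D0 c).relIndex h.zx := by
  have hr : (pe A x n).range ≤ h.zx := by
    rintro _ ⟨g, rfl⟩
    show (∑ a, algebraMap A F ((g a : 𝓞 A) : A) * mon x (bv a)) ∈ h.zx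
    refine sum_mem fun a _ => h.smul_mem _ (RingOfIntegers.isIntegral_coe (g a)) _ ?_
    have h1 := h.mon_mul_mem (bv a) 1 h.one_mem
    rwa [mul_one] at h1
  have h2 : (Lat h D0 c n).toAddSubgroup = (h.den D0 c).comap (pe A x n) := rfl
  rw [h2, AddSubgroup.index_comap]
  exact ⟨fun h3 => h0 (AddSubgroup.relIndex_eq_zero_of_le_right hr h3),
    AddSubgroup.relIndex_le_of_le_right hr h0⟩

theorem psi_vecMul (h : Rad B b m F x) (c : ι → F) (n : Fin r → ℕ) (g : Box n → A)
    (w : ι × Gm m) :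
    Matrix.vecMul g (Psi h c n) w =
      h.co ((∑ a, algebraMap A F (g a) * mon x (bv a)) * c w.1) w.2 := by
  rw [Finset.sum_mul, map_sum, Finset.sum_apply]
  simp only [Matrix.vecMul, dotProduct, Psi, Matrix.of_apply]
  refine Finset.sum_congr rfl fun a _ => ?_
  rw [mul_assoc, ← Algebra.smul_def, map_smul, Pi.smul_apply, smul_eq_mul]

theorem psi_int (h : Rad B b m F x) (D0 : ℕ) (c : ι → F) (n : Fin r → ℕ) (g : Box n → 𝓞 A)
    (hg : g ∈ Lat h D0 c n) (w : ι × Gm m) :
    IsIntegral ℤ (Matrix.vecMul (fun k => ((g k : 𝓞 A) : A)) ((D0 : A) • Psi h c n) w) := by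
  rw [Matrix.vecMul_smul, Pi.smul_apply, smul_eq_mul, psi_vecMul]
  exact hg.2 w.1 w.2

theorem fm_psi [Fintype ι] (h : Rad B b m F x) (D0 : ℕ) (hD : 1 ≤ D0) (c : ι → F)
    (n : Fin r → ℕ) (h0 : (h.den D0 c).relIndex h.zx ≠ 0) :
    fm (Psi h c n) ≤
      (D0 : ℝ) ^ (Module.finrank ℚ A * ∏ i, n i) * (h.den D0 c).relIndex h.zx := by
  have hcard : Fintype.card (Box n) = ∏ i, n i := by
    rw [Fintype.card_pi]
    exact Finset.prod_congr rfl fun i _ => Fintype.card_fin _
  obtain ⟨h1, h2⟩ := lat_index h D0 c n h0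
  have h3 := fm_smul (Psi h c n) D0 hD
  rw [hcard] at h3
  refine h3.trans (mul_le_mul_of_nonneg_left ?_ (by positivity))
  refine (fin_minor (Lat h D0 c n) h1 ((D0 : A) • Psi h c n)
    fun g hg o => psi_int h D0 c n g hg o).trans ?_
  exact_mod_cast h2

theorem wm_psi (h : Rad B b m F x) (c : ι → F) (n : Fin r → ℕ) (t : A →+* ℂ) (a : Box n)
    (w : ι × Gm m) :
    wm (wc b m) t (Psi h c n) a w =
      rw b m t (bv a) * sm (fun i => h.uu t (c i)) (mb m n) a w := by
  exact h.uu_mon_mul t (c w.1) (bv a) w.2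

theorem prod_rw (h : Rad B b m F x) (n : Fin r → ℕ) (t : A →+* ℂ) :
    ‖∏ a : Box n, rw b m t (bv a)‖ ^ 2 ≤ (∏ i, rb B m i ^ n i) ^ (∏ i, n i) := by
  have hcard : Fintype.card (Box n) = ∏ i, n i := by
    rw [Fintype.card_pi]
    exact Finset.prod_congr rfl fun i _ => Fintype.card_fin _
  have hrev : ∏ a : Box n, rw b m t (bv (fun i => Fin.rev (a i))) = ∏ a : Box n, rw b m t (bv a) :=
    Equiv.prod_comp (Equiv.piCongrRight fun i => (Fin.revPerm : Equiv.Perm (Fin (n i))))
      (fun a : Box n => rw b m t (bv a))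
  have h1 : ‖∏ a : Box n, rw b m t (bv a)‖ ^ 2 =
      ∏ a : Box n, ‖rw b m t (bv a) * rw b m t (bv (fun i => Fin.rev (a i)))‖ := by
    rw [← norm_prod, Finset.prod_mul_distrib, hrev, ← sq, norm_pow]
  rw [h1, ← hcard, ← Finset.card_univ, ← Finset.prod_const]
  refine Finset.prod_le_prod (fun a _ => norm_nonneg _) fun a _ => ?_
  rw [← rw_add]
  refine (h.norm_rw_le t _).trans ?_
  refine Finset.prod_le_prod (fun i _ => pow_nonneg (rb_pos h.hB i).le _) fun i _ => ?_
  refine pow_le_pow_right₀ (one_le_rb h.hB i) ?_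
  show ((a i : ℕ) + (Fin.rev (a i) : ℕ)) ≤ n i
  rw [Fin.val_rev]
  have := (a i).2
  omega

theorem gdt_psi [Fintype ι] (h : Rad B b m F x) (c : ι → F) (n : Fin r → ℕ) (t : A →+* ℂ) :
    gdt (wm (wc b m) t (Psi h c n)) = ‖∏ a : Box n, rw b m t (bv a)‖ ^ 2 *
      gdt (sm (fun i => h.uu t (c i)) (mb m n)) := by
  obtain ⟨M, hM⟩ : ∃ M, M = sm (fun i => h.uu t (c i)) (mb m n) := ⟨_, rfl⟩
  have h1 : wm (wc b m) t (Psi h c n) =
      Matrix.diagonal (fun a : Box n => rw b m t (bv a)) * M := by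
    ext a w
    rw [Matrix.diagonal_mul, hM]
    exact wm_psi h c n t a w
  have h2 : (Matrix.diagonal (fun a : Box n => rw b m t (bv a)) * M) *
      (Matrix.diagonal (fun a : Box n => rw b m t (bv a)) * M).conjTranspose =
      Matrix.diagonal (fun a : Box n => rw b m t (bv a)) * (M * M.conjTranspose) *
        Matrix.diagonal (star fun a : Box n => rw b m t (bv a)) := by
    rw [Matrix.conjTranspose_mul, Matrix.diagonal_conjTranspose]
    simp only [Matrix.mul_assoc]
  rw [← hM, h1]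
  unfold gdt
  rw [h2, Matrix.det_mul, Matrix.det_mul, Matrix.det_diagonal, Matrix.det_diagonal]
  have h5 : (∏ a : Box n, rw b m t (bv a)) * ∏ a : Box n, (star fun a : Box n => rw b m t (bv a)) a =
      ((‖∏ a : Box n, rw b m t (bv a)‖ ^ 2 : ℝ) : ℂ) := by
    have h6 : ∏ a : Box n, (star fun a : Box n => rw b m t (bv a)) a =
        (starRingEnd ℂ) (∏ a : Box n, rw b m t (bv a)) := by
      rw [map_prod]
      rfl
    rw [h6, Complex.mul_conj', Complex.ofReal_pow]
  have h4 : (∏ a : Box n, rw b m t (bv a)) * (M * M.conjTranspose).det *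
      ∏ a : Box n, (star fun a : Box n => rw b m t (bv a)) a =
      ((‖∏ a : Box n, rw b m t (bv a)‖ ^ 2 : ℝ) : ℂ) * (M * M.conjTranspose).det := by
    rw [← h5]
    ring
  rw [h4, Complex.re_ofReal_mul]

theorem minor_psi (h : Rad B b m F x) (c : ι → F) (n : Fin r → ℕ) (t : A →+* ℂ)
    (J : Box n → ι × Gm m) :
    t ((Psi h c n).submatrix id J).det * ∏ a, wc b m t (J a) =
      (∏ a : Box n, rw b m t (bv a)) *
        ((sm (fun i => h.uu t (c i)) (mb m n)).submatrix id J).det := by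
  have h1 : t ((Psi h c n).submatrix id J).det =
      (Matrix.of fun a k : Box n => t ((Psi h c n) a (J k))).det := by
    rw [RingHom.map_det]
    rfl
  have h2 : (Matrix.of fun a k : Box n => wc b m t (J k) *
      (Matrix.of fun a k : Box n => t ((Psi h c n) a (J k))) a k).det =
      (∏ a : Box n, wc b m t (J a)) *
        (Matrix.of fun a k : Box n => t ((Psi h c n) a (J k))).det :=
    Matrix.det_mul_row (fun k : Box n => wc b m t (J k)) _
  have h3 : (Matrix.of fun a k : Box n => wc b m t (J k) *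
      (Matrix.of fun a k : Box n => t ((Psi h c n) a (J k))) a k) =
      Matrix.of fun a k : Box n => rw b m t (bv a) *
        ((sm (fun i => h.uu t (c i)) (mb m n)).submatrix id J) a k := by
    ext a k
    have h4 := wm_psi h c n t a (J k)
    simp only [Matrix.of_apply, Matrix.submatrix_apply, id_eq]
    rw [← h4, mul_comm]
    rfl
  rw [h1, mul_comm, ← h2, h3, Matrix.det_mul_column]

theorem minor_zero (h : Rad B b m F x) (c : ι → F) (n : Fin r → ℕ) (t : A →+* ℂ)
    (J : Box n → ι × Gm m) :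
    ((Psi h c n).submatrix id J).det = 0 ↔
      ((sm (fun i => h.uu t (c i)) (mb m n)).submatrix id J).det = 0 := by
  have h1 := minor_psi h c n t J
  have h2 : (∏ a, wc b m t (J a)) ≠ 0 := Finset.prod_ne_zero_iff.2 fun a _ => wc_ne_zero h t _
  have h4 : (∏ a : Box n, rw b m t (bv a)) ≠ 0 :=
    Finset.prod_ne_zero_iff.2 fun a _ => h.rw_ne_zero t _
  constructor
  · intro h5
    rw [h5, map_zero, zero_mul] at h1
    exact (mul_eq_zero.1 h1.symm).resolve_left h4
  · intro h5
    rw [h5, mul_zero] at h1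
    have h6 := (mul_eq_zero.1 h1).resolve_right h2
    exact (map_eq_zero t).1 h6

end Pool.Agent.H72.BK
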