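import Pool.Agent.H72.BK.Co
import Pool.Agent.H72.BD.DenIdeal

/-!
# Sizes of the coefficients from the height (MP_187c26_nt, Theorem VK)

Model (r = 1): `Pool/Agent/H72/BD/Idx.lean`, `SizOf.lean`. `ints F` = `Pool.Agent.H72.BD.ints F` (all algebraic integers of `F`), `den_ideal` =
`Pool.Agent.H72.BD.den_ideal` (general `F`).

`zx_le_ints`: `Rad.isIntegral`. `idx_ne_zero`: `𝓞 F` is a finitely generated abelian group; `Rad.exists_int` for finitely many generators: `D y ∈ zx` for all `y ∈ ints F`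
(zx is a group); `ints F ⧸ zx` is finitely generated and torsion, so finite.
`den_index`: the proof of BD/Idx.lean with `zx x` replaced by `h.zx` and `den x c` by `h.den D0 c`.
`siz_of`: the proof of BD/SizOf.lean (`N φ = (mahlerMeasure ((minpoly F α).map φ)) ^ 2`) with `[F : ℚ]` in place of `m`.
-/

set_option autoImplicit false

open Polynomial NumberField

namespace Pool.Agent.H72.BK

open Pool.Agent.H72.BE (Gm Box vl bv md mon cf)

variable {r : ℕ} {m : Fin r → ℕ} [∀ i, NeZero (m i)] {B : ℕ} {A F : Type} [Field A]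
  [NumberField A] {b : Fin r → A} [Field F] [NumberField F] [Algebra A F] {x : Fin r → F}

theorem Rad.zx_le_ints (h : Rad B b m F x) : h.zx ≤ Pool.Agent.H72.BD.ints F :=
  fun y hy => h.isIntegral y hy

theorem Rad.idx_ne_zero (h : Rad B b m F x) : h.zx.relIndex (Pool.Agent.H72.BD.ints F) ≠ 0 := by
  have hfg : AddGroup.FG (NumberField.RingOfIntegers F) := Module.Finite.iff_addGroup_fg.1 inferInstance
  let φ : NumberField.RingOfIntegers F →+ Pool.Agent.H72.BD.ints F :=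
    { toFun := fun y => ⟨(y : F), NumberField.RingOfIntegers.isIntegral_coe y⟩
      map_zero' := Subtype.ext (map_zero _)
      map_add' := fun a c => Subtype.ext (map_add _ _ _) }
  have hφ : Function.Surjective φ := fun y => ⟨⟨y.1, y.2⟩, rfl⟩
  let π : Pool.Agent.H72.BD.ints F →+ (Pool.Agent.H72.BD.ints F ⧸ (h.zx).addSubgroupOf (Pool.Agent.H72.BD.ints F)) :=
    QuotientAddGroup.mk' ((h.zx).addSubgroupOf (Pool.Agent.H72.BD.ints F))
  have hπ : Function.Surjective π := QuotientAddGroup.mk'_surjective _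
  have hQfg : AddGroup.FG (Pool.Agent.H72.BD.ints F ⧸ (h.zx).addSubgroupOf (Pool.Agent.H72.BD.ints F)) :=
    AddGroup.fg_of_surjective (f := π.comp φ) (hπ.comp hφ)
  have htor : IsAddTorsion (Pool.Agent.H72.BD.ints F ⧸ (h.zx).addSubgroupOf (Pool.Agent.H72.BD.ints F)) := by
    intro z
    obtain ⟨y, rfl⟩ := hπ z
    rw [isOfFinAddOrder_iff_nsmul_eq_zero]
    obtain ⟨D, hD, hDy⟩ := h.exists_int (ι := Fin 1) fun _ => (y : F)
    refine ⟨D, hD, ?_⟩
    rw [← map_nsmul]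
    refine (QuotientAddGroup.eq_zero_iff _).2 ?_
    rw [AddSubgroup.mem_addSubgroupOf, AddSubgroup.coe_nsmul, nsmul_eq_mul]
    exact hDy 0
  have hfin : Finite (Pool.Agent.H72.BD.ints F ⧸ (h.zx).addSubgroupOf (Pool.Agent.H72.BD.ints F)) :=
    AddCommGroup.finite_of_fg_isAddTorsion _ htor
  exact AddSubgroup.index_ne_zero_of_finite

theorem Rad.zd_ne_zero (h : Rad B b m F x) (D0 : ℕ) :
    (h.zd D0).relIndex (Pool.Agent.H72.BD.ints F) ≠ 0 := fun h1 =>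
  h.idx_ne_zero (AddSubgroup.relIndex_eq_zero_of_le_left (h.zx_le_zd D0) h1)

theorem Rad.den_index (h : Rad B b m F x) (D0 : ℕ) {d : ℕ} (c : Fin (d + 1) → F) (I A' : ℕ)
    (hI : (h.zd D0).relIndex (Pool.Agent.H72.BD.ints F) ≤ I) (𝔞 : AddSubgroup F)
    (h𝔞 : 𝔞 ≤ Pool.Agent.H72.BD.ints F) (h0 : 𝔞.relIndex (Pool.Agent.H72.BD.ints F) ≠ 0)
    (hA : 𝔞.relIndex (Pool.Agent.H72.BD.ints F) ≤ A')
    (hc : ∀ y ∈ 𝔞, ∀ i, y * c i ∈ Pool.Agent.H72.BD.ints F) :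
    (h.den D0 c).relIndex h.zx ≠ 0 ∧ (h.den D0 c).relIndex h.zx ≤ A' * I ^ (d + 1) := by
  have hidx := h.zd_ne_zero D0
  have hZ := h.zx_le_ints
  let f : Fin (d + 1) → F →+ F := fun i => AddMonoidHom.mulRight (c i)
  have hH : h.den D0 c ⊓ 𝔞 ≤ 𝔞 ⊓ h.zx := fun y hy => ⟨hy.2, hy.1.1⟩
  have e1 := AddSubgroup.relIndex_mul_relIndex (h.den D0 c ⊓ 𝔞) (𝔞 ⊓ h.zx) (h.zx) hH inf_le_right
  rw [AddSubgroup.inf_relIndex_right] at e1
  have a1 : 𝔞.relIndex (h.zx) ≠ 0 := fun h1 => h0 (AddSubgroup.relIndex_eq_zero_of_le_right hZ h1)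
  have a2 : 𝔞.relIndex (h.zx) ≤ A' := (AddSubgroup.relIndex_le_of_le_right hZ h0).trans hA
  have e2 : (h.den D0 c ⊓ 𝔞) = (⨅ i, (h.zd D0).comap (f i)) ⊓ (𝔞 ⊓ h.zx) := by
    ext y
    rw [AddSubgroup.mem_inf, AddSubgroup.mem_inf, AddSubgroup.mem_inf, AddSubgroup.mem_iInf]
    constructor
    · rintro ⟨h1, h2⟩
      exact ⟨fun i => h1.2 i, h2, h1.1⟩
    · rintro ⟨h1, h2, h3⟩
      exact ⟨⟨h3, fun i => h1 i⟩, h2⟩
  have e3 : ∀ i, ((h.zd D0).comap (f i)).relIndex (𝔞 ⊓ h.zx) ≠ 0 ∧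
      ((h.zd D0).comap (f i)).relIndex (𝔞 ⊓ h.zx) ≤ I := by
    intro i
    have h1 : (𝔞 ⊓ h.zx).map (f i) ≤ Pool.Agent.H72.BD.ints F := by
      rintro _ ⟨y, hy, rfl⟩
      exact hc y hy.1 i
    rw [AddSubgroup.relIndex_comap]
    exact ⟨fun h2 => hidx (AddSubgroup.relIndex_eq_zero_of_le_right h1 h2),
      (AddSubgroup.relIndex_le_of_le_right h1 hidx).trans hI⟩
  have e4 : (h.den D0 c ⊓ 𝔞).relIndex (𝔞 ⊓ h.zx) ≠ 0 ∧ (h.den D0 c ⊓ 𝔞).relIndex (𝔞 ⊓ h.zx) ≤ I ^ (d + 1) := by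
    rw [e2, AddSubgroup.inf_relIndex_right]
    refine ⟨AddSubgroup.relIndex_iInf_ne_zero fun i => (e3 i).1, ?_⟩
    refine (AddSubgroup.relIndex_iInf_le _).trans ?_
    refine (Finset.prod_le_prod' fun i _ => (e3 i).2).trans (le_of_eq ?_)
    rw [Finset.prod_const, Finset.card_univ, Fintype.card_fin]
  have e5 : (h.den D0 c ⊓ 𝔞).relIndex (h.zx) ≠ 0 := by
    rw [← e1]
    exact mul_ne_zero e4.1 a1
  refine ⟨fun h1 => e5 (AddSubgroup.relIndex_eq_zero_of_le_left inf_le_left h1), ?_⟩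
  refine (AddSubgroup.relIndex_le_of_le_left inf_le_left e5).trans ?_
  rw [← e1, mul_comm]
  exact Nat.mul_le_mul a2 e4.2

private theorem szof_choose (d : ℕ) : ∑ i : Fin (d + 1), ((d.choose i : ℝ)) ^ 2 ≤ 4 ^ d := by
  have h1 : ∀ i : Fin (d + 1), ((d.choose i : ℝ)) ^ 2 ≤ 2 ^ d * (d.choose i : ℝ) := by
    intro i
    have h2 : (d.choose i : ℝ) ≤ 2 ^ d := by
      exact_mod_cast Nat.choose_le_two_pow d i
    rw [sq]
    exact mul_le_mul_of_nonneg_right h2 (Nat.cast_nonneg _)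
  refine (Finset.sum_le_sum fun i _ => h1 i).trans ?_
  rw [← Finset.mul_sum]
  have h3 : ∑ i : Fin (d + 1), (d.choose i : ℝ) = 2 ^ d := by
    rw [Fin.sum_univ_eq_sum_range (fun i => (d.choose i : ℝ)) (d + 1)]
    exact_mod_cast Nat.sum_range_choose d
  rw [h3, ← mul_pow]
  norm_num

theorem Rad.siz_of (h : Rad B b m F x) (D0 : ℕ) {Ω : Type} [Field Ω] [CharZero Ω] [Algebra F Ω] (α : Ω)
    (hα : IsIntegral ℚ α) (d : ℕ) (hd : (minpoly F α).natDegree = d) (I : ℕ)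
    (hI : (h.zd D0).relIndex (Pool.Agent.H72.BD.ints F) ≤ I) :
    h.Siz D0 (cf F α d) (4 ^ d) ((I : ℝ) ^ (2 * (d + 1)) *
      Real.exp (2 * (d * Module.finrank ℚ F * absLogHeight₁ α))) := by
  obtain ⟨𝔞, A', h1, h2, h3, h4, h5⟩ := Pool.Agent.H72.BD.den_ideal (F := F) α hα d hd
  obtain ⟨h6, h7⟩ := h.den_index D0 (cf F α d) I A' hI 𝔞 h1 h2 h3 h4
  have hint : IsIntegral F α := hα.tower_top
  have hmon : (minpoly F α).Monic := minpoly.monic hint
  have hM1 : ∀ φ : F →+* ℂ, 1 ≤ ((minpoly F α).map φ).mahlerMeasure := by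
    intro φ
    refine one_le_mahlerMeasure_of_one_le_norm_leadingCoeff ?_
    rw [(hmon.map φ).leadingCoeff, norm_one]
  refine ⟨fun φ => ((minpoly F α).map φ).mahlerMeasure ^ 2, fun φ => ?_, fun φ => ?_, h6, ?_⟩
  · exact one_le_pow₀ (hM1 φ)
  · have h8 : ∀ i : Fin (d + 1), ‖φ (cf F α d i)‖ ^ 2 ≤
        ((d.choose i : ℝ)) ^ 2 * ((minpoly F α).map φ).mahlerMeasure ^ 2 := by
      intro i
      rw [← mul_pow]
      refine pow_le_pow_left₀ (norm_nonneg _) ?_ 2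
      have h9 := norm_coeff_le_choose_mul_mahlerMeasure i ((minpoly F α).map φ)
      rwa [coeff_map, hmon.natDegree_map, hd] at h9
    refine (Finset.sum_le_sum fun i _ => h8 i).trans ?_
    rw [← Finset.sum_mul]
    exact mul_le_mul_of_nonneg_right (szof_choose d) (sq_nonneg _)
  · rw [Finset.prod_pow]
    obtain ⟨P, hP⟩ : ∃ P : ℝ, P = ∏ φ : F →+* ℂ, ((minpoly F α).map φ).mahlerMeasure := ⟨_, rfl⟩
    rw [← hP] at h5 ⊢
    have hP0 : 0 ≤ P := by
      rw [hP]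
      exact Finset.prod_nonneg fun φ _ => mahlerMeasure_nonneg _
    have h10 : ((h.den D0 (cf F α d)).relIndex (h.zx) : ℝ) ≤ A' * (I : ℝ) ^ (d + 1) := by
      exact_mod_cast h7
    calc ((h.den D0 (cf F α d)).relIndex (h.zx) : ℝ) ^ 2 * P ^ 2
        ≤ (A' * (I : ℝ) ^ (d + 1)) ^ 2 * P ^ 2 :=
          mul_le_mul_of_nonneg_right (pow_le_pow_left₀ (Nat.cast_nonneg _) h10 2) (sq_nonneg _)
      _ = (I : ℝ) ^ (2 * (d + 1)) * (A' * P) ^ 2 := by ring
      _ ≤ (I : ℝ) ^ (2 * (d + 1)) *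
          (Real.exp (d * Module.finrank ℚ F * absLogHeight₁ α)) ^ 2 := by
          refine mul_le_mul_of_nonneg_left (pow_le_pow_left₀ (by positivity) h5 2) (by positivity)
      _ = _ := by
          rw [← Real.exp_nat_mul]
          norm_num

end Pool.Agent.H72.BK
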