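import Pool.Agent.H72.BK.Avoid
import Pool.Agent.H72.BK.SizOf
import Pool.Agent.H72.BK.WinOf

/-!
# Windows near rational positions with bounded denominators (MP_187c26_nt, Theorem VK)

Model (r = 1): `Pool/Agent/H72/BE/Near.lean` (with the numerical lemmas `siz_num`, `rho_num`, `winAt_mod`, …).

CONSTANTS. `K = K1 b d`, `Q1 = 4 K ^ (R0 + 1)`, `H = 4 K ^ R0`, `q0` from `kronr b hb hc H Q1`, `M = Q1 !`, `W = M * ((q0 + 1) ^ r)!`.
Given `T`: `N1` from the property of `q0` for `M` and `T' = (T + 1) * W`, `N' = N1 * q0 * (T + 1)`, `G = 7 N'`, `Λ = Lc r d`, `Y = Λ G ^ R0`, `B = ∑ b_i`, `Z = 4 r B N' ^ 2 Y`,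
`N2 = N' ^ R0 * N'`; the returned `N` is `max N2 Z`, `c = 1 / (8 (4 d + 2) N2 (2 Z) ^ r)`.
PROOF. `e = [A : ℚ]`, `w_i = m_i / Z ≥ 1` (natural division), `m_i ≤ 2 Z w_i`, `Z w_i ≤ m_i`, `[F : ℚ] = e ∏ m_i ≤ e (2 Z) ^ r ∏ w_i`.
(a) `T_s = exp (e ∏ w_i / 4)`: for `n ≤ N2`: `Rad.siz_of` for `α ^ n`, `I = relIndex ≤ exp (c [F : ℚ])`, `h(α ^ n) = n h(α) ≤ N2 c`:
`I ^ (2 (d + 1)) exp (2 d [F : ℚ] n h) ≤ exp ((2 (d + 1) + 2 d N2) c [F : ℚ]) ≤ T_s` : `Siz … T_s` (`Siz` is monotone in `T`).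
(b) `win_of_siz` for `α ^ 1`, `w`: `Λ w_i ≤ Z w_i ≤ m_i`; `N'' = ∏ Λ w_i`: `T_s ≤ 2 ^ (e N'' / 2)` (`1 / 4 ≤ log 2 / 2`) and `P = ∏ ρ_i ^ (Λ w_i)` has `P ^ 2 ≤ 2`:
`(ρ_i ^ (2 r Λ w_i)) ^ m_i = b_i ^ (2 r Λ w_i) ≤ 2 ^ (b_i 2 r Λ w_i) ≤ 2 ^ m_i` (`2 r B Λ ≤ Z`), so `P ^ (2 r) ≤ 2 ^ r`. Hence `Win h (cf F (α ^ 1) d) (Λ w) R0`.
(c) `Pool.Agent.H72.BD.stab` for `P n t R := Win h (cf F (α ^ n) d) (fun i => t * w i) R`, `ℓ0 = Λ`, `G`, `N'`, `R0 = R0 r d`: `n0 ≤ N' ^ R0`, `i`, `R ≤ R0`, `t = Λ G ^ i ≤ Y`, minimal up to `n' ≤ N'` at `t G`.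
From `Win` we get `a'` with `a' 0 = 0`; replace `a' j i` by `a' j i % m i` (`inw_mod`).
(d) `Setup` with `ℓ = t w`, `k = N' ℓ`, `gap = 3 N' ℓ`, `L = t G w = 7 N' ℓ = 2 gap + N' ℓ`, `T = T_s`: `hT`: `T_s ≤ 2 ^ (e ∏ w_i) ≤ 2 ^ (e ∏ k_i)`; `hgm`: `3 N' t w_i ≤ Z w_i ≤ m_i`;
`hQ`: `b_i ^ (2 N' r (2 N' ℓ_i)) ≤ 2 ^ (b_i 4 r N' ^ 2 t w_i) ≤ 2 ^ m_i`; `hh`: `n0 N' d h ≤ N2 d c ≤ 1 / 2 ≤ log 2`; `hmin` from `stab`; `frob`: `Q1 ≤ p ≤ N' ≤ N2 ≤ N`.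
(e) `near_pos` (with `hkr` from `kronr`) gives `h ≤ (q0 + 1) ^ r` with `|h M a_ji - k_i m_i| (T + 1) W ≤ m_i` for all `i`; `W = M h w'`: multiply by `w' ≤ W`.
(f) `chain` for `n' = 1` gives `Rep` for `α ^ n0` with windows `1 * a j i % m i = a j i`; `chain_size` for `n' = 1`, `Q ≤ T ≤ N'`. `T ℓ_i ≤ m_i` as `T Y ≤ Z`.
-/

set_option autoImplicit false

open MvPolynomial NumberField

namespace Pool.Agent.H72.BK

open Pool.Agent.H72.BE (Gm Box vl bv md mon Rep cf ctv mon_add mon_zero tw inw inw_mono inw_mod)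

private theorem nr_siz_mono {r : ℕ} {m : Fin r → ℕ} [∀ i, NeZero (m i)] {B : ℕ} {A F : Type} [Field A]
    [NumberField A] {b : Fin r → A} [Field F] [NumberField F] [Algebra A F] {x : Fin r → F}
    {h : Rad B b m F x} (D0 : ℕ)
    {ι : Type} [Fintype ι] {c : ι → F} {D T T' : ℝ} (hT : T ≤ T') (h1 : h.Siz D0 c D T) :
    h.Siz D0 c D T' := by
  obtain ⟨N, h1, h2, h3, h4⟩ := h1
  exact ⟨N, h1, h2, h3, h4.trans hT⟩

private theorem nr_winAt_mod {r : ℕ} {m : Fin r → ℕ} [∀ i, NeZero (m i)] {B : ℕ} {A F : Type} [Field A]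
    [NumberField A] {b : Fin r → A} [Field F] [NumberField F] [Algebra A F] {x : Fin r → F}
    (h : Rad B b m F x)
    {d R : ℕ} (c : Fin (d + 1) → F) (a : Fin (R + 1) → Fin r → ℕ) (ℓ : Fin r → ℕ)
    (hw : WinAt h c a ℓ) : WinAt h c (fun j i => a j i % m i) ℓ := by
  obtain ⟨g, hg, h1, h2⟩ := hw
  refine ⟨g, hg, h1, fun i l hl => ?_⟩
  obtain ⟨j, hj⟩ := h2 i l hl
  exact ⟨j, (inw_mod (a j) ℓ l).2 hj⟩

private theorem nr_pow (b y : ℕ) : b ^ y ≤ 2 ^ (b * y) := by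
  rw [pow_mul]
  exact Nat.pow_le_pow_left b.lt_two_pow_self.le y

/-- The numerical part: the size bound (`f = [F : ℚ]`, `V = [A : ℚ] ∏ w_i`, `U = (2 Z) ^ r`). -/
private theorem nr_siz {r : ℕ} {m : Fin r → ℕ} [∀ i, NeZero (m i)] {B : ℕ} {A F : Type} [Field A]
    [NumberField A] {b : Fin r → A} [Field F] [NumberField F] [Algebra A F] {x : Fin r → F}
    (h : Rad B b m F x)
    {Ω : Type} [Field Ω] [CharZero Ω] [Algebra F Ω] (α : Ω)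
    (D0 : ℕ) (hα : IsIntegral ℚ α) (d n N2 U V : ℕ) (hn : n ≤ N2)
    (hN2 : 1 ≤ N2) (hw : (Module.finrank ℚ F : ℝ) ≤ U * V) (c : ℝ) (hc0 : 0 < c)
    (hc : c * (8 * (4 * d + 2) * N2 * U) ≤ 1) (hd : (minpoly F (α ^ n)).natDegree = d)
    (hh : absLogHeight₁ α ≤ c)
    (hI : ((h.zd D0).relIndex (Pool.Agent.H72.BD.ints F) : ℝ) ≤
      Real.exp (c * Module.finrank ℚ F)) :
    h.Siz D0 (cf F (α ^ n) d) (4 ^ d) (Real.exp ((V : ℝ) / 4)) := by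
  have h1 := h.siz_of D0 (α ^ n) (hα.pow n) d hd _ le_rfl
  refine nr_siz_mono D0 ?_ h1
  rw [Pool.Agent.H4.RR.absLogHeight_pow Ω α hα n]
  have h2 : ((h.zd D0).relIndex (Pool.Agent.H72.BD.ints F) : ℝ) ^ (2 * (d + 1)) ≤
      Real.exp ((2 * (d + 1) : ℕ) * (c * Module.finrank ℚ F)) := by
    rw [Real.exp_nat_mul]
    exact pow_le_pow_left₀ (Nat.cast_nonneg _) hI _
  refine (mul_le_mul_of_nonneg_right h2 (Real.exp_nonneg _)).trans ?_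
  rw [← Real.exp_add]
  apply Real.exp_le_exp.2
  obtain ⟨f, hf⟩ : ∃ f : ℝ, f = Module.finrank ℚ F := ⟨_, rfl⟩
  rw [← hf] at hw ⊢
  have hf0 : 0 ≤ f := by rw [hf]; exact Nat.cast_nonneg _
  have hd0 : (0 : ℝ) ≤ d := Nat.cast_nonneg d
  have hN0 : (1 : ℝ) ≤ N2 := by exact_mod_cast hN2
  have hn0 : (n : ℝ) ≤ N2 := by exact_mod_cast hn
  have hU0 : (0 : ℝ) ≤ U := Nat.cast_nonneg U
  have hV0 : (0 : ℝ) ≤ V := Nat.cast_nonneg V
  have h3 : (n : ℝ) * absLogHeight₁ α ≤ N2 * c := by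
    calc (n : ℝ) * absLogHeight₁ α ≤ n * c := mul_le_mul_of_nonneg_left hh (Nat.cast_nonneg n)
      _ ≤ N2 * c := mul_le_mul_of_nonneg_right hn0 hc0.le
  have h4 : 2 * ((d : ℝ) * f * (n * absLogHeight₁ α)) ≤ 2 * (d * f * (N2 * c)) := by
    have : (d : ℝ) * f * (n * absLogHeight₁ α) ≤ d * f * (N2 * c) :=
      mul_le_mul_of_nonneg_left h3 (by positivity)
    linarith
  have h5 : ((2 * (d + 1) : ℕ) : ℝ) * (c * f) ≤ 2 * (d + 1) * N2 * (c * f) := by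
    push_cast
    have h51 : (0 : ℝ) ≤ c * f := by positivity
    have h52 : (2 : ℝ) * (d + 1) ≤ 2 * (d + 1) * N2 := le_mul_of_one_le_right (by positivity) hN0
    exact mul_le_mul_of_nonneg_right h52 h51
  have h6 : 2 * (d + 1) * (N2 : ℝ) * (c * f) + 2 * (d * f * (N2 * c)) =
      (4 * d + 2) * N2 * c * f := by ring
  have h7 : (4 * d + 2) * (N2 : ℝ) * c * f ≤ (4 * d + 2) * N2 * c * (U * V) :=
    mul_le_mul_of_nonneg_left hw (by positivity)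
  have h8 : (4 * d + 2) * (N2 : ℝ) * c * (U * V) =
      c * (8 * (4 * d + 2) * N2 * U) * (V / 8) := by ring
  have h9 : c * (8 * (4 * d + 2) * N2 * U) * ((V : ℝ) / 8) ≤ 1 * (V / 8) :=
    mul_le_mul_of_nonneg_right hc (by positivity)
  linarith

/-- The numerical part: `∏ rb_i ^ (s w_i)` has square at most `2`. -/
private theorem nr_rho {r : ℕ} (B : ℕ) (m w : Fin r → ℕ) [∀ i, NeZero (m i)] (hr1 : 1 ≤ r)
    (hb : 2 ≤ B) (hw : ∀ i, B * (2 * r * w i) ≤ m i) :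
    (∏ i, rb B m i ^ w i) ^ 2 ≤ 2 := by
  have h1 : ∀ i, rb B m i ^ (2 * r * w i) ≤ 2 := by
    intro i
    have hm : m i ≠ 0 := NeZero.ne _
    have h2 : (rb B m i ^ (2 * r * w i)) ^ m i ≤ 2 ^ m i := by
      rw [← pow_mul, mul_comm (2 * r * w i), pow_mul, rb_pow i hm]
      have h3 : B ^ (2 * r * w i) ≤ 2 ^ m i :=
        (nr_pow B _).trans (Nat.pow_le_pow_right (by norm_num) (hw i))
      exact_mod_cast h3
    exact le_of_pow_le_pow_left₀ hm (by norm_num) h2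
  have h0 : 0 ≤ ∏ i, rb B m i ^ w i :=
    Finset.prod_nonneg fun i _ => pow_nonneg (rb_pos hb i).le _
  have h4 : ((∏ i, rb B m i ^ w i) ^ 2) ^ r ≤ 2 ^ r := by
    rw [← pow_mul, ← Finset.prod_pow]
    calc ∏ i, (rb B m i ^ w i) ^ (2 * r) ≤ ∏ _i : Fin r, (2 : ℝ) := by
          refine Finset.prod_le_prod (fun i _ => pow_nonneg (pow_nonneg (rb_pos hb i).le _) _)
            fun i _ => ?_
          rw [← pow_mul, mul_comm (w i)]
          exact h1 i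
      _ = 2 ^ r := by rw [Finset.prod_const, Finset.card_univ, Fintype.card_fin]
  exact le_of_pow_le_pow_left₀ (by omega) (by norm_num) h4

private theorem nr_log : (1 : ℝ) / 2 ≤ Real.log 2 := by
  have := Real.log_two_gt_d9
  linarith

/-- The numerical part: `exp (V / 4) P ^ E ≤ 2 ^ E` for `V ≤ E`, `P ^ 2 ≤ 2`. -/
private theorem nr_TP (V E : ℕ) (P : ℝ) (hVE : V ≤ E) (hP : P ^ 2 ≤ 2) :
    Real.exp ((V : ℝ) / 4) * P ^ E ≤ 2 ^ E := by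
  have h1 : Real.exp ((V : ℝ) / 4) ^ 2 ≤ 2 ^ E := by
    rw [← Real.exp_nat_mul]
    have h2 : (2 : ℝ) ^ E = Real.exp (E * Real.log 2) := by
      rw [Real.exp_nat_mul, Real.exp_log (by norm_num)]
    rw [h2]
    apply Real.exp_le_exp.2
    push_cast
    have h3 : (V : ℝ) ≤ E := by exact_mod_cast hVE
    have h4 : (0 : ℝ) ≤ E := Nat.cast_nonneg E
    have h5 := mul_le_mul_of_nonneg_left nr_log h4
    linarith
  have h2 : (P ^ E) ^ 2 ≤ 2 ^ E := by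
    rw [← pow_mul, mul_comm, pow_mul]
    exact pow_le_pow_left₀ (sq_nonneg _) hP _
  have h3 : (Real.exp ((V : ℝ) / 4) * P ^ E) ^ 2 ≤ (2 ^ E) ^ 2 := by
    rw [mul_pow]
    calc Real.exp ((V : ℝ) / 4) ^ 2 * (P ^ E) ^ 2 ≤ 2 ^ E * 2 ^ E :=
          mul_le_mul h1 h2 (sq_nonneg _) (by positivity)
      _ = (2 ^ E) ^ 2 := by ring
  exact le_of_pow_le_pow_left₀ (by norm_num) (by positivity) h3

private theorem nr_T2 (V E : ℕ) (hVE : V ≤ E) : Real.exp ((V : ℝ) / 4) ≤ 2 ^ E := by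
  have h := nr_TP V E 1 hVE (by norm_num)
  rwa [one_pow, mul_one] at h

/-- `1 ≤ m / Z`, `m ≤ 2 Z (m / Z)`. -/
private theorem nr_div (m Z : ℕ) (hZ : 1 ≤ Z) (hZm : Z ≤ m) :
    1 ≤ m / Z ∧ Z * (m / Z) ≤ m ∧ m ≤ 2 * Z * (m / Z) := by
  have hw1 : 1 ≤ m / Z := (Nat.one_le_div_iff (by omega)).2 hZm
  refine ⟨hw1, Nat.mul_div_le m Z, ?_⟩
  have h1 : m < Z * (m / Z + 1) := Nat.lt_mul_div_succ m (by omega)
  have h2 : Z * (m / Z + 1) ≤ 2 * Z * (m / Z) := by nlinarith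
  omega

private theorem nr_end (W M h' w' T m a : ℕ) (k : ℤ) (hWw : W = M * h' * w') (hw'W : w' ≤ W)
    (hk : |(h' : ℤ) * M * a - k * m| * ((T + 1) * W : ℕ) ≤ m) :
    |(W : ℤ) * a - (w' * k) * m| * T ≤ m := by
  have e1 : (W : ℤ) * a - w' * k * m = w' * ((h' : ℤ) * M * a - k * m) := by
    rw [hWw]
    push_cast
    ring
  rw [e1, abs_mul, Nat.abs_cast]
  refine le_trans ?_ hk
  have h0 := abs_nonneg ((h' : ℤ) * M * a - k * m)
  generalize |(h' : ℤ) * M * a - k * m| = A' at h0 ⊢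
  push_cast
  have h1 : (w' : ℤ) * T ≤ (T + 1) * W := by
    have h2 : (w' : ℤ) ≤ W := by exact_mod_cast hw'W
    have hT0 : (0 : ℤ) ≤ T := Int.natCast_nonneg T
    have hw0 : (0 : ℤ) ≤ w' := Int.natCast_nonneg w'
    nlinarith
  calc (w' : ℤ) * A' * T = A' * (w' * T) := by ring
    _ ≤ A' * ((T + 1) * W) := mul_le_mul_of_nonneg_left h1 h0

private theorem nr_hh (n0 N N2 d U : ℕ) (c H : ℝ) (hn : n0 * N ≤ N2) (hU1 : 1 ≤ U) (hc0 : 0 < c)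
    (hc1 : c * (8 * (4 * d + 2) * N2 * U) ≤ 1) (hh : H ≤ c) :
    n0 * N * d * H ≤ Real.log 2 := by
  have h1 : (n0 : ℝ) * N * d ≤ N2 * d := by
    have h2 : (n0 : ℝ) * N ≤ N2 := by exact_mod_cast hn
    exact mul_le_mul_of_nonneg_right h2 (Nat.cast_nonneg d)
  have h2 : (n0 : ℝ) * N * d * H ≤ n0 * N * d * c :=
    mul_le_mul_of_nonneg_left hh (by positivity)
  have h3 : (n0 : ℝ) * N * d * c ≤ N2 * d * c := mul_le_mul_of_nonneg_right h1 hc0.le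
  have h4 : (N2 : ℝ) * d * c ≤ 1 / 2 := by
    have h5 : (1 : ℝ) ≤ U := by exact_mod_cast hU1
    have h6 : (0 : ℝ) ≤ N2 * c := by positivity
    have h7 : (0 : ℝ) ≤ (d : ℝ) := Nat.cast_nonneg d
    have h8 : c * (8 * (4 * d + 2) * N2 * U) = N2 * c * (8 * (4 * d + 2)) * U := by ring
    have h9 : N2 * c * (8 * (4 * d + 2)) ≤ N2 * c * (8 * (4 * d + 2)) * U :=
      le_mul_of_one_le_right (by positivity) h5
    have h10 : N2 * c * (8 * (4 * (d : ℝ) + 2)) ≤ 1 := h9.trans (h8 ▸ hc1)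
    nlinarith [mul_nonneg h6 h7]
  exact h2.trans (h3.trans (h4.trans nr_log))

theorem near {K : Type} [Field K] [NumberField K] {r : ℕ} (hr1 : 1 ≤ r) (b : Fin r → 𝓞 K)
    (hb0 : ∀ i, b i ≠ 0) (hind : ∀ j : Fin r → ℤ, ∏ i, (b i : K) ^ j i = 1 → j = 0) (B : ℕ)
    (hB2 : 2 ≤ B) (D0 : ℕ) (hD0 : 1 ≤ D0) (d : ℕ) (hd : 1 ≤ d) (Q0 : ℕ) :
    ∃ Q1 W : ℕ, Q0 ≤ Q1 ∧ 2 ^ (d + 3) ≤ Q1 ∧ 1 ≤ W ∧ ∀ T : ℕ, ∃ (N : ℕ) (c : ℝ), 1 ≤ N ∧ 0 < c ∧
      ∀ (m : Fin r → ℕ) [∀ i, NeZero (m i)] (A F : Type) [Field A] [NumberField A] [Field F]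
        [NumberField F] [Algebra K A] [Algebra A F] (x : Fin r → F)
        (h : Rad B (fun i => algebraMap (𝓞 K) A (b i)) m F x) (Ω : Type) [Field Ω]
        [CharZero Ω] [Algebra F Ω] (α : Ω),
        IsIntegral ℚ α → (∀ i, N ≤ m i) →
        (∀ n, 1 ≤ n → n ≤ N → (minpoly F (α ^ n)).natDegree = d) →
        absLogHeight₁ α ≤ c →
        (((h.zd D0).relIndex (Pool.Agent.H72.BD.ints F) : ℝ) ≤
          Real.exp (c * Module.finrank ℚ F)) →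
        (∀ p : ℕ, p.Prime → Q1 ≤ p → p ≤ N →
          ∃ (𝔮 : Ideal (𝓞 K)) (σ : A →+* A), FrobK K A 𝔮 p σ) →
        ∃ (n R : ℕ) (ℓ gap : Fin r → ℕ) (a : Fin (R + 1) → Fin r → ℕ)
          (v : Fin (d + 1) → Fin (R + 1) → MvPolynomial (Fin r) A),
          1 ≤ n ∧ n ≤ N ∧ R ≤ R0 r d D0 ∧ Rep m x (cf F (α ^ n) d) ℓ gap a v ∧
          (∀ i, 1 ≤ ℓ i ∧ T * ℓ i ≤ m i) ∧
          (∀ j i, ∃ k : ℤ, |(W : ℤ) * a j i - k * m i| * T ≤ m i) ∧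
          ∀ Q : ℕ, 1 ≤ Q → Q ≤ T → ∀ σ : A →+* A,
            (∏ φ : F →+* ℂ, wt x a (tw σ v) Q φ) * ctv v ^ (2 * ∏ i, m i) ≤
              ((Cs B r d D0 : ℝ) ^ 2) ^ Module.finrank ℚ F := by
  obtain ⟨Q1, hQa, hQb, hQc⟩ : ∃ Q1, (HK K B r d D0 * K1 B r d D0) ^ Module.finrank ℚ K < Q1 ∧
      Q0 ≤ Q1 ∧ 2 ^ (d + 3) ≤ Q1 :=
    ⟨max (max ((HK K B r d D0 * K1 B r d D0) ^ Module.finrank ℚ K + 1) Q0) (2 ^ (d + 3)),
      (Nat.lt_succ_self _).trans_le ((le_max_left _ _).trans (le_max_left _ _)),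
      (le_max_right _ _).trans (le_max_left _ _), le_max_right _ _⟩
  obtain ⟨q0, hq0, hQ1, hkr0⟩ := kronr b hb0 hind (HK K B r d D0) Q1
  obtain ⟨M, hM⟩ : ∃ M, M = Q1.factorial := ⟨_, rfl⟩
  have hM1 : 1 ≤ M := by rw [hM]; exact Nat.factorial_pos _
  have hq01 : 1 ≤ q0 := hq0.one_lt.le
  obtain ⟨W, hW⟩ : ∃ W, W = M * ((q0 + 1) ^ r).factorial := ⟨_, rfl⟩
  have hW1 : 1 ≤ W := by rw [hW]; exact Nat.mul_pos hM1 (Nat.factorial_pos _)
  refine ⟨Q1, W, hQb, hQc, hW1, fun T => ?_⟩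
  obtain ⟨N1, hN1, hkr⟩ := hkr0 M ((T + 1) * W) hM1
  obtain ⟨N, hN⟩ : ∃ N, N = N1 * q0 * (T + 1) := ⟨_, rfl⟩
  have hN1q : N1 * q0 ≤ N := by rw [hN]; exact Nat.le_mul_of_pos_right _ (by omega)
  have hN0 : 1 ≤ N := le_trans (Nat.mul_pos hN1 hq01) hN1q
  have hTN : T ≤ N := by
    have : 1 * (T + 1) ≤ N1 * q0 * (T + 1) := Nat.mul_le_mul_right _ (Nat.mul_pos hN1 hq01)
    omega
  obtain ⟨Λ, hΛ⟩ : ∃ Λ, Λ = Lc r d D0 := ⟨_, rfl⟩
  have hΛ1 : 1 ≤ Λ := by rw [hΛ]; unfold Lc; omega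
  obtain ⟨G, hG⟩ : ∃ G, G = 7 * N := ⟨_, rfl⟩
  have hG1 : 1 ≤ G := by omega
  obtain ⟨N2, hN2⟩ : ∃ N2, N2 = N ^ R0 r d D0 * N := ⟨_, rfl⟩
  have hN2' : 1 ≤ N2 := by rw [hN2]; exact Nat.mul_pos (Nat.pow_pos hN0) hN0
  obtain ⟨Y, hY⟩ : ∃ Y, Y = Λ * G ^ R0 r d D0 := ⟨_, rfl⟩
  have hY1 : 1 ≤ Y := by rw [hY]; exact Nat.mul_pos hΛ1 (Nat.pow_pos hG1)
  have hΛY : Λ ≤ Y := by rw [hY]; exact Nat.le_mul_of_pos_right _ (Nat.pow_pos hG1)
  have hB1 : 1 ≤ B := by omega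
  have hNN : 1 ≤ N * N := Nat.mul_pos hN0 hN0
  obtain ⟨Z, hZ⟩ : ∃ Z, Z = 12 * r * B * (N * N) * Y := ⟨_, rfl⟩
  have hZ1 : 1 ≤ Z := by
    rw [hZ]
    exact Nat.mul_pos (Nat.mul_pos (Nat.mul_pos (Nat.mul_pos (by norm_num) hr1) hB1) hNN) hY1
  obtain ⟨U, hU⟩ : ∃ U, U = (2 * Z) ^ r := ⟨_, rfl⟩
  have hU1 : 1 ≤ U := by rw [hU]; exact Nat.pow_pos (by omega)
  obtain ⟨c, hcd⟩ : ∃ c : ℝ, c = 1 / (8 * (4 * d + 2) * N2 * U) := ⟨_, rfl⟩
  have hden : (0 : ℝ) < 8 * (4 * d + 2) * N2 * U := by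
    have h1 : (0 : ℝ) < N2 := by exact_mod_cast hN2'
    have h2 : (0 : ℝ) < U := by exact_mod_cast hU1
    positivity
  have hc0 : 0 < c := by rw [hcd]; positivity
  have hc1 : c * (8 * (4 * d + 2) * N2 * U) ≤ 1 := by
    rw [hcd, div_mul_cancel₀ _ hden.ne']
  refine ⟨max N2 Z, c, le_max_of_le_left hN2', hc0, ?_⟩
  intro m _ A F _ _ _ _ _ _ x h Ω _ _ _ α hα hmN hdeg hh hI hfrob
  obtain ⟨e, he⟩ : ∃ e, e = Module.finrank ℚ A := ⟨_, rfl⟩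
  have hZm : ∀ i, Z ≤ m i := fun i => (le_max_right _ _).trans (hmN i)
  obtain ⟨w, hw⟩ : ∃ w : Fin r → ℕ, w = fun i => m i / Z := ⟨_, rfl⟩
  have hw1 : ∀ i, 1 ≤ w i := fun i => by rw [hw]; exact (nr_div (m i) Z hZ1 (hZm i)).1
  have hwm : ∀ i, Z * w i ≤ m i := fun i => by rw [hw]; exact (nr_div (m i) Z hZ1 (hZm i)).2.1
  have hwm2 : ∀ i, m i ≤ 2 * Z * w i := fun i => by
    rw [hw]; exact (nr_div (m i) Z hZ1 (hZm i)).2.2
  obtain ⟨V, hV⟩ : ∃ V, V = e * ∏ i, w i := ⟨_, rfl⟩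
  have hFV : Module.finrank ℚ F ≤ U * V := by
    rw [← Module.finrank_mul_finrank ℚ A F, h.deg, ← he, hU, hV]
    calc e * ∏ i, m i ≤ e * ∏ i, (2 * Z * w i) :=
          Nat.mul_le_mul_left _ (Finset.prod_le_prod' fun i _ => hwm2 i)
      _ = (2 * Z) ^ r * (e * ∏ i, w i) := by
          rw [Finset.prod_mul_distrib, Finset.prod_const, Finset.card_univ, Fintype.card_fin]
          ring
  have hFV' : (Module.finrank ℚ F : ℝ) ≤ U * V := by exact_mod_cast hFV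
  have hsiz : ∀ n, 1 ≤ n → n ≤ N2 → h.Siz D0 (cf F (α ^ n) d) (4 ^ d) (Real.exp ((V : ℝ) / 4)) := by
    intro n hn1 hn2
    exact nr_siz h α D0 hα d n N2 U V hn2 hN2' hFV' c hc0 hc1
      (hdeg n hn1 (hn2.trans (le_max_left _ _))) hh hI
  -- the first windows
  have hαF : ∀ n : ℕ, IsIntegral F (α ^ n) := fun n => (hα.tower_top).pow n
  have h4Z : ∀ s : ℕ, s ≤ 12 * r * B * (N * N) → ∀ i, s * (Y * w i) ≤ m i := by
    intro s hs i
    calc s * (Y * w i) ≤ 12 * r * B * (N * N) * (Y * w i) := Nat.mul_le_mul_right _ hs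
      _ = Z * w i := by rw [hZ]; ring
      _ ≤ m i := hwm i
  have hc4 : 1 ≤ 12 * r * B * (N * N) :=
    Nat.mul_pos (Nat.mul_pos (Nat.mul_pos (by norm_num) hr1) hB1) hNN
  have hwin0 : Win h (cf F (α ^ 1) d) (fun i => Λ * w i) (R0 r d D0) := by
    rw [hΛ]
    refine win_of_siz h D0 hD0 _ (cf_last _ d (hαF 1) (hdeg 1 le_rfl (le_max_of_le_left hN2'))) _
      (hsiz 1 le_rfl hN2') w hw1 ?_ ?_
    · intro i
      rw [← hΛ]
      calc Λ * w i ≤ 1 * (Y * w i) := by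
            rw [one_mul]
            exact Nat.mul_le_mul_right _ hΛY
        _ ≤ m i := h4Z 1 hc4 i
    · rw [← he, ← hΛ]
      refine nr_TP V (e * ∏ i, Λ * w i) _ ?_ ?_
      · rw [hV]
        exact Nat.mul_le_mul_left _ (Finset.prod_le_prod' fun i _ =>
          Nat.le_mul_of_pos_left _ hΛ1)
      · refine nr_rho B m (fun i => Λ * w i) hr1 hB2 fun i => ?_
        calc B * (2 * r * (Λ * w i)) ≤ B * (2 * r * (Y * w i)) :=
              Nat.mul_le_mul_left _ (Nat.mul_le_mul_left _ (Nat.mul_le_mul_right _ hΛY))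
          _ = 2 * r * B * 1 * (Y * w i) := by ring
          _ ≤ m i := h4Z _ (Nat.mul_le_mul (Nat.mul_le_mul_right _
              (Nat.mul_le_mul_right _ (by norm_num))) hNN) i
  obtain ⟨n0, i0, R, hR, hi, hsm0, hn0, hn0N, hP, hmin⟩ :=
    Pool.Agent.H72.BD.stab (fun n t R => Win h (cf F (α ^ n) d) (fun i => t * w i) R)
      (fun n t t' R ht hw' => win_mono h _ _ _ R (fun i => Nat.mul_le_mul_right _ ht) hw')
      Q1 N G Λ (R0 r d D0) hG1 hN0 hwin0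
  obtain ⟨t, ht⟩ : ∃ t, t = Λ * G ^ i0 := ⟨_, rfl⟩
  have ht1 : 1 ≤ t := by rw [ht]; exact Nat.mul_pos hΛ1 (Nat.pow_pos hG1)
  have htY : t ≤ Y := by
    rw [ht, hY]
    exact Nat.mul_le_mul_left _ (Nat.pow_le_pow_right hG1 hi)
  have htG : Λ * G ^ (i0 + 1) = t * G := by rw [ht, pow_succ, mul_assoc]
  simp only [← ht] at hP
  simp only [htG] at hmin
  have hℓm : ∀ s : ℕ, s ≤ 12 * r * B * (N * N) → ∀ i, s * (t * w i) ≤ m i := fun s hs i =>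
    (Nat.mul_le_mul_left _ (Nat.mul_le_mul_right _ htY)).trans (h4Z s hs i)
  have hn0N2 : n0 * N ≤ N2 := by rw [hN2]; exact Nat.mul_le_mul_right _ hn0N
  have hNle : N ≤ N2 := by rw [hN2]; exact Nat.le_mul_of_pos_left _ (Nat.pow_pos hN0)
  obtain ⟨a', ha0', hwin'⟩ := hP
  have hsetup : Setup h α D0 d R n0 N (fun i => t * w i) (fun i => 3 * (N * (t * w i)))
      (fun i => N * (t * w i)) (fun i => t * G * w i) Q1
      (fun j i => a' j i % m i) (Real.exp ((V : ℝ) / 4)) :=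
    { hD0 := hD0
      int := hα
      a0 := by
        funext i
        rw [ha0']
        exact Nat.zero_mod _
      am := fun j i => Nat.mod_lt _ (NeZero.pos (m i))
      hR := hR
      hℓ := fun i => Nat.mul_pos ht1 (hw1 i)
      hn0 := hn0
      deg := fun n hn1 hn2 => hdeg n hn1 ((hn2.trans hn0N2).trans (le_max_left _ _))
      siz := fun n hn1 hn2 => hsiz n hn1 (hn2.trans hn0N2)
      hT := by
        rw [← he]
        refine nr_T2 V _ ?_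
        rw [hV]
        refine Nat.mul_le_mul_left _ (Finset.prod_le_prod' fun i _ => ?_)
        calc w i = 1 * (1 * w i) := by rw [one_mul, one_mul]
          _ ≤ N * (t * w i) := Nat.mul_le_mul hN0 (Nat.mul_le_mul_right _ ht1)
      hk := fun i => le_rfl
      hgap := fun i => by
        show N * (t * w i) + 2 * (N * (t * w i)) ≤ 3 * (N * (t * w i))
        omega
      hgm := fun i => by
        show 3 * (N * (t * w i)) ≤ m i
        rw [← mul_assoc]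
        refine hℓm _ ?_ i
        calc 3 * N = 3 * 1 * 1 * (1 * N) := by ring
          _ ≤ 12 * r * B * (N * N) := Nat.mul_le_mul (Nat.mul_le_mul (Nat.mul_le_mul
              (by norm_num) hr1) hB1) (Nat.mul_le_mul hN0 le_rfl)
      hL := fun i => by
        show 2 * (3 * (N * (t * w i))) + N * (t * w i) ≤ t * G * w i
        rw [hG]
        exact le_of_eq (by ring)
      hQ := fun i => by
        show B ^ (6 * N * r * (N * (t * w i) + N * (t * w i))) ≤ 2 ^ m i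
        refine (nr_pow B _).trans (Nat.pow_le_pow_right (by norm_num) ?_)
        calc B * (6 * N * r * (N * (t * w i) + N * (t * w i))) = 12 * r * B * (N * N) * (t * w i) := by ring
          _ ≤ m i := hℓm _ le_rfl i
      hh := nr_hh n0 N N2 d U c _ hn0N2 hU1 hc0 hc1 hh
      win := nr_winAt_mod h _ _ _ hwin'
      hmin := hmin
      hQ1 := hQa
      frob := fun p hp hpQ hpN => hfrob p hp hpQ ((hpN.trans hNle).trans (le_max_left _ _)) }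
  obtain ⟨v, hv⟩ := chain hsetup 1 (by
    intro p hp hp1
    exact absurd (Nat.dvd_one.1 hp1) hp.one_lt.ne') le_rfl hN0
  have hv' := fun Q hQ hQN (σ : A →+* A) => chain_size hsetup 1 le_rfl hN0 v hv Q hQ hQN σ
  have ea : (fun (j : Fin (R + 1)) (i : Fin r) => 1 * (a' j i % m i) % m i) =
      fun j i => a' j i % m i := by
    funext j i
    rw [one_mul, Nat.mod_mod]
  have ea' : (fun (j : Fin (R + 1)) (i : Fin r) => 1 * (fun j i => a' j i % m i) j i % m i) =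
      fun j i => a' j i % m i := ea
  have el : (fun i : Fin r => 1 * (fun i => t * w i) i) = fun i => t * w i := by
    funext i
    rw [one_mul]
  rw [mul_one, el, ea'] at hv
  refine ⟨n0, R, fun i => t * w i, fun i => 3 * (N * (t * w i)), fun j i => a' j i % m i, v,
    hn0, ?_, hR, hv, ?_, ?_, ?_⟩
  · refine le_max_of_le_left (hn0N.trans ?_)
    rw [hN2]
    exact Nat.le_mul_of_pos_right _ hN0
  · intro i
    refine ⟨Nat.mul_pos ht1 (hw1 i), ?_⟩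
    refine hℓm T (hTN.trans ?_) i
    calc N = 1 * 1 * 1 * (1 * N) := by ring
      _ ≤ 12 * r * B * (N * N) := Nat.mul_le_mul (Nat.mul_le_mul (Nat.mul_le_mul
          (by norm_num) hr1) hB1) (Nat.mul_le_mul hN0 le_rfl)
  · intro j i
    obtain ⟨h', hh1, hh2, hk'⟩ := near_pos hsetup q0 M N1 ((T + 1) * W) hq0 hQ1
      (fun p hp hpQ => by rw [hM]; exact (Nat.Prime.dvd_factorial hp).2 hpQ.le) hN1 hN1q
      (fun 𝔮 h1 h2 m a hm hx => hkr 𝔮 h1 h2 m a hm hx) j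
    obtain ⟨k, hk⟩ := hk' i
    obtain ⟨w', hw'⟩ := Nat.dvd_factorial (by omega : 0 < h') hh2
    have hWw : W = M * h' * w' := by rw [hW, hw']; ring
    have hw'W : w' ≤ W := by
      rw [hWw]
      exact Nat.le_mul_of_pos_left _ (Nat.mul_pos hM1 hh1)
    exact ⟨w' * k, nr_end W M h' w' T (m i) _ k hWw hw'W hk⟩
  · intro Q hQ hQT σ
    have := hv' Q hQ (hQT.trans hTN) σ
    rw [ea'] at this
    exact this

end Pool.Agent.H72.BK
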