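import Pool.Agent.H72.BK.Co
import Pool.Agent.H69.BE.ClP

/-!
# THEOREM VK (MP_187c26_nt), chapter S6: sizes and the congruence modulo a prime ideal of `K`

Text: `‖z_i‖ ^ (W m_i) ≤ B`, `W a_ji + E_i = k_ji m_i + p_ji`, `p_ji ≤ 2 E_i`, `(2 Q + 1) E_i ≤ W m_i`:
`|z_i| ^ (m_i k_ji + Q p_ji) = |z_i| ^ (W a_ji) |z_i| ^ e`, `e ≤ W m_i`. Cauchy–Schwarz for `(d + 1) (R + 1)` terms.
`N(𝔮) = p ^ g`, `1 ≤ g ≤ [K : ℚ]`; `β_i ^ W = b_i ∉ 𝔮`, `W (N(𝔮) - 1) ∣ Q - 1`: `β_i ^ Q ≡ β_i` modulo `𝔮`.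
-/

set_option autoImplicit false

open NumberField

namespace Pool.Agent.H72.BK

open Pool.Agent.H72.BE (Box bv mon)
open Pool.Agent.H69.BE (mon_map mon_mul mon_pow)

variable {r : ℕ}

theorem pow_le_of_pow_le {z B : ℝ} (hz : 0 ≤ z) (hB : 1 ≤ B) {n e : ℕ} (h : z ^ n ≤ B)
    (he : e ≤ n) : z ^ e ≤ B := by
  rcases le_total z 1 with h1 | h1
  · exact (pow_le_one₀ hz h1).trans hB
  · exact (pow_le_pow_right₀ h1 he).trans h

theorem norm_YK {R : ℕ} (B : ℕ) (m : Fin r → ℕ) (W Q : ℕ) (E : Fin r → ℕ) (hB : 1 ≤ B)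
    (hQ : 1 ≤ Q) (a k p : Fin (R + 1) → Fin r → ℕ) (z : Fin r → ℂ)
    (hz : ∀ i, ‖z i‖ ^ (W * m i) ≤ B) (hka : ∀ j i, W * a j i + E i = k j i * m i + p j i)
    (hpE : ∀ j i, p j i ≤ 2 * E i) (hE : ∀ i, 2 * Q * E i + E i ≤ W * m i) (j : Fin (R + 1)) :
    ‖mon (fun i => z i ^ m i) (k j) * mon z (fun i => Q * p j i)‖ ≤
      (B : ℝ) ^ r * ‖mon (fun i => z i ^ W) (a j)‖ := by
  have hB1 : (1 : ℝ) ≤ B := by exact_mod_cast hB
  have hBr : (B : ℝ) ^ r = ∏ _i : Fin r, (B : ℝ) := by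
    rw [Finset.prod_const, Finset.card_univ, Fintype.card_fin]
  rw [hBr]
  unfold mon
  rw [← Finset.prod_mul_distrib, norm_prod, norm_prod, ← Finset.prod_mul_distrib]
  refine Finset.prod_le_prod (fun i _ => norm_nonneg _) fun i _ => ?_
  obtain ⟨e, he⟩ : ∃ e, m i * k j i + Q * p j i = W * a j i + e ∧ e ≤ W * m i := by
    have h3 := hka j i
    have h4 := Nat.mul_le_mul_left Q (hpE j i)
    have h5 : m i * k j i = k j i * m i := mul_comm _ _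
    have h6 : Q * (2 * E i) = 2 * Q * E i := by ring
    have h7 := hE i
    have h8 : p j i ≤ Q * p j i := Nat.le_mul_of_pos_left _ hQ
    exact ⟨E i + Q * p j i - p j i, by omega, by omega⟩
  rw [norm_mul, norm_pow, norm_pow, norm_pow, norm_pow, norm_pow, ← pow_mul, ← pow_mul, ← pow_add,
    he.1, pow_add, mul_comm]
  exact mul_le_mul_of_nonneg_right (pow_le_of_pow_le (norm_nonneg _) hB1 (hz i) he.2)
    (by positivity)

theorem sum_leK {R : ℕ} (B d D0 : ℕ) (hR : R ≤ R0 r d D0) (X Y : Fin (R + 1) → ℂ)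
    (hY : ∀ j, ‖Y j‖ ≤ (B : ℝ) ^ r * ‖X j‖) (g : Fin (d + 1) → Fin (R + 1) → ℂ) :
    ∑ i, ‖∑ j, Y j * g i j‖ ≤
      (B : ℝ) ^ r * (d + 1) * (R0 r d D0 + 1) * √(∑ i, ∑ j, ‖X j * g i j‖ ^ 2) := by
  have hb0 : (0 : ℝ) ≤ (B : ℝ) ^ r := by positivity
  set y : Fin (d + 1) → Fin (R + 1) → ℝ := fun i j => ‖X j * g i j‖ with hy
  have h2 : ∑ i, ‖∑ j, Y j * g i j‖ ≤ (B : ℝ) ^ r * ∑ i, ∑ j, y i j := by
    rw [Finset.mul_sum]
    refine Finset.sum_le_sum fun i _ => ?_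
    rw [Finset.mul_sum]
    refine (norm_sum_le _ _).trans (Finset.sum_le_sum fun j _ => ?_)
    rw [norm_mul, hy]
    simp only
    rw [norm_mul, ← mul_assoc]
    exact mul_le_mul_of_nonneg_right (hY j) (norm_nonneg _)
  refine h2.trans ?_
  rw [mul_assoc, mul_assoc]
  refine mul_le_mul_of_nonneg_left ?_ hb0
  rw [← mul_assoc]
  obtain ⟨w, hw⟩ : ∃ w, w = ∑ i, ∑ j, ‖X j * g i j‖ ^ 2 := ⟨_, rfl⟩
  rw [← hw]
  have hwt : w = ∑ q : Fin (d + 1) × Fin (R + 1), y q.1 q.2 ^ 2 := by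
    rw [hw, Fintype.sum_prod_type]
  have hs : ∑ i, ∑ j, y i j = ∑ q : Fin (d + 1) × Fin (R + 1), y q.1 q.2 := by
    rw [Fintype.sum_prod_type]
  have hcs : (∑ q : Fin (d + 1) × Fin (R + 1), y q.1 q.2) ^ 2 ≤ ((d + 1 : ℝ) * (R + 1)) * w := by
    rw [hwt]
    have := sq_sum_le_card_mul_sum_sq (s := (Finset.univ : Finset (Fin (d + 1) × Fin (R + 1))))
      (f := fun q => y q.1 q.2)
    rw [Finset.card_univ, Fintype.card_prod, Fintype.card_fin, Fintype.card_fin] at this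
    push_cast at this
    exact this
  have hw0 : 0 ≤ w := by
    rw [hwt]
    exact Finset.sum_nonneg fun _ _ => sq_nonneg _
  rw [hs]
  have hRR : (R : ℝ) ≤ (R0 r d D0 : ℝ) := by exact_mod_cast hR
  refine le_of_sq_le_sq (hcs.trans ?_) (by positivity)
  rw [mul_pow, Real.sq_sqrt hw0]
  refine mul_le_mul_of_nonneg_right ?_ hw0
  have h4 : (1 : ℝ) ≤ (d + 1 : ℝ) * (R0 r d D0 + 1) := by
    have h5 : (0 : ℝ) ≤ d := Nat.cast_nonneg d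
    have h6 : (0 : ℝ) ≤ R0 r d D0 := Nat.cast_nonneg _
    nlinarith
  have h5 : (d + 1 : ℝ) * (R + 1) ≤ (d + 1 : ℝ) * (R0 r d D0 + 1) :=
    mul_le_mul_of_nonneg_left (by linarith) (by positivity)
  nlinarith

/-! ### The residue field -/

theorem prime_ne_bot {K : Type} [Field K] [NumberField K] (𝔮 : Ideal (𝓞 K)) (p : ℕ) (hp : p.Prime)
    (hp𝔮 : (p : 𝓞 K) ∈ 𝔮) : 𝔮 ≠ ⊥ := by
  rintro rfl
  rw [Ideal.mem_bot] at hp𝔮
  exact hp.ne_zero (by exact_mod_cast hp𝔮)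

/-- The norm of a prime ideal over `p`. -/
theorem norm_prime {K : Type} [Field K] [NumberField K] (𝔮 : Ideal (𝓞 K)) (p : ℕ) (hp : p.Prime)
    (h𝔮 : 𝔮.IsPrime) (hp𝔮 : (p : 𝓞 K) ∈ 𝔮) :
    ∃ g : ℕ, 1 ≤ g ∧ g ≤ Module.finrank ℚ K ∧ Ideal.absNorm 𝔮 = p ^ g := by
  have h1 : Ideal.absNorm 𝔮 ∣ p ^ Module.finrank ℚ K := by
    have h2 := Ideal.absNorm_dvd_absNorm_of_le ((Ideal.span_singleton_le_iff_mem 𝔮).2 hp𝔮)
    rwa [Ideal.absNorm_span_natCast, RingOfIntegers.rank] at h2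
  obtain ⟨g, hg, hgp⟩ := (Nat.dvd_prime_pow hp).1 h1
  refine ⟨g, Nat.one_le_iff_ne_zero.2 ?_, hg, hgp⟩
  rintro rfl
  rw [pow_zero, Ideal.absNorm_eq_one_iff] at hgp
  exact h𝔮.ne_top hgp

/-- Fermat's little theorem modulo a prime ideal. -/
theorem fermatK {K : Type} [Field K] [NumberField K] (𝔮 : Ideal (𝓞 K)) (p : ℕ) (hp : p.Prime)
    (h𝔮 : 𝔮.IsPrime) (hp𝔮 : (p : 𝓞 K) ∈ 𝔮) (b : 𝓞 K) (hb : b ∉ 𝔮) (t : ℕ)
    (ht : Ideal.absNorm 𝔮 - 1 ∣ t) : b ^ t - 1 ∈ 𝔮 := by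
  have h0 := prime_ne_bot 𝔮 p hp hp𝔮
  have hmax : 𝔮.IsMaximal := h𝔮.isMaximal h0
  let _ : Field (𝓞 K ⧸ 𝔮) := Ideal.Quotient.field 𝔮
  have hfin : Finite (𝓞 K ⧸ 𝔮) := Ideal.finiteQuotientOfFreeOfNeBot 𝔮 h0
  have _ := Fintype.ofFinite (𝓞 K ⧸ 𝔮)
  have hcard : Fintype.card (𝓞 K ⧸ 𝔮) = Ideal.absNorm 𝔮 := by
    rw [← Nat.card_eq_fintype_card]
    rfl
  obtain ⟨s, rfl⟩ := ht
  rw [← Ideal.Quotient.eq_zero_iff_mem, map_sub, map_pow, map_one, pow_mul, ← hcard,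
    FiniteField.pow_card_sub_one_eq_one, one_pow, sub_self]
  intro h
  exact hb (Ideal.Quotient.eq_zero_iff_mem.1 h)

/-- The exponent `f`. -/
theorem exists_fK (p W D e : ℕ) (hp : p.Prime) (hW : 1 ≤ W) (hpW : ¬ p ∣ W) (hD : 1 ≤ D) :
    ∃ f : ℕ, 1 ≤ f ∧ e.factorial ∣ f ∧ ∀ g, 1 ≤ g → g ≤ D → W * (p ^ g - 1) ∣ p ^ f - 1 := by
  obtain ⟨M, hM⟩ : ∃ M, M = W * (p ^ D.factorial - 1) := ⟨_, rfl⟩
  have hp1 : 1 < p ^ D.factorial := Nat.one_lt_pow (Nat.factorial_pos D).ne' hp.one_lt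
  have hM1 : 1 ≤ M := by
    rw [hM]
    exact Nat.mul_pos hW (by omega)
  have hcop : Nat.Coprime p M := by
    rw [hM]
    refine Nat.Coprime.mul_right ((Nat.Prime.coprime_iff_not_dvd hp).2 hpW) ?_
    rw [Nat.Prime.coprime_iff_not_dvd hp]
    intro h
    have h1 : p ∣ p ^ D.factorial := dvd_pow_self p (Nat.factorial_pos D).ne'
    have h2 := Nat.dvd_sub h1 h
    have h3 : p ^ D.factorial - (p ^ D.factorial - 1) = 1 := by omega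
    rw [h3] at h2
    exact hp.one_lt.ne' (Nat.dvd_one.1 h2)
  have htot : 1 ≤ Nat.totient M := Nat.totient_pos.2 hM1
  refine ⟨Nat.totient M * e.factorial, Nat.mul_pos htot (Nat.factorial_pos e), dvd_mul_left _ _,
    fun g hg hgD => ?_⟩
  have h1 : W * (p ^ g - 1) ∣ M := by
    rw [hM]
    refine Nat.mul_dvd_mul_left _ ?_
    obtain ⟨c, hc⟩ := Nat.dvd_factorial hg hgD
    rw [hc]
    have h2 := Nat.sub_one_dvd_pow_sub_one (p ^ g) c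
    rwa [← pow_mul] at h2
  refine h1.trans ?_
  have h2 : p ^ (Nat.totient M * e.factorial) ≡ 1 [MOD M] := by
    have h3 := (Nat.ModEq.pow_totient hcop).pow e.factorial
    rwa [one_pow, ← pow_mul] at h3
  exact (Nat.modEq_iff_dvd' (Nat.one_le_pow _ _ hp.pos)).1 h2.symm

/-- The congruence for the factors. -/
theorem cgr_YK {S : Type} [CommRing S] (J : Ideal S) (W Q : ℕ) (β y b : Fin r → S) (t : ℕ)
    (hQ : Q = 1 + W * t) (hβ : ∀ i, β i ^ W = b i) (hb : ∀ i, b i ^ t - 1 ∈ J) (k p : Fin r → ℕ) :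
    ∃ c : S, c ∈ J ∧ mon β k * mon y (fun i => Q * p i) = (mon β k * mon y p) ^ Q + c := by
  refine ⟨mon β k * mon y (fun i => Q * p i) - (mon β k * mon y p) ^ Q, ?_, by ring⟩
  have h2 : mon y (fun i => Q * p i) = mon y p ^ Q := by
    unfold mon
    rw [← Finset.prod_pow]
    exact Finset.prod_congr rfl fun i _ => by rw [← pow_mul, mul_comm]
  have h1 : ∀ i, Ideal.Quotient.mk J (β i) ^ Q = Ideal.Quotient.mk J (β i) := by
    intro i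
    have h3 : Ideal.Quotient.mk J (b i) ^ t = 1 := by
      rw [← map_pow, ← map_one (Ideal.Quotient.mk J), Ideal.Quotient.eq]
      exact hb i
    rw [hQ, pow_add, pow_one, pow_mul, ← map_pow _ (β i) W, hβ, h3, mul_one]
  rw [← Ideal.Quotient.eq, h2, mul_pow, map_mul, map_mul]
  congr 1
  rw [map_pow, mon_map]
  unfold mon
  rw [← Finset.prod_pow]
  refine Finset.prod_congr rfl fun i _ => ?_
  rw [← pow_mul, mul_comm, pow_mul, h1]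

end Pool.Agent.H72.BK
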