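import Pool.Agent.H72.BK.SixB
import Pool.Agent.H72.BK.ClP
import Pool.Agent.H72.BK.Emb
import Pool.Agent.H69.BE.SixR

/-!
# THEOREM VK (MP_187c26_nt), chapter S6: the Frobenius step after the base change

Text: `F' = F(y)`, `y_i ^ W = x_i`, `β_i = y_i ^ m_i`, `u_i = ∑ β ^ k_j y ^ p_j v_ij(x) = y ^ E g c_i`,
`u'_i = ∑ β ^ k_j y ^ (Q p_j) v_ij^τ (x ^ Q)`. `∑ u_i α ^ i = 0`. If `∑ u'_i α ^ (Q i) ≠ 0`, then by `clPK`, `norm_YK`, `sum_leK`:
`p ^ (N e) ≤ N(𝔮) ^ ([A:K] [F':A] [K:ℚ]) ≤ (2 ^ (N e) (B ^ r (d + 1) (R0 + 1)) ^ (N e) (√(∏ wt) ctv ^ ∏ m) ^ e) ^ [K:ℚ]`, `N = [F : ℚ]`,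
`e = [F' : F]`.
-/

set_option autoImplicit false

open NumberField

namespace Pool.Agent.H72.BK

open Pool.Agent.H72.BE (Rep cf ctv mon tw)
open Pool.Agent.H69.BE (mon_map mon_mul mon_pow rep_baseR ctv_nn)

variable {r : ℕ}

theorem sixK {K : Type} [Field K] [NumberField K] {b : Fin r → 𝓞 K} {B D0 : ℕ} {m : Fin r → ℕ}
    [∀ i, NeZero (m i)] {d R W p f : ℕ} {E : Fin r → ℕ} {A F : Type} [Field A] [NumberField A]
    [Field F] [NumberField F] [Algebra K A] [Algebra A F] {x : Fin r → F} [Algebra F ℂ]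
    (h : Rad B (fun i => algebraMap (𝓞 K) A (b i)) m F x) (hW : 1 ≤ W) (y : Fin r → ℂ)
    (hy : ∀ i, y i ^ W = algebraMap F ℂ (x i)) (α : ℂ) (hα : IsIntegral ℚ α)
    (c : Fin (d + 1) → F) (hc : ∑ i, algebraMap F ℂ (c i) * α ^ (i : ℕ) = 0)
    {ℓ gap : Fin r → ℕ} (a k p' : Fin (R + 1) → Fin r → ℕ)
    (v : Fin (d + 1) → Fin (R + 1) → MvPolynomial (Fin r) A) (hr : Rep m x c ℓ gap a v)
    (hR : R ≤ R0 r d D0) (hka : ∀ j i, W * a j i + E i = k j i * m i + p' j i)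
    (hpE : ∀ j i, p' j i ≤ 2 * E i) (hE : ∀ i, 2 * p ^ f * E i + E i ≤ W * m i) (hp : p.Prime)
    (𝔮 : Ideal (𝓞 K)) (h𝔮 : 𝔮.IsPrime) (hp𝔮 : (p : 𝓞 K) ∈ 𝔮) (hb𝔮 : ∀ i, b i ∉ 𝔮)
    (hQ : W * (Ideal.absNorm 𝔮 - 1) ∣ p ^ f - 1)
    (hpK : K1 B r d D0 ^ Module.finrank ℚ K < p) (τ : A →+* A)
    (hτ : ∀ a : 𝓞 A, ∃ c : 𝓞 A, c ∈ 𝔮.map (algebraMap (𝓞 K) (𝓞 A)) ∧
      τ (a : A) = (a : A) ^ (p ^ f) + (c : A))
    (hsize : (∏ φ : F →+* ℂ, wt x a (tw τ v) (p ^ f) φ) * ctv v ^ (2 * ∏ i, m i) ≤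
      ((Cs B r d D0 : ℝ) ^ 2) ^ Module.finrank ℚ F)
    (hh : (p : ℝ) ^ f * d * absLogHeight₁ α ≤ Real.log 2) :
    ∑ i : Fin (d + 1), (∑ j, mon (fun i => y i ^ m i) (k j) * mon y (fun i => p ^ f * p' j i) *
      algebraMap F ℂ (MvPolynomial.aeval (fun l => x l ^ (p ^ f)) (MvPolynomial.map τ (v i j)))) *
        (α ^ (p ^ f)) ^ (i : ℕ) = 0 := by
  classical
  by_contra hne
  have hm : ∀ i, 1 ≤ m i := fun i => h.one_le i
  have hB1 : 1 ≤ B := by have := h.hB; omega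
  have hQ1 : 1 ≤ p ^ f := Nat.one_le_pow _ _ hp.pos
  set bC : Fin r → ℂ := fun i => algebraMap F ℂ (algebraMap A F (algebraMap (𝓞 K) A (b i)))
    with hbC
  have hyb : ∀ i, y i ^ (W * m i) = bC i := fun i => by
    rw [pow_mul, hy, ← map_pow, h.pow]
  have hintb : ∀ i, IsIntegral ℤ (bC i) := fun i => by
    have h1 : IsIntegral ℤ (algebraMap (𝓞 K) A (b i)) := h.int i
    exact (h1.map (algebraMap A F).toIntAlgHom).map (algebraMap F ℂ).toIntAlgHom
  have hinty : ∀ i, IsIntegral ℤ (y i) := fun i => by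
    refine IsIntegral.of_pow (Nat.mul_pos hW (hm i)) ?_
    rw [hyb]
    exact hintb i
  have hintF : ∀ i, IsIntegral F (y i) := fun i => ((hinty i).tower_top (A := ℚ)).tower_top
  set F' := IntermediateField.adjoin F (Set.range y) with hF'
  have hfd : FiniteDimensional F F' := IntermediateField.finiteDimensional_adjoin (by
    rintro _ ⟨i, rfl⟩
    exact hintF i)
  have hfdQ : FiniteDimensional ℚ F' := FiniteDimensional.trans ℚ F F'
  have hnf : NumberField F' := {}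
  let _ : Algebra A F' := ((algebraMap F F').comp (algebraMap A F)).toAlgebra
  have htow : IsScalarTower A F F' := IsScalarTower.of_algebraMap_eq fun _ => rfl
  let y' : Fin r → F' := fun i => ⟨y i, IntermediateField.subset_adjoin _ _ ⟨i, rfl⟩⟩
  have hy' : ∀ i, algebraMap F' ℂ (y' i) = y i := fun i => rfl
  have hinty' : ∀ i, IsIntegral ℤ (y' i) := fun i =>
    (isIntegral_algebraMap_iff (B := ℂ) (algebraMap F' ℂ).injective).1 (hinty i)
  let yA : Fin r → 𝓞 F' := fun i => ⟨y' i, hinty' i⟩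
  have hyA : ∀ i, ((yA i : 𝓞 F') : F') = y' i := fun i => rfl
  have hxy : ∀ i, y' i ^ W = algebraMap F F' (x i) := fun i => by
    apply (algebraMap F' ℂ).injective
    rw [map_pow, ← IsScalarTower.algebraMap_apply]
    exact hy i
  set j₁ : 𝓞 K →+* 𝓞 A := algebraMap (𝓞 K) (𝓞 A) with hj₁
  set j₂ : 𝓞 A →+* 𝓞 F' := algebraMap (𝓞 A) (𝓞 F') with hj₂
  have hjb : ∀ i, ((j₂ (j₁ (b i)) : 𝓞 F') : F') =
      algebraMap A F' (algebraMap (𝓞 K) A (b i)) := fun i => rfl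
  have hbA : ∀ i, (yA i ^ m i) ^ W = j₂ (j₁ (b i)) := fun i => by
    apply RingOfIntegers.ext
    have h1 : (((yA i ^ m i) ^ W : 𝓞 F') : F') = (y' i ^ m i) ^ W := rfl
    rw [h1, hjb, ← pow_mul, mul_comm, pow_mul, hxy, ← map_pow, h.pow]
    exact (IsScalarTower.algebraMap_apply A F F' _).symm
  set J : Ideal (𝓞 F') := (𝔮.map j₁).map j₂ with hJ
  obtain ⟨t, ht⟩ : W ∣ p ^ f - 1 := (dvd_mul_right W _).trans hQ
  have ht' : Ideal.absNorm 𝔮 - 1 ∣ t := by
    rw [ht] at hQ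
    exact Nat.dvd_of_mul_dvd_mul_left hW hQ
  have hQt : p ^ f = 1 + W * t := by omega
  have hbJ : ∀ i, (j₂ (j₁ (b i))) ^ t - 1 ∈ J := fun i => by
    have h1 := fermatK 𝔮 p hp h𝔮 hp𝔮 (b i) (hb𝔮 i) t ht'
    have h2 := Ideal.mem_map_of_mem j₂ (Ideal.mem_map_of_mem j₁ h1)
    rw [map_sub, map_sub, map_one, map_one, map_pow, map_pow] at h2
    exact h2
  set Y : Fin (R + 1) → 𝓞 F' := fun j => mon (fun i => yA i ^ m i) (k j) * mon yA (p' j) with hYd
  set Y' : Fin (R + 1) → 𝓞 F' := fun j =>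
    mon (fun i => yA i ^ m i) (k j) * mon yA (fun i => p ^ f * p' j i) with hY'd
  have hYY : ∀ j, ∃ c : 𝓞 F', c ∈ J ∧ Y' j = Y j ^ (p ^ f) + c := fun j =>
    cgr_YK J W (p ^ f) (fun i => yA i ^ m i) yA (fun i => j₂ (j₁ (b i))) t hQt hbA hbJ (k j) (p' j)
  have hYe : ∀ j, ((Y j : 𝓞 F') : F') = mon (fun i => y' i ^ m i) (k j) * mon y' (p' j) := by
    intro j
    have h1 : ((Y j : 𝓞 F') : F') = algebraMap (𝓞 F') F' (mon (fun i => yA i ^ m i) (k j)) *
        algebraMap (𝓞 F') F' (mon yA (p' j)) := map_mul _ _ _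
    rw [h1, mon_map, mon_map]
    congr 1
  have hYe' : ∀ j, ((Y' j : 𝓞 F') : F') =
      mon (fun i => y' i ^ m i) (k j) * mon y' (fun i => p ^ f * p' j i) := by
    intro j
    have h1 : ((Y' j : 𝓞 F') : F') = algebraMap (𝓞 F') F' (mon (fun i => yA i ^ m i) (k j)) *
        algebraMap (𝓞 F') F' (mon yA (fun i => p ^ f * p' j i)) := map_mul _ _ _
    rw [h1, mon_map, mon_map]
    congr 1
  set z : Fin r → 𝓞 F' := fun i => yA i ^ W with hz
  have hze : ∀ i, ((z i : 𝓞 F') : F') = algebraMap F F' (x i) := fun i => by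
    rw [← hxy]
    rfl
  -- evaluation at `z`
  have hev : ∀ P : MvPolynomial (Fin r) A, MvPolynomial.aeval (fun l => ((z l : 𝓞 F') : F')) P =
      algebraMap F F' (MvPolynomial.aeval x P) := by
    intro P
    simp only [hze]
    exact (MvPolynomial.aeval_algebraMap_apply F' x P)
  have hevQ : ∀ P : MvPolynomial (Fin r) A,
      MvPolynomial.aeval (fun l => ((z l : 𝓞 F') : F') ^ (p ^ f)) P =
      algebraMap F F' (MvPolynomial.aeval (fun l => x l ^ (p ^ f)) P) := by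
    intro P
    simp only [hze, ← map_pow]
    exact (MvPolynomial.aeval_algebraMap_apply F' (fun l => x l ^ (p ^ f)) P)
  have h0 : ∑ i : Fin (d + 1), algebraMap F' ℂ (∑ j, (Y j : F') *
      MvPolynomial.aeval (fun l => ((z l : 𝓞 F') : F')) (v i j)) * α ^ (i : ℕ) = 0 := by
    have h1 : ∀ i : Fin (d + 1), algebraMap F' ℂ (∑ j, (Y j : F') *
        MvPolynomial.aeval (fun l => ((z l : 𝓞 F') : F')) (v i j)) * α ^ (i : ℕ) =
        (mon y E * algebraMap F ℂ (MvPolynomial.aeval x (v (Fin.last d) 0))) *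
          (algebraMap F ℂ (c i) * α ^ (i : ℕ)) := by
      intro i
      rw [Finset.sum_congr rfl fun j _ => by rw [hev, hYe],
        rep_baseR (algebraMap F F') y' hxy c a k p' v hr hka i, map_mul, map_mul, mon_map,
        ← IsScalarTower.algebraMap_apply, ← IsScalarTower.algebraMap_apply]
      simp only [hy']
      ring
    rw [Finset.sum_congr rfl fun i _ => h1 i, ← Finset.mul_sum, hc, mul_zero]
  have hne' : ∑ i : Fin (d + 1), algebraMap F' ℂ (∑ j, (Y' j : F') *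
      MvPolynomial.aeval (fun l => ((z l : 𝓞 F') : F') ^ (p ^ f)) (MvPolynomial.map τ (v i j))) *
      α ^ (p ^ f * (i : ℕ)) ≠ 0 := by
    intro h1
    apply hne
    rw [← h1]
    refine Finset.sum_congr rfl fun i _ => ?_
    rw [pow_mul]
    congr 1
    rw [map_sum]
    refine Finset.sum_congr rfl fun j _ => ?_
    rw [hevQ, hYe', map_mul, map_mul, mon_map, mon_map, ← IsScalarTower.algebraMap_apply]
    simp only [hy', map_pow]
  have hcl := clPK (K := K) (F := F') (Ω := ℂ) α hα d R p f 𝔮 hp h𝔮 hp𝔮 τ hτ v z Y Y' hYY h0 hne'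
  set e := Module.finrank F F' with he
  have hepos : e ≠ 0 := (Module.finrank_pos (R := F) (M := F')).ne'
  set N := Module.finrank ℚ F with hN
  have hNpos : N ≠ 0 := (Module.finrank_pos (R := ℚ) (M := F)).ne'
  have hdeg : Module.finrank ℚ F' = N * e := by
    rw [hN, he, Module.finrank_mul_finrank]
  have hdegA : Module.finrank A F' = (∏ i, m i) * e := by
    rw [← h.deg, he]
    exact (Module.finrank_mul_finrank A F F').symm
  have hKF : Module.finrank ℚ K * (Module.finrank K A * ((∏ i, m i) * e)) = N * e := by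
    rw [← h.deg, ← mul_assoc, Module.finrank_mul_finrank ℚ K A, ← mul_assoc,
      Module.finrank_mul_finrank ℚ A F]
  set g : (F →+* ℂ) → ℝ := fun φ =>
    (B : ℝ) ^ r * (d + 1) * (R0 r d D0 + 1) * √(wt x a (tw τ v) (p ^ f) φ) with hg
  have hwt0 : ∀ (v' : Fin (d + 1) → Fin (R + 1) → MvPolynomial (Fin r) A) φ,
      0 ≤ wt x a v' (p ^ f) φ := by
    intro v' φ
    rw [wt]
    refine Finset.sum_nonneg fun i _ => Finset.sum_nonneg fun j _ => ?_
    positivity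
  have hprod : ∏ φ : F' →+* ℂ, ∑ i : Fin (d + 1), ‖φ (∑ j, (Y' j : F') *
      MvPolynomial.aeval (fun l => ((z l : 𝓞 F') : F') ^ (p ^ f))
        (MvPolynomial.map τ (v i j)))‖ ≤ ∏ φ : F' →+* ℂ, g (φ.comp (algebraMap F F')) := by
    refine Finset.prod_le_prod (fun φ _ => Finset.sum_nonneg fun i _ => norm_nonneg _) fun φ _ => ?_
    have hzz : ∀ i, ‖φ (y' i)‖ ^ (W * m i) ≤ B := fun i => by
      rw [← norm_pow, ← map_pow, pow_mul, hxy, ← map_pow, h.pow]
      exact h.up ((φ.comp (algebraMap F F')).comp (algebraMap A F)) i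
    have hX : ∀ j, mon (fun i => φ (y' i) ^ W) (a j) = φ (algebraMap F F' (mon x (a j))) := by
      intro j
      rw [mon_map, mon_map]
      congr 1
      funext i
      rw [← map_pow, hxy]
    have h1 := sum_leK B d D0 hR (fun j => φ (algebraMap F F' (mon x (a j))))
      (fun j => mon (fun i => φ (y' i) ^ m i) (k j) *
        mon (fun i => φ (y' i)) (fun i => p ^ f * p' j i))
      (fun j => by
        have h2 := norm_YK B m W (p ^ f) E hB1 hQ1 a k p' (fun i => φ (y' i)) hzz hka hpE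
          (fun i => by have := hE i; linarith) j
        rw [hX] at h2
        exact h2)
      (fun i j => φ (algebraMap F F' (MvPolynomial.aeval (fun l => x l ^ (p ^ f))
        (MvPolynomial.map τ (v i j)))))
    rw [hg]
    simp only
    refine le_trans (le_of_eq ?_) (h1.trans (le_of_eq ?_))
    · refine Finset.sum_congr rfl fun i _ => ?_
      congr 1
      rw [map_sum]
      refine Finset.sum_congr rfl fun j _ => ?_
      rw [hevQ, hYe', map_mul, map_mul, mon_map, mon_map]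
      simp only [map_pow]
    · congr 2
      unfold wt tw
      refine Finset.sum_congr rfl fun i _ => Finset.sum_congr rfl fun j _ => ?_
      rw [RingHom.comp_apply, map_mul, map_mul]
  have hprod2 : ∏ φ : F' →+* ℂ, g (φ.comp (algebraMap F F')) = (∏ φ : F →+* ℂ, g φ) ^ e :=
    Pool.Agent.H4.RR.prod_comp_embeddings F F' g
  have hcard : Fintype.card (F →+* ℂ) = N := by
    rw [NumberField.Embeddings.card]
  obtain ⟨Cc, hCc⟩ : ∃ Cc : ℝ, Cc = (B : ℝ) ^ r * (d + 1) * (R0 r d D0 + 1) := ⟨_, rfl⟩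
  have hCc0 : 0 ≤ Cc := by rw [hCc]; positivity
  obtain ⟨P, hP⟩ : ∃ P : ℝ, P = ∏ φ : F →+* ℂ, wt x a (tw τ v) (p ^ f) φ := ⟨_, rfl⟩
  have hP0 : 0 ≤ P := by
    rw [hP]
    exact Finset.prod_nonneg fun φ _ => hwt0 _ φ
  have hprod3 : ∏ φ : F →+* ℂ, g φ = Cc ^ N * √P := by
    rw [hg, Finset.prod_mul_distrib, Finset.prod_const, Finset.card_univ, hcard, ← hCc]
    congr 1
    have h1 : (∏ φ : F →+* ℂ, √(wt x a (tw τ v) (p ^ f) φ)) =
        √(∏ φ : F →+* ℂ, wt x a (tw τ v) (p ^ f) φ) := by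
      rw [Real.sqrt_eq_rpow, ← Real.finsetProd_rpow]
      · refine Finset.prod_congr rfl fun φ _ => ?_
        rw [Real.sqrt_eq_rpow]
      · intro φ _
        exact hwt0 _ φ
    rw [h1, hP]
  have hctv := ctv_nn v
  have hmain : √P * ctv v ^ (∏ i, m i) ≤ (Cs B r d D0 : ℝ) ^ N := by
    refine le_of_sq_le_sq ?_ (by positivity)
    rw [mul_pow, Real.sq_sqrt hP0, ← pow_mul, ← pow_mul, hP]
    refine le_trans (le_of_eq ?_) (hsize.trans (le_of_eq ?_))
    · rw [mul_comm (∏ i, m i) 2]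
    · rw [← pow_mul, mul_comm N 2]
  have hK1 : 2 * Cc * (Cs B r d D0 : ℝ) ≤ K1 B r d D0 := by
    rw [K1, hCc]
    push_cast
    have h1 : (1 : ℝ) ≤ (B : ℝ) ^ r := one_le_pow₀ (by exact_mod_cast hB1)
    have h2 : (B : ℝ) ^ r ≤ ((B : ℝ) ^ r) ^ 2 := by nlinarith
    have h3 : (0 : ℝ) ≤ (d + 1) * (R0 r d D0 + 1) * Cs B r d D0 := by positivity
    nlinarith [mul_le_mul_of_nonneg_right h2 h3]
  have hexp : Real.exp (((N * e : ℕ) : ℝ) * (p : ℝ) ^ f * d * absLogHeight₁ α) ≤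
      2 ^ (N * e) := by
    calc Real.exp (((N * e : ℕ) : ℝ) * (p : ℝ) ^ f * d * absLogHeight₁ α)
        = Real.exp (((N * e : ℕ) : ℝ) * ((p : ℝ) ^ f * d * absLogHeight₁ α)) := by
          congr 1; ring
      _ = (Real.exp ((p : ℝ) ^ f * d * absLogHeight₁ α)) ^ (N * e) := by rw [Real.exp_nat_mul]
      _ ≤ 2 ^ (N * e) := by
          refine pow_le_pow_left₀ (Real.exp_pos _).le ?_ _
          rw [← Real.exp_log (show (0 : ℝ) < 2 by norm_num)]
          exact Real.exp_le_exp.2 hh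
  rw [hdeg, hdegA] at hcl
  have hfin : (Ideal.absNorm 𝔮 : ℝ) ^ (Module.finrank K A * ((∏ i, m i) * e)) ≤
      (K1 B r d D0 : ℝ) ^ (N * e) := by
    refine hcl.trans ?_
    have h1 : (Real.exp (((N * e : ℕ) : ℝ) * (p : ℝ) ^ f * d * absLogHeight₁ α) *
        (∏ φ : F' →+* ℂ, ∑ i : Fin (d + 1), ‖φ (∑ j, (Y' j : F') *
          MvPolynomial.aeval (fun l => ((z l : 𝓞 F') : F') ^ (p ^ f))
            (MvPolynomial.map τ (v i j)))‖) * ctv v ^ ((∏ i, m i) * e)) ≤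
        2 ^ (N * e) * (Cc ^ N * √P) ^ e * ctv v ^ ((∏ i, m i) * e) := by
      refine mul_le_mul_of_nonneg_right ?_ (pow_nonneg hctv _)
      refine mul_le_mul hexp ?_ ?_ (by positivity)
      · rw [← hprod3, ← hprod2]
        exact hprod
      · exact Finset.prod_nonneg fun φ _ => Finset.sum_nonneg fun i _ => norm_nonneg _
    refine h1.trans ?_
    have h2 : 2 ^ (N * e) * (Cc ^ N * √P) ^ e * ctv v ^ ((∏ i, m i) * e) =
        (2 * Cc) ^ (N * e) * (√P * ctv v ^ (∏ i, m i)) ^ e := by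
      rw [mul_pow, mul_pow, mul_pow, ← pow_mul, ← pow_mul]
      ring
    rw [h2]
    refine le_trans ?_ (pow_le_pow_left₀ (by positivity) hK1 (N * e))
    rw [mul_pow (2 * Cc) (Cs B r d D0 : ℝ) (N * e), pow_mul (Cs B r d D0 : ℝ) N e]
    refine mul_le_mul_of_nonneg_left ?_ (by positivity)
    exact pow_le_pow_left₀ (by positivity) hmain e
  have hfpos : 0 < Module.finrank K A := Module.finrank_pos
  have hmpos : 0 < ∏ i, m i := Finset.prod_pos fun i _ => hm i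
  obtain ⟨G, hG⟩ : ∃ G, G = Module.finrank K A * ((∏ i, m i) * e) := ⟨_, rfl⟩
  have hGpos : G ≠ 0 := by
    rw [hG]
    exact (Nat.mul_pos hfpos (Nat.mul_pos hmpos (Nat.pos_of_ne_zero hepos))).ne'
  rw [← hG] at hfin hKF
  have hNq : p ≤ Ideal.absNorm 𝔮 := by
    obtain ⟨g', hg1, -, hg⟩ := norm_prime 𝔮 p hp h𝔮 hp𝔮
    rw [hg]
    exact Nat.le_self_pow (by omega) p
  have hlt : (K1 B r d D0 : ℝ) ^ (N * e) < (Ideal.absNorm 𝔮 : ℝ) ^ G := by
    rw [← hKF, pow_mul]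
    refine pow_lt_pow_left₀ ?_ (by positivity) hGpos
    have h1 : ((K1 B r d D0 ^ Module.finrank ℚ K : ℕ) : ℝ) < p := by exact_mod_cast hpK
    have h2 : (p : ℝ) ≤ Ideal.absNorm 𝔮 := by exact_mod_cast hNq
    push_cast at h1
    linarith
  linarith

end Pool.Agent.H72.BK
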