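import Pool.Agent.H72.BK.Lat
import Pool.Agent.H72.BK.Emb
import Pool.Agent.H72.BK.CB
import Pool.Agent.H72.BE.SizeA

/-!
# The weighted coefficient vectors (MP_187c26_nt, Theorem VK, S2)

Port of `Pool/Agent/H72/BE/SizeA.lean`; the radii `ρ i ∈ ℂ` are arbitrary (`rb⁻¹ ≤ ‖ρ i‖ ≤ rb`), because the size lemma is needed for the weights at
`t` and the coefficients at `t ∘ σ`.
-/

set_option autoImplicit false

open MvPolynomial NumberField

namespace Pool.Agent.H72.BK

open Pool.Agent.H72.BE (Gm Box vl bv md mon sm gdt fo fm inw Rep cf ctv mon_add mon_zero md_add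
  md_vl mb vv cmap cm gdt_cols gdt_nonneg)

variable {r : ℕ} {m : Fin r → ℕ} {A F : Type} [Field A] [NumberField A] {b : Fin r → A}
  [Field F] [NumberField F] [Algebra A F] {x : Fin r → F} {d R : ℕ}

/-- The size of a representation at a point. -/
noncomputable def wz (ρ : Fin r → ℂ) (a : Fin (R + 1) → Fin r → ℕ)
    (v : Fin (d + 1) → Fin (R + 1) → MvPolynomial (Fin r) A) (t : A →+* ℂ) (z : Fin r → ℂ) : ℝ :=
  ∑ i, ∑ j, ‖mon ρ (a j)‖ ^ 2 * ‖eval₂ t z (v i j)‖ ^ 2

theorem wt_eq [∀ i, NeZero (m i)] {B : ℕ} (h : Rad B b m F x) (a : Fin (R + 1) → Fin r → ℕ)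
    (v : Fin (d + 1) → Fin (R + 1) → MvPolynomial (Fin r) A) (σ : A →+* A) (Q : ℕ)
    (φ : F →+* ℂ) :
    wt x a (fun i j => map σ (v i j)) Q φ = wz (rho b m (φ.comp (algebraMap A F))) a v
      ((φ.comp (algebraMap A F)).comp σ) (fun i => φ (x i) ^ Q) := by
  unfold wt wz
  refine Finset.sum_congr rfl fun i _ => Finset.sum_congr rfl fun j _ => ?_
  have h1 : φ (aeval (fun k => x k ^ Q) (map σ (v i j))) =
      eval₂ ((φ.comp (algebraMap A F)).comp σ) (fun i => φ (x i) ^ Q) (v i j) := by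
    rw [aeval_def, eval₂_map, eval₂_comp_left]
    congr 1
    funext k
    show φ (x k ^ Q) = _
    rw [map_pow]
  rw [map_mul, norm_mul, mul_pow, h1, h.norm_mon]
  rfl

/-- The weighted coefficient vectors of the `v_ij` on `Gm N`. -/
noncomputable def uv (ρ : Fin r → ℂ) (Q : ℕ) (N : Fin r → ℕ) (t : A →+* ℂ)
    (a : Fin (R + 1) → Fin r → ℕ) (v : Fin (d + 1) → Fin (R + 1) → MvPolynomial (Fin r) A)
    (p : Fin (d + 1) × Fin (R + 1)) (l : Gm N) : ℂ :=
  mon ρ (a p.2) * (t ((v p.1 p.2).coeff (Finsupp.equivFunOnFinite.symm (vl l))) *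
    mon ρ (vl l) ^ Q)

private theorem sa_chr {N : Fin r → ℕ} [∀ i, NeZero (N i)] (χ : AddChar (Gm N) ℂ) (l : Gm N) :
    χ l = ∏ i, χ (Pi.single i 1) ^ (l i).val := by
  classical
  have h1 : ∀ s : Finset (Fin r), χ (∑ i ∈ s, (l i).val • (Pi.single i 1 : Gm N)) =
      ∏ i ∈ s, χ (Pi.single i 1) ^ (l i).val := by
    intro s
    induction s using Finset.induction_on with
    | empty => rw [Finset.sum_empty, Finset.prod_empty, AddChar.map_zero_eq_one]
    | insert i s hi ih =>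
      rw [Finset.sum_insert hi, Finset.prod_insert hi, AddChar.map_add_eq_mul, ih,
        AddChar.map_nsmul_eq_pow]
  have h2 : l = ∑ i, (l i).val • (Pi.single i 1 : Gm N) := by
    funext j
    rw [Finset.sum_apply, Finset.sum_eq_single j]
    · rw [Pi.smul_apply, Pi.single_eq_same, nsmul_eq_mul, mul_one, ZMod.natCast_zmod_val]
    · intro i _ hij
      rw [Pi.smul_apply, Pi.single_eq_of_ne' hij, smul_zero]
    · intro hj
      exact absurd (Finset.mem_univ j) hj
  conv_lhs => rw [h2]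
  exact h1 Finset.univ

omit [NumberField A] in
private theorem sa_zero (p : MvPolynomial (Fin r) A) (e : Fin r → ℕ) (i : Fin r)
    (h : p.degreeOf i < e i) : p.coeff (Finsupp.equivFunOnFinite.symm e) = 0 := by
  by_contra hne
  have h1 := monomial_le_degreeOf i (mem_support_iff.2 hne)
  rw [Finsupp.equivFunOnFinite_symm_apply_apply] at h1
  omega

omit [NumberField A] in
private theorem sa_sum (N : Fin r → ℕ) [∀ i, NeZero (N i)] (t : A →+* ℂ) (z : Fin r → ℂ)
    (p : MvPolynomial (Fin r) A) (hp : ∀ k, p.degreeOf k < N k) :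
    ∑ l : Gm N, t (p.coeff (Finsupp.equivFunOnFinite.symm (vl l))) * ∏ i, z i ^ (l i).val =
      eval₂ t z p := by
  classical
  rw [eval₂_eq']
  have hinj : Function.Injective fun l : Gm N => (Finsupp.equivFunOnFinite.symm (vl l) :
      Fin r →₀ ℕ) := by
    intro l l' h
    have h1 := Finsupp.equivFunOnFinite.symm.injective h
    funext i
    exact ZMod.val_injective _ (congrFun h1 i)
  have h1 : ∑ l : Gm N, t (p.coeff (Finsupp.equivFunOnFinite.symm (vl l))) *
      ∏ i, z i ^ (l i).val = ∑ e ∈ Finset.univ.image fun l : Gm N =>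
        (Finsupp.equivFunOnFinite.symm (vl l) : Fin r →₀ ℕ), t (p.coeff e) * ∏ i, z i ^ e i := by
    rw [Finset.sum_image fun l _ l' _ h => hinj h]
    refine Finset.sum_congr rfl fun l _ => ?_
    congr 1
  rw [h1]
  symm
  refine Finset.sum_subset (fun e he => ?_) fun e _ he => ?_
  · rw [Finset.mem_image]
    refine ⟨md N e, Finset.mem_univ _, ?_⟩
    ext i
    rw [Finsupp.equivFunOnFinite_symm_apply_apply]
    exact ZMod.val_natCast_of_lt ((monomial_le_degreeOf i he).trans_lt (hp i))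
  · rw [notMem_support_iff.1 he, map_zero, zero_mul]

omit [NumberField A] in
theorem fo_uv (ρ : Fin r → ℂ) (Q : ℕ) (N : Fin r → ℕ) [∀ i, NeZero (N i)] (t : A →+* ℂ)
    (a : Fin (R + 1) → Fin r → ℕ) (v : Fin (d + 1) → Fin (R + 1) → MvPolynomial (Fin r) A)
    (hv : ∀ i j k, (v i j).degreeOf k < N k) (χ : AddChar (Gm N) ℂ) :
    fo (uv ρ Q N t a v) χ = wz ρ a v t (fun i => ρ i ^ Q * χ (Pi.single i 1)) := by
  classical
  unfold fo wz
  rw [Fintype.sum_prod_type]
  refine Finset.sum_congr rfl fun i _ => Finset.sum_congr rfl fun j _ => ?_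
  have h1 : ∑ l : Gm N, uv ρ Q N t a v (i, j) l * χ l = mon ρ (a j) *
      eval₂ t (fun i => ρ i ^ Q * χ (Pi.single i 1)) (v i j) := by
    rw [← sa_sum N t _ (v i j) (hv i j), Finset.mul_sum]
    refine Finset.sum_congr rfl fun l _ => ?_
    have h2 : mon ρ (vl l) ^ Q = ∏ i, (ρ i ^ Q) ^ (l i).val := by
      unfold mon vl
      rw [← Finset.prod_pow]
      refine Finset.prod_congr rfl fun i _ => ?_
      ring
    simp only [mul_pow, Finset.prod_mul_distrib]
    rw [← sa_chr χ l, ← h2]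
    unfold uv
    ring
  rw [h1, norm_mul, mul_pow]

omit [NumberField A] in
private theorem sa_entry (ρ : Fin r → ℂ) (a : Fin (R + 1) → Fin r → ℕ)
    (v : Fin (d + 1) → Fin (R + 1) → MvPolynomial (Fin r) A) (n k : Fin r → ℕ)
    (hk : ∀ i j s, (v i j).degreeOf s + k s ≤ n s) (Q : ℕ) (N : Fin r → ℕ)
    [∀ i, NeZero (N i)] (hN : ∀ i, n i ≤ N i) (t : A →+* ℂ) (p : Box k)
    (q : Fin (d + 1) × Fin (R + 1)) (l : Gm N) :
    mon ρ (bv p) ^ Q * sm (uv ρ Q N t a v) (mb N k) p (q, l) =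
      t (if ∀ i, bv p i ≤ vl l i then
        (v q.1 q.2).coeff (Finsupp.equivFunOnFinite.symm (vl l - bv p)) else 0) *
        (mon ρ (a q.2) * mon ρ (vl l) ^ Q) := by
  have hpk : ∀ i, bv p i < k i := fun i => (p i).2
  have hpn : ∀ i, bv p i < N i := by
    intro i
    have h1 := hk 0 0 i
    have h2 := hN i
    have h3 := hpk i
    omega
  have hval : ∀ i, ((bv p i : ℕ) : ZMod (N i)).val = bv p i := fun i =>
    ZMod.val_natCast_of_lt (hpn i)
  show mon ρ (bv p) ^ Q * (mon ρ (a q.2) * (t ((v q.1 q.2).coeff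
    (Finsupp.equivFunOnFinite.symm (vl (l - mb N k p)))) *
    mon ρ (vl (l - mb N k p)) ^ Q)) = _
  by_cases hle : ∀ i, bv p i ≤ vl l i
  · rw [if_pos hle]
    have h1 : vl (l - mb N k p) = vl l - bv p := by
      funext i
      show (l i - ((bv p i : ℕ) : ZMod (N i))).val = (l i).val - bv p i
      rw [ZMod.val_sub (by rw [hval]; exact hle i), hval]
    have h2 : mon ρ (vl l) = mon ρ (bv p) * mon ρ (vl l - bv p) := by
      rw [← mon_add]
      congr 1
      funext i
      have := hle i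
      show vl l i = bv p i + (vl l i - bv p i)
      omega
    rw [h1, h2]
    ring
  · rw [if_neg hle, map_zero, zero_mul]
    push Not at hle
    obtain ⟨i, hi⟩ := hle
    have h1 : (v q.1 q.2).coeff (Finsupp.equivFunOnFinite.symm (vl (l - mb N k p))) = 0 := by
      refine sa_zero _ _ i ?_
      have h2 : vl (l - mb N k p) i = vl l i + N i - bv p i := by
        have h4 : l i - ((bv p i : ℕ) : ZMod (N i)) = ((vl l i + N i - bv p i : ℕ) : ZMod (N i)) := by
          have h5 : bv p i ≤ vl l i + N i := by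
            have := hpn i
            omega
          rw [Nat.cast_sub h5]
          simp [vl]
        show (l i - ((bv p i : ℕ) : ZMod (N i))).val = _
        rw [h4]
        refine ZMod.val_natCast_of_lt ?_
        have := hpn i
        omega
      rw [h2]
      have h3 := hk q.1 q.2 i
      have h4 := hN i
      have h5 := hpk i
      omega
    rw [h1, map_zero, zero_mul, mul_zero, mul_zero]

omit [NumberField A] in
theorem gdt_uv (ρ : Fin r → ℂ) (P : ℝ) (a : Fin (R + 1) → Fin r → ℕ)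
    (v : Fin (d + 1) → Fin (R + 1) → MvPolynomial (Fin r) A) (n k : Fin r → ℕ)
    (hk : ∀ i j s, (v i j).degreeOf s + k s ≤ n s) (hP : ∀ p : Box k, 1 ≤ P * ‖mon ρ (bv p)‖)
    (Q : ℕ) (N : Fin r → ℕ) [∀ i, NeZero (N i)] (hN : ∀ i, n i ≤ N i) (t : A →+* ℂ) :
    gdt (sm (uv ρ Q N t a v) (mb N k)) ≤ (P ^ (2 * Q)) ^ (∏ i, k i) *
      gdt (Matrix.of fun (p : Box k) (o : (Fin (d + 1) × Fin (R + 1)) × Box n) =>
        t (cm (vv v) k n p o) * (mon ρ (a o.1.2) * mon ρ (bv o.2) ^ Q)) := by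
  classical
  have h0 : 0 ≤ gdt (sm (uv ρ Q N t a v) (mb N k)) := gdt_nonneg _
  have hs : 1 ≤ (P ^ Q) ^ Fintype.card (Box k) * ‖∏ p : Box k, mon ρ (bv p) ^ Q‖ := by
    rw [norm_prod, ← Finset.card_univ, ← Finset.prod_const, ← Finset.prod_mul_distrib]
    refine Finset.prod_induction _ (fun z : ℝ => 1 ≤ z)
      (fun _ _ h1 h2 => one_le_mul_of_one_le_of_one_le h1 h2) le_rfl (fun p _ => ?_)
    rw [norm_pow, ← mul_pow]
    exact one_le_pow₀ (hP p)
  have hrow := gdt_row (sm (uv ρ Q N t a v) (mb N k)) fun p : Box k => mon ρ (bv p) ^ Q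
  have hle : gdt (sm (uv ρ Q N t a v) (mb N k)) ≤ (P ^ (2 * Q)) ^ (∏ i, k i) *
      gdt (Matrix.of fun (p : Box k) o =>
        mon ρ (bv p) ^ Q * sm (uv ρ Q N t a v) (mb N k) p o) := by
    rw [hrow, ← mul_assoc]
    have e1 : (P ^ (2 * Q)) ^ (∏ i, k i) * ‖∏ p : Box k, mon ρ (bv p) ^ Q‖ ^ 2 =
        ((P ^ Q) ^ Fintype.card (Box k) * ‖∏ p : Box k, mon ρ (bv p) ^ Q‖) ^ 2 := by
      rw [Fintype.card_pi, Finset.prod_congr rfl fun i _ => Fintype.card_fin (k i), mul_pow]
      congr 1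
      rw [← pow_mul, ← pow_mul, ← pow_mul]
      congr 1
      ring
    rw [e1]
    exact le_mul_of_one_le_left h0 (one_le_pow₀ hs)
  refine hle.trans (le_of_eq ?_)
  congr 1
  have hvl : ∀ e : Box n, vl (md N (bv e)) = bv e := by
    intro e
    funext i
    exact ZMod.val_natCast_of_lt (lt_of_lt_of_le (e i).2 (hN i))
  have hinj : Function.Injective fun o : (Fin (d + 1) × Fin (R + 1)) × Box n =>
      ((o.1, md N (bv o.2)) : (Fin (d + 1) × Fin (R + 1)) × Gm N) := by
    intro o o' h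
    have h1 : o.1 = o'.1 := (Prod.ext_iff.1 h).1
    have h2 : md N (bv o.2) = md N (bv o'.2) := (Prod.ext_iff.1 h).2
    have h3 : bv o.2 = bv o'.2 := by rw [← hvl, ← hvl o'.2, h2]
    refine Prod.ext h1 ?_
    funext i
    exact Fin.ext (congrFun h3 i)
  rw [← gdt_cols _ _ hinj]
  · congr 1
    ext p o
    show mon ρ (bv p) ^ Q * sm (uv ρ Q N t a v) (mb N k) p (o.1, md N (bv o.2)) = _
    rw [sa_entry ρ a v n k hk Q N hN t p o.1, hvl]
    rfl
  · rintro ⟨q, l⟩ ho p
    show mon ρ (bv p) ^ Q * sm (uv ρ Q N t a v) (mb N k) p (q, l) = 0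
    rw [sa_entry ρ a v n k hk Q N hN t p q]
    have h1 : ∃ i, n i ≤ vl l i := by
      by_contra hcon
      push Not at hcon
      apply ho
      refine ⟨(q, fun i => ⟨vl l i, hcon i⟩), ?_⟩
      refine Prod.ext rfl ?_
      funext i
      exact ZMod.natCast_zmod_val _
    obtain ⟨i, hi⟩ := h1
    have h2 : (if ∀ i, bv p i ≤ vl l i then
        (v q.1 q.2).coeff (Finsupp.equivFunOnFinite.symm (vl l - bv p)) else 0) = 0 := by
      split_ifs
      · refine sa_zero _ _ i ?_
        show _ < vl l i - bv p i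
        have h3 := hk q.1 q.2 i
        have h5 : bv p i < k i := (p i).2
        omega
      · rfl
    rw [h2, map_zero, zero_mul]

end Pool.Agent.H72.BK
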