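import Pool.Agent.H72.BK.Sep

/-!
# Multiples of a representation (MP_187c26_nt, Theorem VK, S2)

Model (r = 1, over ℤ): `Pool/Agent/H72/BD/Str.lean`.

PROOF. By `Rad.exists_sep` (windows `[a_j, a_j + n)`, `n ≤ gap ≤ m`, disjoint by `Rep.sep` and `inw_mono`):
`aeval x P * c i = ∑ j, x ^ a_j V_ij(x)`, all degrees of `V_ij` `< n`. Multiply by `g = aeval x (v last 0)` (`Rep.eq`):
`∑ j, x ^ a_j (v_l0 V_ij)(x) = ∑ j, x ^ a_j (P v_ij)(x)`, the polynomials have degrees `< n + ℓ ≤ gap` (`degreeOf_mul_le`). `Rad.sep_unique` with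
length `n + ℓ`: `v_l0 V_ij = P v_ij` for all `i, j`. So `v_l0 ∣ P v_ij` for all `i, j`, and the `v_ij` have no common factor (`Rep.prim`), so
`v_l0 ∣ P` (`MvPolynomial (Fin r) A` is a UFD; `str_dvd'` in BD/Str.lean with `UniqueFactorizationMonoid.toNormalizedGCDMonoid`).
`P = H v_l0`, and `v_l0 V_ij = H v_l0 v_ij` gives `V_ij = H v_ij` (`v_l0 ≠ 0`).
-/

set_option autoImplicit false

open MvPolynomial NumberField

namespace Pool.Agent.H72.BK

open Pool.Agent.H72.BE (Gm Box vl bv md mon sm gdt fo fm inw Rep cf ctv mon_add mon_zero md_add md_vl inw_mono inw_mod inw_shift)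

variable {r : ℕ} {m : Fin r → ℕ} [∀ i, NeZero (m i)] {B : ℕ} {A F : Type} [Field A]
  [NumberField A] {b : Fin r → A} [Field F] [NumberField F] [Algebra A F] {x : Fin r → F} {d R : ℕ}

private theorem str_dvd' {A ι : Type} [CommMonoidWithZero A] [NormalizedGCDMonoid A] [Fintype ι]
    (D P : A) (w : ι → A)
    (h : ∀ i, D ∣ P * w i) (hw : ∀ p : A, (∀ i, p ∣ w i) → IsUnit p) : D ∣ P := by
  classical
  have h1 : D ∣ Finset.univ.gcd (fun i => P * w i) := Finset.dvd_gcd fun i _ => h i
  have h3 : D ∣ P * Finset.univ.gcd w := h1.trans (Finset.gcd_mul_left' _ _ P).dvd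
  have h2 : IsUnit (Finset.univ.gcd w) := hw _ fun i => Finset.gcd_dvd (Finset.mem_univ i)
  rwa [h2.dvd_mul_right] at h3

omit [NumberField A] in
private theorem str_dvd {ι : Type} [Fintype ι] (D P : MvPolynomial (Fin r) A)
    (w : ι → MvPolynomial (Fin r) A) (h : ∀ i, D ∣ P * w i)
    (hw : ∀ p : MvPolynomial (Fin r) A, (∀ i, p ∣ w i) → IsUnit p) : D ∣ P :=
  let _ : StrongNormalizationMonoid (MvPolynomial (Fin r) A) :=
    UniqueFactorizationMonoid.strongNormalizationMonoid
  let _ := UniqueFactorizationMonoid.toNormalizedGCDMonoid (MvPolynomial (Fin r) A)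
  str_dvd' D P w h hw

theorem str (h : Rad B b m F x) {ℓ gap : Fin r → ℕ} {c : Fin (d + 1) → F}
    {a : Fin (R + 1) → Fin r → ℕ} {v : Fin (d + 1) → Fin (R + 1) → MvPolynomial (Fin r) A}
    (hr : Rep m x c ℓ gap a v) (n : Fin r → ℕ) (hn : ∀ i, 1 ≤ n i)
    (hgap : ∀ i, n i + ℓ i ≤ gap i) (P : MvPolynomial (Fin r) A)
    (hP : ∀ i, P.degreeOf i < n i)
    (hw : ∀ i l, h.co (aeval x P * c i) l ≠ 0 → ∃ j, inw (a j) n l) :
    ∃ H : MvPolynomial (Fin r) A, P = H * v (Fin.last d) 0 ∧
      ∀ i j k, (H * v i j).degreeOf k < n k := by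
  have hsep : ∀ k : Fin r → ℕ, (∀ i, k i ≤ gap i) → ∀ j j', j ≠ j' → ∀ l : Gm m,
      inw (a j) k l → ¬ inw (a j') k l := fun k hk j j' hj l h1 h2 =>
    hr.sep j j' hj l (inw_mono hk h1) (inw_mono hk h2)
  have hng : ∀ i, n i ≤ gap i := fun i => by have := hgap i; omega
  have hV : ∀ i, ∃ V : Fin (R + 1) → MvPolynomial (Fin r) A, (∀ j k, (V j).degreeOf k < n k) ∧
      aeval x P * c i = ∑ j, mon x (a j) * aeval x (V j) := by
    intro i
    obtain ⟨V, h1, h2, _⟩ := h.exists_sep a n hn (fun i => (hng i).trans (hr.gapm i))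
      (hsep n hng) _ (hw i)
    exact ⟨V, h1, h2⟩
  choose V hV1 hV2 using hV
  have key : ∀ i j, v (Fin.last d) 0 * V i j = P * v i j := by
    intro i j
    have h1 : (fun j => v (Fin.last d) 0 * V i j) = fun j => P * v i j := by
      refine h.sep_unique a (n + ℓ) (fun i => (hgap i).trans (hr.gapm i)) (hsep _ hgap) _ _
        ?_ ?_ ?_
      · intro j k
        have h2 := hr.deg (Fin.last d) 0 k
        have h3 := hV1 i j k
        have h4 := degreeOf_mul_le k (v (Fin.last d) 0) (V i j)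
        show (v (Fin.last d) 0 * V i j).degreeOf k < n k + ℓ k
        omega
      · intro j k
        have h2 := hr.deg i j k
        have h3 := hP k
        have h4 := degreeOf_mul_le k P (v i j)
        show (P * v i j).degreeOf k < n k + ℓ k
        omega
      · calc ∑ j, mon x (a j) * aeval x (v (Fin.last d) 0 * V i j)
            = aeval x (v (Fin.last d) 0) * ∑ j, mon x (a j) * aeval x (V i j) := by
              rw [Finset.mul_sum]
              refine Finset.sum_congr rfl fun j _ => ?_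
              rw [map_mul]
              ring
          _ = aeval x P * (aeval x (v (Fin.last d) 0) * c i) := by
              rw [← hV2 i]
              ring
          _ = aeval x P * ∑ j, mon x (a j) * aeval x (v i j) := by rw [hr.eq i]
          _ = ∑ j, mon x (a j) * aeval x (P * v i j) := by
              rw [Finset.mul_sum]
              refine Finset.sum_congr rfl fun j _ => ?_
              rw [map_mul]
              ring
    exact congrFun h1 j
  obtain ⟨H, hH⟩ := str_dvd (v (Fin.last d) 0) P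
    (fun q : Fin (d + 1) × Fin (R + 1) => v q.1 q.2)
    (fun q => ⟨V q.1 q.2, (key q.1 q.2).symm⟩)
    (fun p hp => hr.prim p fun i j => hp (i, j))
  refine ⟨H, by rw [hH, mul_comm], fun i j k => ?_⟩
  have h1 : v (Fin.last d) 0 * V i j = v (Fin.last d) 0 * (H * v i j) := by
    rw [key i j, hH]
    ring
  rw [← mul_left_cancel₀ hr.vl0 h1]
  exact hV1 i j k

end Pool.Agent.H72.BK
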