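import Pool.Agent.H72.BK.Step
import Pool.Agent.H72.BK.Kron
import Pool.Agent.H72.BK.Sep

/-!
# Two short vectors (MP_187c26_nt, Theorem VK, S4)

Port of `Pool/Agent/H72/BE/Two.lean`; `phK` instead of `ph1`, `ph2`. `S` = the largest integer with `(S K1) ^ D < N(𝔮)`.
-/

set_option autoImplicit false

open MvPolynomial NumberField

namespace Pool.Agent.H72.BK

open Pool.Agent.H72.BE (Gm Box vl bv md mon Rep cf ctv mon_add mon_zero tw inw)

variable {r : ℕ} {m : Fin r → ℕ} [∀ i, NeZero (m i)] {B : ℕ} {A F : Type} [Field A]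
  [NumberField A] [Field F] [NumberField F] [Algebra A F] {x : Fin r → F} {d R : ℕ}

/-- The constant of `phK`. -/
noncomputable def WK (K : Type) [Field K] [NumberField K] : ℕ := Classical.choose (phK K)

/-- The bound for the short vectors. -/
noncomputable def HK (K : Type) [Field K] [NumberField K] (B r d D0 : ℕ) : ℕ :=
  9 * (K1 B r d D0 ^ R0 r d D0 * WK K ^ (R0 r d D0 + 1))

theorem K1_two (B r d D0 : ℕ) (hB : 2 ≤ B) (hD0 : 1 ≤ D0) : 2 ≤ K1 B r d D0 := by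
  have h0 : 1 ≤ (B ^ r) ^ 2 := Nat.one_le_pow _ _ (Nat.pow_pos (by omega))
  have h3 : 1 ≤ Dd d D0 * (B ^ r) ^ 3 := by
    unfold Dd
    exact Nat.mul_pos (Nat.mul_pos (by norm_num) (Nat.mul_pos (Nat.pow_pos (by norm_num))
      (Nat.pow_pos hD0))) (Nat.pow_pos (Nat.pow_pos (by omega)))
  have h1 : 1 ≤ Cs B r d D0 := by
    unfold Cs
    have h2 : 1 ≤ (Dd d D0 * (B ^ r) ^ 3) ^ (2 ^ r) := Nat.one_le_pow _ _ h3
    omega
  unfold K1
  calc 2 = 2 * 1 * 1 * 1 * 1 := by norm_num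
    _ ≤ 2 * (B ^ r) ^ 2 * (d + 1) * (R0 r d D0 + 1) * Cs B r d D0 := by
      gcongr <;> omega

/-- The largest `S` with `(S K1) ^ D < N`. -/
private theorem exists_S (K1 D N X : ℕ) (hD : D ≠ 0) (hK1 : 1 ≤ K1) (hX : (X * K1) ^ D < N) :
    ∃ S : ℕ, (S * K1) ^ D < N ∧ N ≤ ((S + 1) * K1) ^ D ∧ X ≤ S := by
  have hex : ∃ S : ℕ, N ≤ ((S + 1) * K1) ^ D := by
    refine ⟨N, ?_⟩
    calc N ≤ (N + 1) * K1 := by
          calc N ≤ N + 1 := by omega
            _ ≤ (N + 1) * K1 := Nat.le_mul_of_pos_right _ hK1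
      _ ≤ _ := Nat.le_self_pow hD _
  have h1 := Nat.find_spec hex
  obtain ⟨S, hS⟩ : ∃ S, S = Nat.find hex := ⟨_, rfl⟩
  rw [← hS] at h1
  have hXS : X ≤ S := by
    by_contra hc
    have h2 : ((S + 1) * K1) ^ D ≤ (X * K1) ^ D :=
      Nat.pow_le_pow_left (Nat.mul_le_mul_right _ (by omega)) _
    omega
  refine ⟨S, ?_, h1, hXS⟩
  rcases Nat.eq_zero_or_pos S with h0 | h0
  · rw [h0, zero_mul, zero_pow hD]
    omega
  · have h2 := Nat.find_min hex (m := S - 1) (by omega)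
    rw [Nat.sub_add_cancel h0] at h2
    omega

private theorem deg_ex {A : Type} [Field A] {q : ℕ} {ℓ : Fin r → ℕ} (hq : 0 < q) (σ : A →+* A)
    (P : MvPolynomial (Fin r) A) (hP : ∀ k, P.degreeOf k < ℓ k) (c : A) (k : Fin r) :
    (C c * expand q (map σ P)).degreeOf k < q * ℓ k := by
  classical
  have hl : 0 < ℓ k := lt_of_le_of_lt (Nat.zero_le _) (hP k)
  rw [degreeOf_lt_iff (Nat.mul_pos hq hl)]
  intro e he
  rw [mem_support_iff, coeff_C_mul] at he
  have h1 : e ∈ (expand q (map σ P)).support := mem_support_iff.2 (right_ne_zero_of_mul he)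
  have h2 := support_expand_subset (p := q) _ h1
  rw [Finset.mem_image] at h2
  obtain ⟨e', he', rfl⟩ := h2
  rw [mem_support_iff, coeff_map] at he'
  have h3 : P.coeff e' ≠ 0 := fun h4 => he' (by rw [h4, map_zero])
  have h5 : e' k < ℓ k := lt_of_le_of_lt (monomial_le_degreeOf k (mem_support_iff.2 h3)) (hP k)
  show q * e' k < q * ℓ k
  exact Nat.mul_lt_mul_of_pos_left h5 hq

private theorem ae_ex {K A F : Type} [Field K] [Field A] [Field F] [Algebra K A]
    [Algebra A F] (x : Fin r → F) (q : ℕ)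
    (P : MvPolynomial (Fin r) A) (c : 𝓞 K) :
    aeval x (C (algebraMap (𝓞 K) A c) * expand q P) =
      kf (A := A) c * aeval (fun k => x k ^ q) P := by
  rw [map_mul, aeval_C, aeval_expand]
  rfl

private theorem kf_inj {K A F : Type} [Field K] [Field A] [Field F] [Algebra K A]
    [Algebra A F] : Function.Injective (kf (K := K) (A := A) (F := F)) := by
  intro a c h
  have h1 : algebraMap K A (a : K) = algebraMap K A (c : K) := (algebraMap A F).injective h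
  exact RingOfIntegers.ext ((algebraMap K A).injective h1)

private theorem map_ne {A : Type} [Field A] (σ : A →+* A) {P : MvPolynomial (Fin r) A}
    (hP : P ≠ 0) : map σ P ≠ 0 := by
  intro h1
  exact hP (map_injective σ σ.injective (by rw [h1, map_zero]))

theorem step_win {K : Type} [Field K] [NumberField K] [Algebra K A] (b : Fin r → 𝓞 K)
    (h : Rad B (fun i => algebraMap (𝓞 K) A (b i)) m F x) (D0 : ℕ) (hD0 : 1 ≤ D0)
    {Ω : Type} [Field Ω] [CharZero Ω] [Algebra F Ω] (α : Ω)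
    (hα : IsIntegral ℚ α) {ℓ gap : Fin r → ℕ} {a : Fin (R + 1) → Fin r → ℕ}
    {v : Fin (d + 1) → Fin (R + 1) → MvPolynomial (Fin r) A}
    (hr : Rep m x (cf F α d) ℓ gap a v) (hd : (minpoly F α).natDegree = d) (q : ℕ)
    (hq : q.Prime) (𝔮 : Ideal (𝓞 K)) (σ : A →+* A) (hσ : FrobK K A 𝔮 q σ)
    (hdq : (minpoly F (α ^ q)).natDegree = d) (hR : R ≤ R0 r d D0)
    (hsize : (∏ φ : F →+* ℂ, wt x a (tw σ v) q φ) * ctv v ^ (2 * ∏ i, m i) ≤
      ((Cs B r d D0 : ℝ) ^ 2) ^ Module.finrank ℚ F)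
    (hh : q * d * absLogHeight₁ α ≤ Real.log 2)
    (hbig : (HK K B r d D0 * K1 B r d D0) ^ Module.finrank ℚ K < q)
    (hqm : ∀ i, q * ℓ i ≤ m i) :
    WinAt h (cf F (α ^ q) d) (fun j i => q * a j i % m i) (fun i => q * ℓ i) := by
  have hK := K1_two B r d D0 h.hB hD0
  have hD : Module.finrank ℚ K ≠ 0 := Module.finrank_pos.ne'
  have hqN : q ≤ Ideal.absNorm 𝔮 := le_absNorm 𝔮 hσ.1 q hq hσ.2.1
  obtain ⟨hW1, hW⟩ : 1 ≤ WK K ∧ _ := Classical.choose_spec (phK K)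
  obtain ⟨S, hS1, hS2, hS3⟩ := exists_S (K1 B r d D0) (Module.finrank ℚ K) (Ideal.absNorm 𝔮)
    (HK K B r d D0) hD (by omega) (hbig.trans_le hqN)
  have hX : 2 * (K1 B r d D0 ^ R * WK K ^ (R + 1)) ≤ S := by
    refine le_trans ?_ hS3
    unfold HK
    refine Nat.mul_le_mul (by norm_num) (Nat.mul_le_mul ?_ ?_)
    · exact Nat.pow_le_pow_right (by omega) hR
    · exact Nat.pow_le_pow_right hW1 (by omega)
  have hβ : (fun j : Fin (R + 1) => bet b m (fun k => q * a j k)) 0 = 1 := by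
    simp [hr.a0, bet]
  obtain ⟨⟨s, hs0, hsd, hsb⟩, -⟩ := hW R 𝔮 (K1 B r d D0) S (by omega) hS1 hS2 hX
    (fun j => bet b m (fun k => q * a j k)) hβ
  have hSq : S ^ Module.finrank ℚ K < Ideal.absNorm 𝔮 :=
    lt_of_le_of_lt (Nat.pow_le_pow_left (Nat.le_mul_of_pos_right S (by omega)) _) hS1
  have hs00 : s 0 ≠ 0 := by
    intro h0
    apply hs0
    funext j
    refine zero_of_small 𝔮 S hSq (s j) ?_ (hsb j)
    have h2 := hsd j
    rwa [h0, zero_mul, sub_zero] at h2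
  have hst := step b h D0 α hα hr hd q hq 𝔮 σ hσ hdq hR hsize hh s hsd S hsb hS1
  have hpoly : aeval (fun k => x k ^ q) (map σ (v (Fin.last d) 0)) ≠ 0 := by
    intro h0
    have h1 : aeval x (C (algebraMap (𝓞 K) A 1) * expand q (map σ (v (Fin.last d) 0))) = 0 := by
      rw [ae_ex, h0, mul_zero]
    have h2 := h.aeval_eq_zero _ (fun k => (deg_ex hq.pos σ _ (hr.deg _ _) _ k).trans_le (hqm k)) h1
    rw [map_one, C_1, one_mul, expand_eq_zero hq.pos] at h2
    exact map_ne σ hr.vl0 h2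
  have hkf : kf (A := A) (F := F) (s 0) ≠ 0 := fun h0 => hs00 (kf_inj (by rw [h0, map_zero]))
  refine ⟨kf (A := A) (s 0) * aeval (fun k => x k ^ q) (map σ (v (Fin.last d) 0)),
    mul_ne_zero hkf hpoly, fun l hl => ?_, fun i l hl => ?_⟩
  · refine h.inw_of_ne_zero 0 (fun i => q * ℓ i) hqm
      (C (algebraMap (𝓞 K) A (s 0)) * expand q (map σ (v (Fin.last d) 0)))
      (deg_ex hq.pos σ _ (hr.deg _ _) _) l ?_
    rw [mon_zero, one_mul, ae_ex]
    exact hl
  · rw [hst i, map_sum, Finset.sum_apply] at hl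
    obtain ⟨j, -, hj⟩ := Finset.exists_ne_zero_of_sum_ne_zero hl
    refine ⟨j, h.inw_of_ne_zero _ (fun i => q * ℓ i) hqm
      (C (algebraMap (𝓞 K) A (s j)) * expand q (map σ (v i j)))
      (deg_ex hq.pos σ _ (hr.deg _ _) _) l ?_⟩
    rw [ae_ex, mul_left_comm]
    exact hj

theorem two {K : Type} [Field K] [NumberField K] [Algebra K A] (b : Fin r → 𝓞 K)
    (h : Rad B (fun i => algebraMap (𝓞 K) A (b i)) m F x) (D0 : ℕ) (hD0 : 1 ≤ D0)
    {Ω : Type} [Field Ω] [CharZero Ω] [Algebra F Ω] (α : Ω)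
    (hα : IsIntegral ℚ α) {ℓ gap : Fin r → ℕ} {a : Fin (R + 1) → Fin r → ℕ}
    {v : Fin (d + 1) → Fin (R + 1) → MvPolynomial (Fin r) A}
    (hr : Rep m x (cf F α d) ℓ gap a v) (hd : (minpoly F α).natDegree = d) (q : ℕ)
    (hq : q.Prime) (𝔮 : Ideal (𝓞 K)) (σ : A →+* A) (hσ : FrobK K A 𝔮 q σ)
    (hdq : (minpoly F (α ^ q)).natDegree = d) (hR : R ≤ R0 r d D0)
    (hsize : (∏ φ : F →+* ℂ, wt x a (tw σ v) q φ) * ctv v ^ (2 * ∏ i, m i) ≤
      ((Cs B r d D0 : ℝ) ^ 2) ^ Module.finrank ℚ F)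
    (hh : q * d * absLogHeight₁ α ≤ Real.log 2)
    (hbig : (HK K B r d D0 * K1 B r d D0) ^ Module.finrank ℚ K < q)
    (hqm : ∀ i, q * ℓ i ≤ m i)
    (hsep : ∀ j j', j ≠ j' → ∀ l : Gm m, inw (fun i => q * a j i % m i) (fun i => q * ℓ i) l →
      ¬ inw (fun i => q * a j' i % m i) (fun i => q * ℓ i) l) :
    ∃ s : Fin (R + 1) → 𝓞 K, (∀ j, s j - s 0 * bet b m (fun k => q * a j k) ∈ 𝔮) ∧
      s 0 ∉ 𝔮 ∧ ∀ j (τ : K →+* ℂ), ‖τ (s j)‖ ≤ HK K B r d D0 := by
  have hK := K1_two B r d D0 h.hB hD0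
  have hD : Module.finrank ℚ K ≠ 0 := Module.finrank_pos.ne'
  have hqN : q ≤ Ideal.absNorm 𝔮 := le_absNorm 𝔮 hσ.1 q hq hσ.2.1
  obtain ⟨hW1, hW⟩ : 1 ≤ WK K ∧ _ := Classical.choose_spec (phK K)
  obtain ⟨S, hS1, hS2, hS3⟩ := exists_S (K1 B r d D0) (Module.finrank ℚ K) (Ideal.absNorm 𝔮)
    (HK K B r d D0) hD (by omega) (hbig.trans_le hqN)
  have hXX : K1 B r d D0 ^ R * WK K ^ (R + 1) ≤
      K1 B r d D0 ^ R0 r d D0 * WK K ^ (R0 r d D0 + 1) := Nat.mul_le_mul
    (Nat.pow_le_pow_right (by omega) hR) (Nat.pow_le_pow_right hW1 (by omega))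
  have hX : 2 * (K1 B r d D0 ^ R * WK K ^ (R + 1)) ≤ S := by
    refine le_trans ?_ hS3
    unfold HK
    exact Nat.mul_le_mul (by norm_num) hXX
  have hβ : (fun j : Fin (R + 1) => bet b m (fun k => q * a j k)) 0 = 1 := by
    simp [hr.a0, bet]
  have hstep := fun (s : Fin (R + 1) → 𝓞 K) => step b h D0 α hα hr hd q hq 𝔮 σ hσ hdq hR hsize hh s
  obtain ⟨-, hph2⟩ := hW R 𝔮 (K1 B r d D0) S (by omega) hS1 hS2 hX
    (fun j => bet b m (fun k => q * a j k)) hβ
  obtain ⟨s, hs0, hsd, hsb⟩ := hph2 (by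
      intro s s' hsd hsb hsd' hsb' j
      have e1 := hstep s hsd S hsb hS1
      have e2 := hstep s' hsd' S hsb' hS1
      obtain ⟨i, hi⟩ := hr.act j
      have f0 : ∀ (c : 𝓞 K) (t : Fin (R + 1) → 𝓞 K),
          ∑ j, mon x (fun k => q * a j k % m k) *
            aeval x (C (algebraMap (𝓞 K) A (c * t j)) * expand q (map σ (v i j))) =
          kf (A := A) c * ∑ j, kf (A := A) (t j) * (mon x (fun k => q * a j k % m k) *
            aeval (fun k => x k ^ q) (map σ (v i j))) := by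
        intro c t
        rw [Finset.mul_sum]
        refine Finset.sum_congr rfl fun j _ => ?_
        rw [ae_ex, map_mul]
        ring
      have heq : ∑ j, mon x (fun k => q * a j k % m k) *
            aeval x (C (algebraMap (𝓞 K) A (s' 0 * s j)) * expand q (map σ (v i j))) =
          ∑ j, mon x (fun k => q * a j k % m k) *
            aeval x (C (algebraMap (𝓞 K) A (s 0 * s' j)) * expand q (map σ (v i j))) := by
        rw [f0, f0, ← e1 i, ← e2 i]
        ring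
      have hu := h.sep_unique (fun j k => q * a j k % m k) (fun i => q * ℓ i) hqm hsep
        (fun j => C (algebraMap (𝓞 K) A (s' 0 * s j)) * expand q (map σ (v i j)))
        (fun j => C (algebraMap (𝓞 K) A (s 0 * s' j)) * expand q (map σ (v i j)))
        (fun j => deg_ex hq.pos σ _ (hr.deg _ _) _) (fun j => deg_ex hq.pos σ _ (hr.deg _ _) _) heq
      have hj := congrFun hu j
      have hne : expand q (map σ (v i j)) ≠ 0 := (expand_ne_zero hq.pos).2 (map_ne σ hi)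
      have hc := C_injective _ _ (mul_right_cancel₀ hne hj)
      exact kf_inj (A := A) (F := A) hc)
  have hsq : ∀ j (τ : K →+* ℂ), ‖τ (s j)‖ ≤ HK K B r d D0 := by
    intro j τ
    refine (hsb j τ).trans ?_
    unfold HK
    exact_mod_cast Nat.mul_le_mul_left _ hXX
  have hlast : HK K B r d D0 ^ Module.finrank ℚ K < Ideal.absNorm 𝔮 :=
    lt_of_le_of_lt (Nat.pow_le_pow_left (Nat.le_mul_of_pos_right _ (by omega)) _)
      (hbig.trans_le hqN)
  refine ⟨s, hsd, fun h0 => hs0 ?_, hsq⟩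
  funext j
  refine zero_of_small 𝔮 _ hlast (s j) ?_ (hsq j)
  have h2 := 𝔮.add_mem (hsd j) (𝔮.mul_mem_right (bet b m (fun k => q * a j k)) h0)
  rwa [sub_add_cancel] at h2

end Pool.Agent.H72.BK
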