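import Pool.Agent.H72.BK.Emb

/-!
# A bound for sums (MP_187c26_nt, Theorem VK, S3)

Port of `Pool/Agent/H72/BE/Wtm.lean` (`sum_le`); the multipliers `s_j` are in `F` (in the end in `𝓞 K`), `‖φ (s_j)‖ ≤ S`.
-/

set_option autoImplicit false

open MvPolynomial NumberField

namespace Pool.Agent.H72.BK

open Pool.Agent.H72.BE (Gm Box vl bv md mon)

variable {r : ℕ} {m : Fin r → ℕ} [∀ i, NeZero (m i)] {B : ℕ} {A F : Type} [Field A]
  [NumberField A] {b : Fin r → A} [Field F] [NumberField F] [Algebra A F] {x : Fin r → F} {d R : ℕ}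

/-- Cauchy–Schwarz. -/
private theorem wtm_cs {ι : Type} (s : Finset ι) (f : ι → ℝ) :
    ∑ i ∈ s, f i ≤ √(s.card : ℝ) * √(∑ i ∈ s, f i ^ 2) := by
  rw [← Real.sqrt_mul (Nat.cast_nonneg _)]
  exact Real.le_sqrt_of_sq_le sq_sum_le_card_mul_sum_sq

theorem sum_le (h : Rad B b m F x) (D0 : ℕ) (a : Fin (R + 1) → Fin r → ℕ)
    (ha : ∀ j i, a j i ≤ m i)
    (v : Fin (d + 1) → Fin (R + 1) → MvPolynomial (Fin r) A) (q : ℕ) (hR : R ≤ R0 r d D0)
    (φ : F →+* ℂ) (s : Fin (R + 1) → F) (S : ℝ) (hS : ∀ j, ‖φ (s j)‖ ≤ S)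
    (r' : Fin (R + 1) → Fin r → ℕ) (hr' : ∀ j i, r' j i ≤ m i) :
    ∑ i, ‖φ (∑ j, s j * (mon x (r' j) * aeval (fun k => x k ^ q) (v i j)))‖ ≤
      S * ((B : ℝ) ^ r) ^ 2 * (d + 1) * (R0 r d D0 + 1) * √(wt x a v q φ) := by
  have hS0 : 0 ≤ S := (norm_nonneg _).trans (hS 0)
  have hterm : ∀ i j, ‖φ (s j * (mon x (r' j) * aeval (fun k => x k ^ q) (v i j)))‖ ≤
      S * ((B : ℝ) ^ r) ^ 2 * ‖φ (mon x (a j) * aeval (fun k => x k ^ q) (v i j))‖ := by
    intro i j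
    rw [map_mul, map_mul, norm_mul, norm_mul, map_mul, norm_mul, h.norm_mon, h.norm_mon]
    have h2 : ‖rw b m (φ.comp (algebraMap A F)) (r' j)‖ ≤ (B : ℝ) ^ r * ((B : ℝ) ^ r *
        ‖rw b m (φ.comp (algebraMap A F)) (a j)‖) :=
      (h.norm_rw_le' _ _ (hr' j)).trans (le_mul_of_one_le_right (by positivity)
        (h.one_le_rw' _ _ (ha j)))
    have h3 := norm_nonneg (φ (aeval (fun k => x k ^ q) (v i j)))
    calc ‖φ (s j)‖ * (‖rw b m (φ.comp (algebraMap A F)) (r' j)‖ *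
          ‖φ (aeval (fun k => x k ^ q) (v i j))‖)
        ≤ S * ((B : ℝ) ^ r * ((B : ℝ) ^ r * ‖rw b m (φ.comp (algebraMap A F)) (a j)‖) *
          ‖φ (aeval (fun k => x k ^ q) (v i j))‖) := by
          apply mul_le_mul (hS j) (mul_le_mul_of_nonneg_right h2 h3) (by positivity) hS0
      _ = _ := by ring
  obtain ⟨f, hf⟩ : ∃ f : Fin (d + 1) × Fin (R + 1) → ℝ,
      f = fun w => ‖φ (mon x (a w.2) * aeval (fun k => x k ^ q) (v w.1 w.2))‖ := ⟨_, rfl⟩
  have h1 : ∑ i, ‖φ (∑ j, s j * (mon x (r' j) * aeval (fun k => x k ^ q) (v i j)))‖ ≤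
      S * ((B : ℝ) ^ r) ^ 2 * ∑ w, f w := by
    rw [Fintype.sum_prod_type, Finset.mul_sum]
    refine Finset.sum_le_sum fun i _ => ?_
    rw [map_sum, Finset.mul_sum]
    refine (norm_sum_le _ _).trans (Finset.sum_le_sum fun j _ => ?_)
    rw [hf]
    exact hterm i j
  have h2 : ∑ w, f w ^ 2 = wt x a v q φ := by
    rw [wt, Fintype.sum_prod_type]
    refine Finset.sum_congr rfl fun i _ => Finset.sum_congr rfl fun j _ => ?_
    rw [hf]
  have h3 := wtm_cs Finset.univ f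
  rw [h2] at h3
  have h4 : √((Finset.univ : Finset (Fin (d + 1) × Fin (R + 1))).card : ℝ) ≤
      (d + 1) * (R0 r d D0 + 1) := by
    rw [Finset.card_univ, Fintype.card_prod, Fintype.card_fin, Fintype.card_fin]
    have hR' : (R : ℝ) ≤ R0 r d D0 := by exact_mod_cast hR
    have h5 : (1 : ℝ) ≤ ((d : ℝ) + 1) * (R + 1) := by
      have h6 : (0 : ℝ) ≤ d := Nat.cast_nonneg _
      have h7 : (0 : ℝ) ≤ R := Nat.cast_nonneg _
      nlinarith [mul_nonneg h6 h7]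
    push_cast
    calc √(((d : ℝ) + 1) * (R + 1)) ≤ ((d : ℝ) + 1) * (R + 1) := by
          rw [Real.sqrt_le_left (by positivity)]
          nlinarith
      _ ≤ (d + 1) * (R0 r d D0 + 1) := by
          apply mul_le_mul_of_nonneg_left (by linarith) (by positivity)
  calc _ ≤ S * ((B : ℝ) ^ r) ^ 2 * ∑ w, f w := h1
    _ ≤ S * ((B : ℝ) ^ r) ^ 2 * (((d + 1) * (R0 r d D0 + 1)) * √(wt x a v q φ)) := by
        apply mul_le_mul_of_nonneg_left _ (by positivity)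
        exact h3.trans (mul_le_mul_of_nonneg_right h4 (Real.sqrt_nonneg _))
    _ = _ := by ring

end Pool.Agent.H72.BK
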